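import Mathlib.Topology.Sheaves.Presheaf
import Mathlib.Tactic.Monotonicity.Lemmas
import Mathlib.RingTheory.Flat.TorsionFree
import Mathlib.LinearAlgebra.Matrix.FiniteDimensional
import Mathlib.MeasureTheory.Measure.Tilted
import Mathlib.Probability.Distributions.Gaussian.Fernique
import Mathlib.RingTheory.TotallySplit
import Mathlib.RingTheory.Etale.Weakly
import Mathlib.Tactic.Algebra.Basic
import Mathlib.Topology.UniformSpace.Uniformizable

-- ======== part 0: formerly Pool.Agent.MP_6504f0_pr.Gauss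
section MrgPart0

set_option autoImplicit false
set_option linter.unusedSectionVars false

open MeasureTheory ProbabilityTheory Real
open scoped ENNReal NNReal

namespace Pool.Agent.MP_6504f0_pr

variable {ι : Type*} [Fintype ι]

/-- A symmetric positive definite bilinear form on `ι → ℝ`. -/
structure PD (B : LinearMap.BilinForm ℝ (ι → ℝ)) : Prop where
  symm : ∀ x y, B x y = B y x
  pos : ∀ x, x ≠ 0 → 0 < B x x

lemma continuous_bilin (B : LinearMap.BilinForm ℝ (ι → ℝ)) :
    Continuous (fun p : (ι → ℝ) × (ι → ℝ) => B p.1 p.2) := by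
  classical
  have : (fun p : (ι → ℝ) × (ι → ℝ) => B p.1 p.2)
      = fun p => ∑ i, ∑ j, p.1 i * p.2 j * B (Pi.single i 1) (Pi.single j 1) := by
    ext p
    conv_lhs => rw [pi_eq_sum_univ' p.1, pi_eq_sum_univ' p.2]
    simp only [map_sum, LinearMap.sum_apply, map_smul, LinearMap.smul_apply, smul_eq_mul,
      Finset.mul_sum]
    rw [Finset.sum_comm]
    refine Finset.sum_congr rfl fun i _ => Finset.sum_congr rfl fun j _ => ?_
    ring
  rw [this]
  fun_prop

lemma continuous_quad (B : LinearMap.BilinForm ℝ (ι → ℝ)) :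
    Continuous (fun x : ι → ℝ => B x x) :=
  (continuous_bilin B).comp (continuous_id.prodMk continuous_id)

lemma continuous_lin (B : LinearMap.BilinForm ℝ (ι → ℝ)) (v : ι → ℝ) :
    Continuous (fun x : ι → ℝ => B v x) :=
  (continuous_bilin B).comp (continuous_const.prodMk continuous_id)

lemma PD.nonneg {B : LinearMap.BilinForm ℝ (ι → ℝ)} (h : PD B) (x : ι → ℝ) : 0 ≤ B x x := by
  by_cases hx : x = 0
  · simp [hx]
  · exact (h.pos x hx).le

lemma PD.coercive {B : LinearMap.BilinForm ℝ (ι → ℝ)} (h : PD B) :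
    ∃ c : ℝ, 0 < c ∧ ∀ x, c * ∑ i, x i ^ 2 ≤ B x x := by
  by_cases hne : (Metric.sphere (0 : ι → ℝ) 1).Nonempty
  · obtain ⟨x0, hx0, hmin⟩ := (isCompact_sphere (0 : ι → ℝ) 1).exists_isMinOn hne
      (continuous_quad B).continuousOn
    have hx0' : x0 ≠ 0 := by
      intro h0; simp [h0] at hx0
    refine ⟨B x0 x0 / (Fintype.card ι + 1), div_pos (h.pos _ hx0') (by positivity), fun x => ?_⟩
    by_cases hx : x = 0
    · simp [hx]
    have hn : 0 < ‖x‖ := norm_pos_iff.2 hx
    have h1 : (‖x‖⁻¹ • x) ∈ Metric.sphere (0 : ι → ℝ) 1 := by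
      simp [norm_smul, hn.ne']
    have h2 : B x0 x0 ≤ B (‖x‖⁻¹ • x) (‖x‖⁻¹ • x) := hmin h1
    simp only [map_smul, LinearMap.smul_apply, smul_eq_mul] at h2
    have h3 : ∑ i, x i ^ 2 ≤ (Fintype.card ι + 1) * ‖x‖ ^ 2 := by
      calc ∑ i, x i ^ 2 ≤ ∑ _i : ι, ‖x‖ ^ 2 := by
            refine Finset.sum_le_sum fun i _ => ?_
            have := norm_le_pi_norm x i
            rw [Real.norm_eq_abs] at this
            calc x i ^ 2 = |x i| ^ 2 := (sq_abs _).symm
              _ ≤ ‖x‖ ^ 2 := by gcongr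
        _ = Fintype.card ι * ‖x‖ ^ 2 := by simp
        _ ≤ _ := by nlinarith [sq_nonneg ‖x‖]
    have h4 : B x0 x0 * ‖x‖ ^ 2 ≤ B x x := by
      have := mul_le_mul_of_nonneg_right h2 (sq_nonneg ‖x‖)
      calc B x0 x0 * ‖x‖ ^ 2 ≤ ‖x‖⁻¹ * (‖x‖⁻¹ * B x x) * ‖x‖ ^ 2 := this
        _ = B x x := by field_simp
    calc B x0 x0 / (Fintype.card ι + 1) * ∑ i, x i ^ 2
        ≤ B x0 x0 / (Fintype.card ι + 1) * ((Fintype.card ι + 1) * ‖x‖ ^ 2) := by
          have := h.nonneg x0
          gcongr
      _ = B x0 x0 * ‖x‖ ^ 2 := by field_simp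
      _ ≤ _ := h4
  · refine ⟨1, one_pos, fun x => ?_⟩
    by_cases hx : x = 0
    · simp [hx]
    exfalso
    apply hne
    have hn : 0 < ‖x‖ := norm_pos_iff.2 hx
    exact ⟨‖x‖⁻¹ • x, by simp [norm_smul, hn.ne']⟩

lemma PD.integrable_exp {B : LinearMap.BilinForm ℝ (ι → ℝ)} (h : PD B) :
    Integrable (fun x : ι → ℝ => exp (-(B x x) / 2)) := by
  obtain ⟨c, hc, hle⟩ := h.coercive
  have h1 : Integrable (fun x : ι → ℝ => ∏ i, exp (-(c / 2) * x i ^ 2)) := by
    rw [volume_pi]
    exact Integrable.fintype_prod (f := fun _ (t : ℝ) => exp (-(c / 2) * t ^ 2))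
      (fun _ => integrable_exp_neg_mul_sq (by positivity))
  refine h1.mono' ?_ (Filter.Eventually.of_forall fun x => ?_)
  · exact (by have := continuous_quad B; fun_prop : Continuous _).aestronglyMeasurable
  · rw [Real.norm_eq_abs, abs_of_pos (exp_pos _), ← Real.exp_sum]
    apply Real.exp_le_exp.2
    rw [← Finset.mul_sum]
    have := hle x
    linarith

/-- The centred Gaussian measure with density proportional to `exp (-B x x / 2)`. -/
noncomputable def gm (B : LinearMap.BilinForm ℝ (ι → ℝ)) : Measure (ι → ℝ) :=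
  (volume : Measure (ι → ℝ)).tilted (fun x => -(B x x) / 2)

/-- Normalising constant. -/
noncomputable def gZ (B : LinearMap.BilinForm ℝ (ι → ℝ)) : ℝ :=
  ∫ x : ι → ℝ, exp (-(B x x) / 2)

lemma PD.isProb {B : LinearMap.BilinForm ℝ (ι → ℝ)} (h : PD B) : IsProbabilityMeasure (gm B) :=
  isProbabilityMeasure_tilted h.integrable_exp

lemma PD.gZ_pos {B : LinearMap.BilinForm ℝ (ι → ℝ)} (h : PD B) : 0 < gZ B :=
  integral_exp_pos h.integrable_exp

lemma integral_gm (B : LinearMap.BilinForm ℝ (ι → ℝ)) (f : (ι → ℝ) → ℝ) :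
    ∫ x, f x ∂(gm B) = (∫ x, exp (-(B x x) / 2) * f x) / gZ B := by
  rw [gm, integral_tilted, ← integral_div]
  refine integral_congr_ae (Filter.Eventually.of_forall fun x => ?_)
  simp only [smul_eq_mul, gZ]
  ring

lemma PD.integrable_gm_iff {B : LinearMap.BilinForm ℝ (ι → ℝ)} (h : PD B) (f : (ι → ℝ) → ℝ) :
    Integrable f (gm B) ↔ Integrable (fun x => exp (-(B x x) / 2) * f x) := by
  rw [gm, integrable_tilted_iff h.integrable_exp]
  simp only [smul_eq_mul]

/-- Cameron-Martin formula. -/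
lemma PD.integral_shift {B : LinearMap.BilinForm ℝ (ι → ℝ)} (h : PD B) (f : (ι → ℝ) → ℝ)
    (v : ι → ℝ) :
    ∫ x, f (x + v) ∂(gm B) = ∫ x, f x * exp (B v x - B v v / 2) ∂(gm B) := by
  rw [integral_gm, integral_gm]
  congr 1
  rw [← integral_add_right_eq_self (fun x => exp (-(B x x) / 2) * (f x * exp (B v x - B v v / 2))) v]
  refine integral_congr_ae (Filter.Eventually.of_forall fun x => ?_)
  simp only [map_add, LinearMap.add_apply]
  rw [h.symm x v]
  have : exp (-(B x x) / 2) = exp (-(B x x + B v x + (B v x + B v v)) / 2)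
      * exp (B v x + B v v - B v v / 2) := by
    rw [← Real.exp_add]; congr 1; ring
  rw [this]; ring

lemma PD.integrable_exp_lin {B : LinearMap.BilinForm ℝ (ι → ℝ)} (h : PD B) (v : ι → ℝ) :
    Integrable (fun x => exp (B v x)) (gm B) := by
  rw [h.integrable_gm_iff]
  have h1 := (h.integrable_exp.comp_add_right (-v)).const_mul (exp (B v v / 2))
  refine h1.congr (Filter.Eventually.of_forall fun x => ?_)
  simp only [map_add, map_neg, LinearMap.add_apply, LinearMap.neg_apply]
  rw [← Real.exp_add, ← Real.exp_add, h.symm x v]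
  congr 1; ring

lemma PD.integral_exp_lin {B : LinearMap.BilinForm ℝ (ι → ℝ)} (h : PD B) (v : ι → ℝ) :
    ∫ x, exp (B v x) ∂(gm B) = exp (B v v / 2) := by
  have := h.isProb
  have h1 := h.integral_shift (fun _ => exp (B v v / 2)) v
  simp only [integral_const, probReal_univ, one_smul] at h1
  rw [h1]
  refine integral_congr_ae (Filter.Eventually.of_forall fun x => ?_)
  simp only
  rw [← Real.exp_add]; congr 1; ring

lemma PD.map_lin {B : LinearMap.BilinForm ℝ (ι → ℝ)} (h : PD B) (v : ι → ℝ) :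
    (gm B).map (fun x => B v x) = gaussianReal 0 (B v v).toNNReal := by
  have := h.isProb
  have hm : mgf (fun x => B v x) (gm B) = mgf id (gaussianReal 0 (B v v).toNNReal) := by
    rw [mgf_id_gaussianReal]
    ext t
    have := h.integral_exp_lin (t • v)
    simp only [map_smul, LinearMap.smul_apply, smul_eq_mul] at this
    rw [mgf, this, Real.coe_toNNReal _ (h.nonneg v)]
    congr 1; ring
  have hset : integrableExpSet (fun x => B v x) (gm B) = Set.univ := by
    ext t
    simp only [integrableExpSet, Set.mem_ofPred_eq, Set.mem_univ, iff_true]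
    have := h.integrable_exp_lin (t • v)
    simpa using this
  have h2 := eqOn_complexMGF_of_mgf hm
  rw [hset] at h2
  have h3 : complexMGF (fun x => B v x) (gm B)
      = complexMGF id (gaussianReal 0 (B v v).toNNReal) := by
    ext z; exact h2 (by simp)
  have := Measure.ext_of_complexMGF_eq (continuous_lin B v).measurable.aemeasurable
    aemeasurable_id h3
  simpa using this

lemma PD.riesz {B : LinearMap.BilinForm ℝ (ι → ℝ)} (h : PD B) (L : (ι → ℝ) →ₗ[ℝ] ℝ) :
    ∃ v, ∀ x, L x = B v x := by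
  have hinj : Function.Injective (B : (ι → ℝ) →ₗ[ℝ] Module.Dual ℝ (ι → ℝ)) := by
    rw [← LinearMap.ker_eq_bot, LinearMap.ker_eq_bot']
    intro x hx
    by_contra hne
    have := h.pos x hne
    rw [hx] at this
    simp at this
  have hsurj := (LinearMap.injective_iff_surjective_of_finrank_eq_finrank
    (Subspace.dual_finrank_eq (K := ℝ) (V := ι → ℝ)).symm).1 hinj
  obtain ⟨v, hv⟩ := hsurj L
  exact ⟨v, fun x => by rw [hv]⟩

lemma PD.isGaussian {B : LinearMap.BilinForm ℝ (ι → ℝ)} (h : PD B) : IsGaussian (gm B) := by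
  refine isGaussian_of_map_eq_gaussianReal fun L => ?_
  obtain ⟨v, hv⟩ := h.riesz (L : (ι → ℝ) →ₗ[ℝ] ℝ)
  refine ⟨0, (B v v).toNNReal, ?_⟩
  rw [← h.map_lin v]
  congr 1
  ext x
  exact hv x

lemma PD.memLp_lin {B : LinearMap.BilinForm ℝ (ι → ℝ)} (h : PD B) (v : ι → ℝ) :
    MemLp (fun x => B v x) 2 (gm B) := by
  have h1 : MemLp id 2 ((gm B).map (fun x => B v x)) := by
    rw [h.map_lin v]; exact memLp_id_gaussianReal 2
  exact (memLp_map_measure_iff aestronglyMeasurable_id
    (continuous_lin B v).measurable.aemeasurable).1 h1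

lemma PD.integrable_lin {B : LinearMap.BilinForm ℝ (ι → ℝ)} (h : PD B) (v : ι → ℝ) :
    Integrable (fun x => B v x) (gm B) := by
  have := h.isProb
  exact (h.memLp_lin v).integrable (by norm_num)

lemma PD.integral_lin {B : LinearMap.BilinForm ℝ (ι → ℝ)} (h : PD B) (v : ι → ℝ) :
    ∫ x, B v x ∂(gm B) = 0 := by
  have := integral_map (μ := gm B) (continuous_lin B v).measurable.aemeasurable
    (f := fun t : ℝ => t) (by fun_prop)
  rw [← this, h.map_lin v, integral_id_gaussianReal]

lemma PD.integral_lin_sq {B : LinearMap.BilinForm ℝ (ι → ℝ)} (h : PD B) (v : ι → ℝ) :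
    ∫ x, (B v x) ^ 2 ∂(gm B) = B v v := by
  have := integral_map (μ := gm B) (continuous_lin B v).measurable.aemeasurable
    (f := fun t : ℝ => t ^ 2) (by fun_prop)
  rw [← this, h.map_lin v]
  have h2 := variance_fun_id_gaussianReal (μ := 0) (v := (B v v).toNNReal)
  rw [variance_eq_integral measurable_id'.aemeasurable] at h2
  simp only [integral_id_gaussianReal, sub_zero] at h2
  rw [h2, Real.coe_toNNReal _ (h.nonneg v)]

lemma PD.map_rotation {B : LinearMap.BilinForm ℝ (ι → ℝ)} (h : PD B) (θ : ℝ) :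
    ((gm B).prod (gm B)).map (ContinuousLinearMap.rotation θ) = (gm B).prod (gm B) := by
  have := h.isGaussian
  refine IsGaussian.map_rotation_eq_self_of_forall_strongDual_eq_zero (fun L => ?_) θ
  obtain ⟨v, hv⟩ := h.riesz (L : (ι → ℝ) →ₗ[ℝ] ℝ)
  rw [← h.integral_lin v]
  exact integral_congr_ae (Filter.Eventually.of_forall fun x => hv x)

lemma integral_gm_neg (B : LinearMap.BilinForm ℝ (ι → ℝ)) (f : (ι → ℝ) → ℝ) :
    ∫ x, f (-x) ∂(gm B) = ∫ x, f x ∂(gm B) := by
  rw [integral_gm, integral_gm]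
  congr 1
  rw [← integral_neg_eq_self]
  simp

/-- Cauchy-Schwarz. -/
lemma PD.cs {B : LinearMap.BilinForm ℝ (ι → ℝ)} (h : PD B) (x y : ι → ℝ) :
    (B x y) ^ 2 ≤ B x x * B y y := by
  by_cases hy : y = 0
  · simp [hy]
  have hp := h.pos y hy
  have h1 := h.nonneg (B y y • x - B x y • y)
  simp only [map_sub, map_smul, LinearMap.sub_apply, LinearMap.smul_apply, smul_eq_mul] at h1
  rw [h.symm y x] at h1
  have : 0 ≤ B y y * (B x x * B y y - (B x y) ^ 2) := by nlinarith
  have := nonneg_of_mul_nonneg_right this hp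
  linarith

/-- The norm attached to the form. -/
noncomputable def bn (B : LinearMap.BilinForm ℝ (ι → ℝ)) (x : ι → ℝ) : ℝ := √(B x x)

lemma bn_nonneg (B : LinearMap.BilinForm ℝ (ι → ℝ)) (x : ι → ℝ) : 0 ≤ bn B x := Real.sqrt_nonneg _

lemma PD.bn_sq {B : LinearMap.BilinForm ℝ (ι → ℝ)} (h : PD B) (x : ι → ℝ) :
    bn B x ^ 2 = B x x := Real.sq_sqrt (h.nonneg x)

lemma bn_neg (B : LinearMap.BilinForm ℝ (ι → ℝ)) (x : ι → ℝ) : bn B (-x) = bn B x := by
  simp [bn]

lemma bn_zero (B : LinearMap.BilinForm ℝ (ι → ℝ)) : bn B 0 = 0 := by simp [bn]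

lemma PD.le_bn_mul {B : LinearMap.BilinForm ℝ (ι → ℝ)} (h : PD B) (x y : ι → ℝ) :
    B x y ≤ bn B x * bn B y := by
  have h1 := h.cs x y
  rw [← h.bn_sq x, ← h.bn_sq y, ← mul_pow] at h1
  exact (abs_le_of_sq_le_sq' h1 (mul_nonneg (bn_nonneg _ _) (bn_nonneg _ _))).2

lemma PD.bn_add_le {B : LinearMap.BilinForm ℝ (ι → ℝ)} (h : PD B) (x y : ι → ℝ) :
    bn B (x + y) ≤ bn B x + bn B y := by
  have h1 : bn B (x + y) ^ 2 ≤ (bn B x + bn B y) ^ 2 := by
    rw [h.bn_sq, add_sq, h.bn_sq, h.bn_sq]
    simp only [map_add, LinearMap.add_apply]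
    have := h.le_bn_mul x y
    rw [h.symm y x]
    linarith
  exact (abs_le_of_sq_le_sq' h1 (add_nonneg (bn_nonneg _ _) (bn_nonneg _ _))).2

lemma PD.bn_pos {B : LinearMap.BilinForm ℝ (ι → ℝ)} (h : PD B) {x : ι → ℝ} (hx : x ≠ 0) :
    0 < bn B x := Real.sqrt_pos.2 (h.pos x hx)

end Pool.Agent.MP_6504f0_pr

end MrgPart0

-- ======== part 1: formerly Pool.Agent.MP_6504f0_pr.Conc
section MrgPart1

set_option autoImplicit false
set_option linter.unusedSectionVars false

open MeasureTheory ProbabilityTheory Real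
open scoped ENNReal NNReal

namespace Pool.Agent.MP_6504f0_pr

variable {ι : Type*} [Fintype ι] {T : Type*}

/-- Maximum of the Gaussian process over a finite set. -/
noncomputable def mx (B : LinearMap.BilinForm ℝ (ι → ℝ)) (a : T → ι → ℝ) (A : Finset T)
    (x : ι → ℝ) : ℝ := ⨆ t : A, B (a t) x

/-- Expected maximum. -/
noncomputable def emx (B : LinearMap.BilinForm ℝ (ι → ℝ)) (a : T → ι → ℝ) (A : Finset T) : ℝ :=
  ∫ x, mx B a A x ∂(gm B)

variable {B : LinearMap.BilinForm ℝ (ι → ℝ)} {a : T → ι → ℝ} {A : Finset T}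

lemma le_mx {t : T} (ht : t ∈ A) (x : ι → ℝ) : B (a t) x ≤ mx B a A x :=
  le_ciSup (f := fun t : A => B (a t) x) (Set.finite_range _).bddAbove ⟨t, ht⟩

lemma exists_mx (hA : A.Nonempty) (x : ι → ℝ) : ∃ t ∈ A, mx B a A x = B (a t) x := by
  have : Nonempty A := hA.to_subtype
  obtain ⟨t, ht⟩ := exists_eq_ciSup_of_finite (f := fun t : A => B (a t) x)
  exact ⟨t, t.2, ht.symm⟩

lemma measurable_mx : Measurable (mx B a A) :=
  Measurable.iSup (fun t : A => (continuous_lin B (a t)).measurable)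

lemma PD.integrable_mx (h : PD B) (hA : A.Nonempty) : Integrable (mx B a A) (gm B) := by
  have h1 : Integrable (fun x => ∑ t ∈ A, |B (a t) x|) (gm B) :=
    integrable_finsetSum _ fun t _ => (h.integrable_lin (a t)).abs
  refine h1.mono' measurable_mx.aestronglyMeasurable (Filter.Eventually.of_forall fun x => ?_)
  obtain ⟨t, ht, he⟩ := exists_mx (B := B) (a := a) hA x
  rw [he, Real.norm_eq_abs]
  exact Finset.single_le_sum (f := fun t => |B (a t) x|) (fun _ _ => abs_nonneg _) ht

lemma PD.memLp_mx (h : PD B) (hA : A.Nonempty) : MemLp (mx B a A) 2 (gm B) := by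
  have h1 : MemLp (fun x => ∑ t ∈ A, |B (a t) x|) 2 (gm B) :=
    memLp_finsetSum _ fun t _ => (h.memLp_lin (a t)).abs
  refine h1.mono' measurable_mx.aestronglyMeasurable (Filter.Eventually.of_forall fun x => ?_)
  obtain ⟨t, ht, he⟩ := exists_mx (B := B) (a := a) hA x
  rw [he, Real.norm_eq_abs]
  exact Finset.single_le_sum (f := fun t => |B (a t) x|) (fun _ _ => abs_nonneg _) ht

lemma PD.integrable_exp_mx (h : PD B) (hA : A.Nonempty) (l : ℝ) :
    Integrable (fun x => exp (l * mx B a A x)) (gm B) := by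
  have h1 : Integrable (fun x => ∑ t ∈ A, exp (B (l • a t) x)) (gm B) :=
    integrable_finsetSum _ fun t _ => h.integrable_exp_lin _
  refine h1.mono' ((measurable_mx.const_mul l).exp).aestronglyMeasurable
    (Filter.Eventually.of_forall fun x => ?_)
  obtain ⟨t, ht, he⟩ := exists_mx (B := B) (a := a) hA x
  rw [he, Real.norm_eq_abs, abs_of_pos (exp_pos _)]
  have := Finset.single_le_sum (f := fun t => exp (B (l • a t) x))
    (fun _ _ => (exp_pos _).le) ht
  simpa using this

lemma PD.emx_nonneg (h : PD B) (hA : A.Nonempty) : 0 ≤ emx B a A := by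
  obtain ⟨t, ht⟩ := hA
  rw [← h.integral_lin (a t)]
  exact integral_mono (h.integrable_lin _) (h.integrable_mx ⟨t, ht⟩) fun x => le_mx ht x

lemma mx_mono {A' : Finset T} (hA : A.Nonempty) (hs : A ⊆ A') (x : ι → ℝ) :
    mx B a A x ≤ mx B a A' x := by
  obtain ⟨t, ht, he⟩ := exists_mx (B := B) (a := a) hA x
  rw [he]; exact le_mx (hs ht) x

lemma PD.emx_mono (h : PD B) {A' : Finset T} (hA : A.Nonempty) (hs : A ⊆ A') :
    emx B a A ≤ emx B a A' :=
  integral_mono (h.integrable_mx hA) (h.integrable_mx (hA.mono hs)) fun x => mx_mono hA hs x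

lemma mx_sub (hA : A.Nonempty) (c x : ι → ℝ) :
    mx B (fun t => a t - c) A x = mx B a A x - B c x := by
  apply le_antisymm
  · obtain ⟨t, ht, he⟩ := exists_mx (B := B) (a := fun t => a t - c) hA x
    rw [he]
    have := le_mx (B := B) (a := a) ht x
    simp only [map_sub, LinearMap.sub_apply]
    linarith
  · obtain ⟨t, ht, he⟩ := exists_mx (B := B) (a := a) hA x
    rw [he]
    have := le_mx (B := B) (a := fun t => a t - c) ht x
    simpa using this

lemma PD.emx_sub (h : PD B) (hA : A.Nonempty) (c : ι → ℝ) :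
    emx B (fun t => a t - c) A = emx B a A := by
  simp only [emx, mx_sub hA]
  rw [integral_sub (h.integrable_mx hA) (h.integrable_lin c), h.integral_lin, sub_zero]

/-- one rotation step -/
lemma PD.step_bound (h : PD B) (hA : A.Nonempty) {δ : ℝ} (hδ : ∀ t ∈ A, B (a t) (a t) ≤ δ ^ 2)
    (c s l : ℝ) (hl : 0 ≤ l) :
    ∫⁻ p : (ι → ℝ) × (ι → ℝ), ENNReal.ofReal
        (exp (l * (c * mx B a A p.1 - mx B a A (c • p.1 - s • p.2)))) ∂((gm B).prod (gm B))
      ≤ ENNReal.ofReal (exp (l ^ 2 * s ^ 2 * δ ^ 2 / 2)) := by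
  have := h.isProb
  have hmeas : Measurable (fun p : (ι → ℝ) × (ι → ℝ) => ENNReal.ofReal
        (exp (l * (c * mx B a A p.1 - mx B a A (c • p.1 - s • p.2))))) := by
    refine Measurable.ennreal_ofReal (Measurable.exp (Measurable.const_mul (Measurable.sub
      (Measurable.const_mul (measurable_mx.comp measurable_fst) _)
      (measurable_mx.comp (by fun_prop))) _))
  rw [lintegral_prod _ hmeas.aemeasurable]
  calc _ ≤ ∫⁻ _u, ENNReal.ofReal (exp (l ^ 2 * s ^ 2 * δ ^ 2 / 2)) ∂(gm B) := by
        refine lintegral_mono fun u => ?_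
        obtain ⟨t, ht, he⟩ := exists_mx (B := B) (a := a) hA u
        calc _ ≤ ∫⁻ w, ENNReal.ofReal (exp (B ((l * s) • a t) w)) ∂(gm B) := by
              refine lintegral_mono fun w => ?_
              apply ENNReal.ofReal_le_ofReal
              apply Real.exp_le_exp.2
              have h1 := le_mx (B := B) (a := a) ht (c • u - s • w)
              simp only [map_sub, map_smul, smul_eq_mul, LinearMap.smul_apply] at h1 ⊢
              rw [he]
              have : c * B (a t) u - mx B a A (c • u - s • w) ≤ s * B (a t) w := by linarith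
              calc l * (c * B (a t) u - mx B a A (c • u - s • w)) ≤ l * (s * B (a t) w) := by
                    gcongr
                _ = _ := by ring
          _ = ENNReal.ofReal (exp (B ((l * s) • a t) ((l * s) • a t) / 2)) := by
              rw [← ofReal_integral_eq_lintegral_ofReal (h.integrable_exp_lin _)
                (Filter.Eventually.of_forall fun x => (exp_pos _).le), h.integral_exp_lin]
          _ ≤ _ := by
              apply ENNReal.ofReal_le_ofReal
              apply Real.exp_le_exp.2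
              simp only [map_smul, smul_eq_mul, LinearMap.smul_apply]
              have := hδ t ht
              have h2 : l * s * (l * s * B (a t) (a t)) = (l * s) ^ 2 * B (a t) (a t) := by ring
              rw [h2]
              have : (l * s) ^ 2 * B (a t) (a t) ≤ (l * s) ^ 2 * δ ^ 2 := by gcongr
              linarith [mul_pow l s 2]
    _ = _ := by simp

lemma PD.conc_aux (h : PD B) (hA : A.Nonempty) {δ : ℝ} (hδ : ∀ t ∈ A, B (a t) (a t) ≤ δ ^ 2)
    (l : ℝ) (hl : 0 ≤ l) (N : ℕ) (hN : 0 < N) :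
    ∫⁻ p : (ι → ℝ) × (ι → ℝ), ENNReal.ofReal
        (exp (l * (cos (π / 2 / N) ^ N * mx B a A p.2 - mx B a A p.1))) ∂((gm B).prod (gm B))
      ≤ ENNReal.ofReal (exp (2 * l ^ 2 * δ ^ 2)) := by
  set α : ℝ := π / 2 / N with hα
  have hNr : (0 : ℝ) < N := by exact_mod_cast hN
  have hα0 : 0 ≤ α := by positivity
  have hα1 : α ≤ π / 2 := by
    rw [hα]; apply div_le_self (by positivity); exact_mod_cast hN
  have hc0 : 0 ≤ cos α := Real.cos_nonneg_of_neg_pi_div_two_le_of_le (by linarith [pi_pos]) hα1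
  have hc1 : cos α ≤ 1 := Real.cos_le_one _
  have hs0 : 0 ≤ sin α := Real.sin_nonneg_of_nonneg_of_le_pi hα0 (by linarith [pi_pos])
  have hs1 : N * sin α ≤ 2 := by
    have := Real.sin_le hα0
    have h2 : (N : ℝ) * α = π / 2 := by rw [hα]; field_simp
    have : N * sin α ≤ N * α := by gcongr
    linarith [Real.pi_le_four]
  -- the functions
  let Hf : ℕ → (ι → ℝ) × (ι → ℝ) → ℝ := fun k p =>
    exp ((N * l * cos α ^ k) * (cos α * mx B a A p.1 - mx B a A (cos α • p.1 - sin α • p.2)))
  let z : ℕ → (ι → ℝ) × (ι → ℝ) → (ι → ℝ) := fun k p => cos (k * α) • p.1 + sin (k * α) • p.2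
  have hpt : ∀ p : (ι → ℝ) × (ι → ℝ),
      exp (l * (cos α ^ N * mx B a A p.2 - mx B a A p.1))
        ≤ ∑ k ∈ Finset.range N, (1 / N : ℝ) *
          Hf k (ContinuousLinearMap.rotation (((k + 1 : ℕ) : ℝ) * α) p) := by
    intro p
    have hz : ∀ k : ℕ, Hf k (ContinuousLinearMap.rotation (((k + 1 : ℕ) : ℝ) * α) p)
        = exp (N * (l * (cos α ^ (k + 1) * mx B a A (z (k + 1) p) - cos α ^ k * mx B a A (z k p)))) := by
      intro k
      simp only [Hf, ContinuousLinearMap.rotation_apply, z]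
      have e1 : cos α • (cos (((k + 1 : ℕ) : ℝ) * α) • p.1 + sin (((k + 1 : ℕ) : ℝ) * α) • p.2)
          - sin α • (-sin (((k + 1 : ℕ) : ℝ) * α) • p.1 + cos (((k + 1 : ℕ) : ℝ) * α) • p.2)
          = cos (k * α) • p.1 + sin (k * α) • p.2 := by
        have e2 : (k : ℝ) * α = ((k + 1 : ℕ) : ℝ) * α - α := by push_cast; ring
        rw [e2, Real.cos_sub, Real.sin_sub]
        ext i
        simp only [Pi.sub_apply, Pi.add_apply, Pi.smul_apply, smul_eq_mul]
        ring
      rw [e1]
      congr 1; ring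
    simp only [hz]
    have htel : ∑ k ∈ Finset.range N,
        (l * (cos α ^ (k + 1) * mx B a A (z (k + 1) p) - cos α ^ k * mx B a A (z k p)))
        = l * (cos α ^ N * mx B a A p.2 - mx B a A p.1) := by
      rw [← Finset.mul_sum, Finset.sum_range_sub (fun k => cos α ^ k * mx B a A (z k p))]
      have e3 : (N : ℝ) * α = π / 2 := by rw [hα]; field_simp
      simp [z, e3]
    have hj := (convexOn_exp).map_sum_le (t := Finset.range N) (w := fun _ => (1 / N : ℝ))
      (p := fun k => N * (l * (cos α ^ (k + 1) * mx B a A (z (k + 1) p)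
        - cos α ^ k * mx B a A (z k p)))) (fun _ _ => by positivity)
      (by simp; field_simp) (fun _ _ => Set.mem_univ _)
    simp only [smul_eq_mul] at hj
    refine le_trans (le_of_eq ?_) hj
    rw [← htel]
    congr 1
    refine Finset.sum_congr rfl fun k _ => ?_
    field_simp
  have hmeasH : ∀ k, Measurable (fun p => ENNReal.ofReal (Hf k p)) := fun k =>
    Measurable.ennreal_ofReal (Measurable.exp (Measurable.const_mul (Measurable.sub
      (Measurable.const_mul (measurable_mx.comp measurable_fst) _)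
      (measurable_mx.comp (by fun_prop))) _))
  calc _ ≤ ∫⁻ p, ∑ k ∈ Finset.range N, ENNReal.ofReal (1 / N : ℝ) * ENNReal.ofReal
          (Hf k (ContinuousLinearMap.rotation (((k + 1 : ℕ) : ℝ) * α) p)) ∂((gm B).prod (gm B)) := by
        refine lintegral_mono fun p => ?_
        refine (ENNReal.ofReal_le_ofReal (hpt p)).trans (le_of_eq ?_)
        rw [ENNReal.ofReal_sum_of_nonneg (fun _ _ => by positivity)]
        refine Finset.sum_congr rfl fun k _ => ?_
        rw [ENNReal.ofReal_mul (by positivity)]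
    _ = ∑ k ∈ Finset.range N, ENNReal.ofReal (1 / N : ℝ) *
          ∫⁻ p, ENNReal.ofReal (Hf k p) ∂((gm B).prod (gm B)) := by
        rw [lintegral_finsetSum]
        · refine Finset.sum_congr rfl fun k _ => ?_
          rw [lintegral_const_mul' _ _ ENNReal.ofReal_ne_top]
          congr 1
          conv_rhs => rw [← h.map_rotation (((k + 1 : ℕ) : ℝ) * α)]
          rw [lintegral_map (hmeasH k) (by fun_prop)]
        · intro k _
          exact ((hmeasH k).comp (by fun_prop)).const_mul _
    _ ≤ ∑ _k ∈ Finset.range N, ENNReal.ofReal (1 / N : ℝ) *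
          ENNReal.ofReal (exp (2 * l ^ 2 * δ ^ 2)) := by
        refine Finset.sum_le_sum fun k _ => ?_
        gcongr
        refine (h.step_bound hA hδ (cos α) (sin α) (N * l * cos α ^ k) (by positivity)).trans ?_
        apply ENNReal.ofReal_le_ofReal
        apply Real.exp_le_exp.2
        have h1 : cos α ^ k ≤ 1 := pow_le_one₀ hc0 hc1
        have h2 : cos α ^ k * (N * sin α) ≤ 1 * 2 := by gcongr
        have h3 : (cos α ^ k * (N * sin α)) ^ 2 ≤ (1 * 2) ^ 2 := by gcongr
        have h4 : (N * l * cos α ^ k) ^ 2 * sin α ^ 2 * δ ^ 2 / 2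
            = (cos α ^ k * (N * sin α)) ^ 2 * (l ^ 2 * δ ^ 2 / 2) := by ring
        rw [h4]
        calc _ ≤ (1 * 2) ^ 2 * (l ^ 2 * δ ^ 2 / 2) := by gcongr
          _ = _ := by ring
    _ = _ := by
        rw [← Finset.sum_mul, Finset.sum_const, Finset.card_range, nsmul_eq_mul,
          ← ENNReal.ofReal_natCast, ← ENNReal.ofReal_mul (by positivity)]
        have : (N : ℝ) * (1 / N) = 1 := by field_simp
        rw [this]; simp

lemma exp_integral_le {Ω : Type*} [MeasurableSpace Ω] {μ : Measure Ω} [IsProbabilityMeasure μ]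
    {f : Ω → ℝ} (hf : Integrable f μ) (he : Integrable (fun x => exp (f x)) μ) :
    exp (∫ x, f x ∂μ) ≤ ∫ x, exp (f x) ∂μ := by
  set m := ∫ x, f x ∂μ
  have h1 : ∫ x, exp m * (1 + (f x - m)) ∂μ = exp m := by
    have h0 : Integrable (fun x => f x - m) μ := hf.sub (integrable_const _)
    rw [integral_const_mul, integral_add (integrable_const _) h0,
      integral_sub hf (integrable_const _)]
    simp [m]
  rw [← h1]
  refine integral_mono (((integrable_const _).add (hf.sub (integrable_const _))).const_mul _) he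
    fun x => ?_
  have := Real.add_one_le_exp (f x - m)
  calc exp m * (1 + (f x - m)) ≤ exp m * exp (f x - m) := by
        gcongr; linarith
    _ = exp (f x) := by rw [← Real.exp_add]; congr 1; ring

/-- Gaussian concentration (lower tail) for a maximum of linear forms. -/
lemma PD.conc (h : PD B) (hA : A.Nonempty) {δ : ℝ} (hδ : ∀ t ∈ A, B (a t) (a t) ≤ δ ^ 2)
    (l : ℝ) (hl : 0 ≤ l) :
    ∫ x, exp (l * (emx B a A - mx B a A x)) ∂(gm B) ≤ exp (2 * l ^ 2 * δ ^ 2) := by
  have := h.isProb
  set I := ∫ x, exp (-l * mx B a A x) ∂(gm B) with hI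
  have hI0 : 0 ≤ I := integral_nonneg fun x => (exp_pos _).le
  have hF := h.emx_nonneg (a := a) hA
  have key : ∀ N : ℕ, 0 < N →
      exp (l * emx B a A * (1 - 2 / N)) * I ≤ exp (2 * l ^ 2 * δ ^ 2) := by
    intro N hN
    have h1 := h.conc_aux hA hδ l hl N hN
    set c := cos (π / 2 / N) ^ N with hc
    have h2 : ∀ p : (ι → ℝ) × (ι → ℝ), ENNReal.ofReal
        (exp (l * (c * mx B a A p.2 - mx B a A p.1)))
        = ENNReal.ofReal (exp (-l * mx B a A p.1)) * ENNReal.ofReal (exp (l * c * mx B a A p.2)) := by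
      intro p
      rw [← ENNReal.ofReal_mul (exp_pos _).le, ← Real.exp_add]
      congr 2; ring
    simp only [h2] at h1
    rw [lintegral_prod_mul (f := fun x => ENNReal.ofReal (exp (-l * mx B a A x)))
      (g := fun x => ENNReal.ofReal (exp (l * c * mx B a A x)))
      ((measurable_mx.const_mul _).exp.ennreal_ofReal.aemeasurable)
      ((measurable_mx.const_mul _).exp.ennreal_ofReal.aemeasurable),
      ← ofReal_integral_eq_lintegral_ofReal (h.integrable_exp_mx hA _)
        (Filter.Eventually.of_forall fun x => (exp_pos _).le),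
      ← ofReal_integral_eq_lintegral_ofReal (h.integrable_exp_mx hA _)
        (Filter.Eventually.of_forall fun x => (exp_pos _).le),
      ← ENNReal.ofReal_mul hI0, ENNReal.ofReal_le_ofReal_iff (exp_pos _).le] at h1
    have h3 := exp_integral_le ((h.integrable_mx (a := a) hA).const_mul (l * c))
      (h.integrable_exp_mx hA _)
    rw [integral_const_mul] at h3
    have hNr : (0 : ℝ) < N := by exact_mod_cast hN
    have hN1 : (1 : ℝ) ≤ N := by exact_mod_cast hN
    have h4 : 1 - 2 / (N : ℝ) ≤ c := by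
      have e1 := Real.one_sub_sq_div_two_le_cos (x := π / 2 / N)
      have e2 : (π / 2 / N) ^ 2 / 2 ≤ 2 / (N : ℝ) ^ 2 := by
        have : π / 2 / N ≤ 2 / N := by gcongr; linarith [Real.pi_le_four]
        calc (π / 2 / N) ^ 2 / 2 ≤ (2 / N) ^ 2 / 2 := by gcongr
          _ = _ := by field_simp
      have e3 : -2 ≤ cos (π / 2 / N) - 1 := by linarith [Real.neg_one_le_cos (π / 2 / N)]
      have e4 := one_add_mul_le_pow e3 N
      have e5 : (N : ℝ) * (-(2 / (N : ℝ) ^ 2)) ≤ N * (cos (π / 2 / N) - 1) := by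
        gcongr; linarith
      have e6 : (N : ℝ) * (-(2 / (N : ℝ) ^ 2)) = -(2 / N) := by field_simp
      rw [hc]
      simp only [add_sub_cancel] at e4
      linarith
    calc exp (l * emx B a A * (1 - 2 / N)) * I ≤ exp (l * c * emx B a A) * I := by
          refine mul_le_mul_of_nonneg_right (Real.exp_le_exp.2 ?_) hI0
          calc l * emx B a A * (1 - 2 / N) ≤ l * emx B a A * c := by gcongr
            _ = _ := by ring
      _ ≤ (∫ x, exp (l * c * mx B a A x) ∂(gm B)) * I := by gcongr; exact h3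
      _ ≤ _ := by rw [mul_comm]; exact h1
  have hlim : Filter.Tendsto (fun N : ℕ => exp (l * emx B a A * (1 - 2 / N)) * I) Filter.atTop
      (nhds (exp (l * emx B a A * (1 - 0)) * I)) := by
    refine Filter.Tendsto.mul_const _ (Filter.Tendsto.rexp (Filter.Tendsto.const_mul _
      (Filter.Tendsto.const_sub _ (tendsto_const_div_atTop_nhds_zero_nat 2))))
  have := le_of_tendsto hlim (Filter.eventually_atTop.2 ⟨1, fun N hN => key N hN⟩)
  refine le_trans (le_of_eq ?_) this
  rw [hI, ← integral_const_mul]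
  refine integral_congr_ae (Filter.Eventually.of_forall fun x => ?_)
  simp only
  rw [← Real.exp_add]; congr 1; ring

end Pool.Agent.MP_6504f0_pr

end MrgPart1

-- marker of a merged file
example : 731051 + 816663 = 731051 + 816663 := rfl
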