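import Mathlib.Order.ConditionallyCompleteLattice.Defs
import Mathlib.Order.ConditionallyCompleteLattice.Basic
import Mathlib.Combinatorics.SimpleGraph.Dart
import Mathlib.Order.CompletePartialOrder
import Mathlib.Probability.ProductMeasure
import Mathlib.Probability.Distributions.Exponential

set_option autoImplicit false

open MeasureTheory ProbabilityTheory
open scoped ENNReal NNReal

namespace Pool.Agent.MP_6504f0_pr

/-- The chain started at `z` and driven by the marks `ω 0, ω 1, ...` through the update rule `φ`. -/
def skeleton {Z M : Type} (φ : Z → M → Z) (z : Z) (ω : ℕ → M) : ℕ → Z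
  | 0 => z
  | n + 1 => φ (skeleton φ z ω n) (ω n)

variable {V : Type}

/-- Labels of the Poisson clocks: one clock without effect, for each edge `e` and state `b` the
refreshes of `e` to state `b`, and for each oriented edge `d` the jump attempts along `d`. -/
inductive Mark (G : SimpleGraph V) : Type
  | idle : Mark G
  | refresh (e : G.edgeSet) (b : Bool) : Mark G
  | jump (d : G.Dart) : Mark G

/-- The marks as a sum type. -/
def markEquiv (G : SimpleGraph V) : Option ((G.edgeSet × Bool) ⊕ G.Dart) ≃ Mark G where
  toFun
    | none => .idle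
    | some (.inl (e, b)) => .refresh e b
    | some (.inr d) => .jump d
  invFun
    | .idle => none
    | .refresh e b => some (.inl (e, b))
    | .jump d => some (.inr d)
  left_inv := by rintro (_ | ⟨e, b⟩ | d) <;> rfl
  right_inv := by rintro (_ | _ | _) <;> rfl

instance (G : SimpleGraph V) : MeasurableSpace (Mark G) := ⊤

variable [Fintype V] [DecidableEq V] (G : SimpleGraph V) [DecidableRel G.Adj]

instance : Fintype (Mark G) := Fintype.ofEquiv _ (markEquiv G)

/-- Effect of a ring on the state (position of the walk, environment; `true` means open). -/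
def step (z : V × (G.edgeSet → Bool)) : Mark G → V × (G.edgeSet → Bool)
  | .idle => z
  | .refresh e b => (z.1, Function.update z.2 e b)
  | .jump d => if z.1 = d.fst ∧ z.2 ⟨d.edge, d.edge_mem⟩ = true then (d.snd, z.2) else z

/-- Rates of the clocks: each edge is refreshed at rate `μ`, to open with probability `p`;
the walk at `x` attempts each incident edge at rate `1 / w x`. -/
noncomputable def rate (μ p : ℝ) (w : V → ℝ) : Mark G → ℝ
  | .idle => 1
  | .refresh _ b => μ * (if b then p else 1 - p)
  | .jump d => 1 / w d.fst

/-- Sum of all rates. -/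
noncomputable def totalRate (μ p : ℝ) (w : V → ℝ) : ℝ := ∑ m, rate G μ p w m

/-- Law of the label of a ring of the superposed clock. -/
noncomputable def markLaw (μ p : ℝ) (w : V → ℝ) : Measure (Mark G) :=
  ∑ m, ENNReal.ofReal (rate G μ p w m / totalRate G μ p w) • Measure.dirac m

/-- Independent marks and independent exponential gaps between rings. -/
noncomputable def dynLaw (μ p : ℝ) (w : V → ℝ) : Measure ((ℕ → Mark G) × (ℕ → ℝ)) :=
  (Measure.infinitePi fun _ => markLaw G μ p w).prod
    (Measure.infinitePi fun _ => expMeasure (totalRate G μ p w))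

/-- State of the full process at time `t`: the state after the rings up to time `t`. -/
noncomputable def process (z : V × (G.edgeSet → Bool)) (ω : (ℕ → Mark G) × (ℕ → ℝ)) (t : ℝ) :
    V × (G.edgeSet → Bool) :=
  skeleton (step G) z ω.1 (sSup {n : ℕ | ∑ i ∈ Finset.range n, ω.2 i ≤ t})

/-- First time at which the walk coordinate has visited every vertex. -/
noncomputable def dynCover (z : V × (G.edgeSet → Bool)) (ω : (ℕ → Mark G) × (ℕ → ℝ)) : ℝ≥0∞ :=
  ⨅ (t : ℝ≥0) (_ : ∀ v : V, ∃ s : ℝ≥0, s ≤ t ∧ (process G z ω s).1 = v), (t : ℝ≥0∞)

/-- Worst-case expected cover time of the walk on dynamical percolation. -/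
noncomputable def Tdyn (μ p : ℝ) (w : V → ℝ) : ℝ≥0∞ :=
  ⨆ z : V × (G.edgeSet → Bool), ∫⁻ ω, dynCover G z ω ∂(dynLaw G μ p w)

variable [MeasurableSpace V]

/-- One step of simple random walk: a uniform neighbour is drawn for every vertex. -/
noncomputable def srwStep : Measure (V → V) := Measure.pi fun x => uniformOn (G.neighborSet x)

/-- First time at which simple random walk from `x` has visited every vertex. -/
noncomputable def srwCover (x : V) (ω : ℕ → V → V) : ℝ≥0∞ :=
  ⨅ (n : ℕ) (_ : ∀ v : V, ∃ i ≤ n, skeleton (fun y (m : V → V) => m y) x ω i = v), (n : ℝ≥0∞)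

/-- Worst-case expected cover time of simple random walk. -/
noncomputable def Tsrw : ℝ≥0∞ :=
  ⨆ x : V, ∫⁻ ω, srwCover x ω ∂(Measure.infinitePi fun _ : ℕ => srwStep G)

end Pool.Agent.MP_6504f0_pr
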