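import Mathlib.Analysis.SpecialFunctions.Trigonometric.DerivHyp
import Mathlib.Combinatorics.SimpleGraph.Finite
import Mathlib.RingTheory.PiTensorProduct
import Pool.Agent.MP_6504f0_pr.Conc
import Pool.Agent.MP_6504f0_pr.Defs

-- ======== part 0: formerly Pool.Agent.MP_6504f0_pr.MMT
section MrgPart0

set_option autoImplicit false
set_option linter.unusedSectionVars false

open MeasureTheory ProbabilityTheory Real
open scoped ENNReal NNReal

namespace Pool.Agent.MP_6504f0_pr

variable {ι : Type*} [Fintype ι] {T : Type*} [DecidableEq T]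
variable {B : LinearMap.BilinForm ℝ (ι → ℝ)} {a : T → ι → ℝ}

lemma PD.sudakov0 (h : PD B) {C : Finset T} (hC : C.Nonempty) {ε D M : ℝ} (hε : 0 < ε)
    (hM : 0 < M) (hsep : ∀ t ∈ C, ∀ t' ∈ C, t ≠ t' → ε ^ 2 ≤ B (a t - a t') (a t - a t'))
    (hD : ∀ t ∈ C, B (a t) (a t) ≤ D ^ 2) (hF : emx B a C ≤ M) :
    (C.card : ℝ) ≤ 4 * exp (16 * M ^ 2 * D ^ 2 / ε ^ 4) := by
  have := h.isProb
  set s : ℝ := 4 * M / ε ^ 2 with hs
  have hs0 : 0 < s := by positivity
  let S : T → Set (ι → ℝ) := fun t => ⋂ t' ∈ C.erase t,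
    {x | s * (B (a t) (a t) - B (a t') (a t')) / 2 < B (a t - a t') x}
  have hS : ∀ t, MeasurableSet (S t) := fun t =>
    Finset.measurableSet_biInter _ fun t' _ =>
      measurableSet_lt measurable_const (continuous_lin B _).measurable
  let I : T → (ι → ℝ) → ℝ := fun t => (S t).indicator 1
  have hIm : ∀ t, Measurable (I t) := fun t => measurable_const.indicator (hS t)
  have hI0 : ∀ t x, 0 ≤ I t x := fun t x => Set.indicator_nonneg (fun _ _ => zero_le_one) x
  have hI1 : ∀ t x, I t x ≤ 1 := fun t x => by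
    simp only [I, Set.indicator]; split_ifs <;> simp
  have hIint : ∀ t, Integrable (I t) (gm B) := fun t => (integrable_const 1).indicator (hS t)
  have hsum : ∀ x, ∑ t ∈ C, I t x ≤ 1 := by
    intro x
    by_cases hx : ∃ t ∈ C, x ∈ S t
    · obtain ⟨t, ht, hxt⟩ := hx
      rw [Finset.sum_eq_single_of_mem t ht]
      · exact hI1 t x
      · intro t' ht' hne
        apply Set.indicator_of_notMem
        intro hxt'
        simp only [S, Set.mem_iInter, Set.mem_ofPred_eq] at hxt hxt'
        have h1 := hxt t' (Finset.mem_erase.2 ⟨hne, ht'⟩)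
        have h2 := hxt' t (Finset.mem_erase.2 ⟨hne.symm, ht⟩)
        simp only [map_sub, LinearMap.sub_apply] at h1 h2
        linarith
    · push Not at hx
      rw [Finset.sum_eq_zero fun t ht => Set.indicator_of_notMem (hx t ht) _]
      exact zero_le_one
  set θ : ℝ := 2 * exp (s ^ 2 * D ^ 2) with hθ
  have hθ0 : 0 < θ := by positivity
  have hlow : ∀ t ∈ C, 1 / (2 * θ) ≤ ∫ x, I t x ∂(gm B) := by
    intro t ht
    have h1 : 1 / 2 ≤ ∫ x, I t (x + s • a t) ∂(gm B) := by
      have hint : Integrable (fun x => mx B a C x - B (a t) x) (gm B) :=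
        (h.integrable_mx hC).sub (h.integrable_lin _)
      have h2 : ∫ x, (1 - 2 / (s * ε ^ 2) * (mx B a C x - B (a t) x)) ∂(gm B)
          ≤ ∫ x, I t (x + s • a t) ∂(gm B) := by
        refine integral_mono ((integrable_const _).sub (hint.const_mul _)) ?_ fun x => ?_
        · refine (integrable_const (1 : ℝ)).mono'
            ((hIm t).comp (by fun_prop)).aestronglyMeasurable
            (Filter.Eventually.of_forall fun x => ?_)
          rw [Real.norm_eq_abs, abs_of_nonneg (hI0 _ _)]; exact hI1 _ _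
        · by_cases hx : x + s • a t ∈ S t
          · have e1 : I t (x + s • a t) = 1 := Set.indicator_of_mem hx _
            have e2 := le_mx (B := B) (a := a) ht x
            have : 0 ≤ 2 / (s * ε ^ 2) * (mx B a C x - B (a t) x) := by
              apply mul_nonneg (by positivity); linarith
            simp only [e1]; linarith
          · have e1 : I t (x + s • a t) = 0 := Set.indicator_of_notMem hx _
            simp only [S, Set.mem_iInter, Set.mem_ofPred_eq, not_forall, not_lt] at hx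
            obtain ⟨t', ht', hle⟩ := hx
            obtain ⟨hne, ht'C⟩ := Finset.mem_erase.1 ht'
            have e2 := le_mx (B := B) (a := a) ht'C x
            have e3 := hsep t ht t' ht'C hne.symm
            simp only [map_sub, map_add, map_smul, LinearMap.sub_apply, smul_eq_mul] at hle e3
            rw [h.symm (a t) (a t')] at e3
            have e4 : s * ε ^ 2 / 2 ≤ mx B a C x - B (a t) x := by nlinarith
            have e5 : 1 ≤ 2 / (s * ε ^ 2) * (mx B a C x - B (a t) x) := by
              calc (1 : ℝ) = 2 / (s * ε ^ 2) * (s * ε ^ 2 / 2) := by field_simp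
                _ ≤ _ := by gcongr
            simp only [e1]; linarith
      rw [integral_sub (integrable_const _) (hint.const_mul _), integral_const_mul,
        integral_sub (h.integrable_mx hC) (h.integrable_lin _), h.integral_lin] at h2
      simp only [integral_const, probReal_univ, one_smul, sub_zero] at h2
      refine le_trans ?_ h2
      have e1 : 2 / (s * ε ^ 2) * emx B a C ≤ 2 / (s * ε ^ 2) * M := by gcongr
      have e2 : 2 / (s * ε ^ 2) * M = 1 / 2 := by rw [hs]; field_simp; norm_num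
      change 1 / 2 ≤ 1 - 2 / (s * ε ^ 2) * emx B a C
      linarith
    rw [h.integral_shift] at h1
    have hW : Integrable (fun x => exp (B ((2 * s) • a t) x) * exp (-(s ^ 2 * B (a t) (a t))) / θ)
        (gm B) := ((h.integrable_exp_lin _).mul_const _).div_const _
    have h3 : ∫ x, I t x * exp (B (s • a t) x - B (s • a t) (s • a t) / 2) ∂(gm B)
        ≤ ∫ x, (θ * I t x + exp (B ((2 * s) • a t) x) * exp (-(s ^ 2 * B (a t) (a t))) / θ) / 2
          ∂(gm B) := by
      refine integral_mono_of_nonneg (Filter.Eventually.of_forall fun x =>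
        mul_nonneg (hI0 _ _) (exp_pos _).le) ((((hIint t).const_mul _).add hW).div_const _)
        (Filter.Eventually.of_forall fun x => ?_)
      set W := exp (B (s • a t) x - B (s • a t) (s • a t) / 2) with hWdef
      have e1 : exp (B ((2 * s) • a t) x) * exp (-(s ^ 2 * B (a t) (a t))) = W ^ 2 := by
        rw [hWdef, ← Real.exp_add, sq (exp _), ← Real.exp_add]
        simp only [map_smul, LinearMap.smul_apply, smul_eq_mul]
        congr 1; ring
      simp only [e1]
      by_cases hx : x ∈ S t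
      · have e2 : I t x = 1 := Set.indicator_of_mem hx _
        rw [e2]
        have : 0 ≤ (θ - W) ^ 2 / θ := by positivity
        have e3 : (θ - W) ^ 2 / θ = θ - 2 * W + W ^ 2 / θ := by field_simp; ring
        linarith
      · have e2 : I t x = 0 := Set.indicator_of_notMem hx _
        rw [e2]
        have : 0 ≤ W ^ 2 / θ := by positivity
        linarith
    rw [integral_div, integral_add ((hIint t).const_mul _) hW, integral_const_mul, integral_div,
      integral_mul_const, h.integral_exp_lin, ← Real.exp_add] at h3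
    have h4 : exp (B ((2 * s) • a t) ((2 * s) • a t) / 2 + -(s ^ 2 * B (a t) (a t))) / θ
        ≤ 1 / 2 := by
      rw [div_le_iff₀ hθ0, hθ]
      have : B ((2 * s) • a t) ((2 * s) • a t) / 2 + -(s ^ 2 * B (a t) (a t)) ≤ s ^ 2 * D ^ 2 := by
        simp only [map_smul, LinearMap.smul_apply, smul_eq_mul]
        have := hD t ht
        have : s ^ 2 * B (a t) (a t) ≤ s ^ 2 * D ^ 2 := by gcongr
        nlinarith
      have := Real.exp_le_exp.2 this
      linarith
    rw [div_le_iff₀ (by positivity)]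
    nlinarith
  have h5 : ∑ t ∈ C, ∫ x, I t x ∂(gm B) ≤ 1 := by
    rw [← integral_finsetSum _ fun t _ => hIint t]
    calc _ ≤ ∫ _x, (1 : ℝ) ∂(gm B) :=
          integral_mono (integrable_finsetSum _ fun t _ => hIint t) (integrable_const _) hsum
      _ = 1 := by simp
  have h6 : (C.card : ℝ) * (1 / (2 * θ)) ≤ 1 := by
    refine le_trans ?_ h5
    rw [← nsmul_eq_mul, ← Finset.sum_const]
    exact Finset.sum_le_sum hlow
  have h7 : s ^ 2 * D ^ 2 = 16 * M ^ 2 * D ^ 2 / ε ^ 4 := by rw [hs]; field_simp; ring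
  rw [mul_one_div, div_le_one (by positivity), hθ, h7] at h6
  linarith

lemma PD.sudakov (h : PD B) {C : Finset T} (hC : C.Nonempty) {ε D : ℝ} (hε : 0 < ε) (hD0 : 0 < D)
    (c : ι → ℝ) (hsep : ∀ t ∈ C, ∀ t' ∈ C, t ≠ t' → ε ≤ bn B (a t - a t'))
    (hD : ∀ t ∈ C, bn B (a t - c) ≤ D) :
    √(log C.card) ≤ 4 * emx B a C * D / ε ^ 2 + 6 := by
  have hF := h.emx_nonneg (a := a) hC
  set M := emx B a C + ε ^ 2 / D with hM
  have hM0 : 0 < M := by positivity
  have h1 := h.sudakov0 (a := fun t => a t - c) hC hε hM0 (D := D) (by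
    intro t ht t' ht' hne
    have := hsep t ht t' ht' hne
    simp only [sub_sub_sub_cancel_right]
    rw [← h.bn_sq]; gcongr) (by
    intro t ht
    rw [← h.bn_sq]
    have := bn_nonneg B (a t - c)
    gcongr; exact hD t ht) (by
    rw [h.emx_sub hC, hM]
    have : 0 < ε ^ 2 / D := by positivity
    linarith)
  have hc : (0 : ℝ) < C.card := by exact_mod_cast hC.card_pos
  have h2 := Real.log_le_log hc h1
  rw [Real.log_mul (by norm_num) (exp_pos _).ne', Real.log_exp] at h2
  have h3 : log 4 ≤ (3 : ℝ) := by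
    have := Real.log_le_sub_one_of_pos (by norm_num : (0 : ℝ) < 4); linarith
  set y := 4 * M * D / ε ^ 2 with hy
  have hy0 : 0 ≤ y := by positivity
  have h4 : 16 * M ^ 2 * D ^ 2 / ε ^ 4 = y ^ 2 := by rw [hy]; field_simp; norm_num
  have h5 : √(log C.card) ≤ y + 2 := by
    apply Real.sqrt_le_iff.2
    refine ⟨by positivity, ?_⟩
    nlinarith
  have h6 : y = 4 * emx B a C * D / ε ^ 2 + 4 := by rw [hy, hM]; field_simp
  linarith

lemma PD.growth (h : PD B) {C U : Finset T} (hC : C.Nonempty) (H : T → Finset T) {δ φ : ℝ}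
    (hδ : 0 < δ) (hH : ∀ t ∈ C, t ∈ H t) (hHU : ∀ t ∈ C, H t ⊆ U)
    (hr : ∀ t ∈ C, ∀ s ∈ H t, bn B (a s - a t) ≤ δ) (hφ : ∀ t ∈ C, φ ≤ emx B a (H t)) :
    emx B a C + φ - (3 * δ * √(log C.card) + δ) ≤ emx B a U := by
  have := h.isProb
  have hU : U.Nonempty := by
    obtain ⟨t, ht⟩ := hC; exact ⟨t, hHU t ht (hH t ht)⟩
  have hc1 : (1 : ℝ) ≤ C.card := by exact_mod_cast hC.card_pos
  have hlog : 0 ≤ log (C.card : ℝ) := Real.log_nonneg hc1
  set r := √(log C.card) with hr'
  have hr0 : 0 ≤ r := Real.sqrt_nonneg _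
  have hr2 : r ^ 2 = log C.card := Real.sq_sqrt hlog
  set l := (r + 1) / (2 * δ) with hl
  have hl0 : 0 < l := by positivity
  set c := log C.card + 2 * l ^ 2 * δ ^ 2 with hc
  let Z : T → (ι → ℝ) → ℝ := fun t x =>
    exp (l * (emx B (fun s => a s - a t) (H t) - mx B (fun s => a s - a t) (H t) x))
  have hZint : ∀ t ∈ C, Integrable (Z t) (gm B) := by
    intro t ht
    have := (h.integrable_exp_mx (a := fun s => a s - a t) ⟨t, hH t ht⟩ (-l)).const_mul
      (exp (l * emx B (fun s => a s - a t) (H t)))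
    refine this.congr (Filter.Eventually.of_forall fun x => ?_)
    simp only [Z]
    rw [← Real.exp_add]; congr 1; ring
  have hZ : ∀ t ∈ C, ∫ x, Z t x ∂(gm B) ≤ exp (2 * l ^ 2 * δ ^ 2) := by
    intro t ht
    refine h.conc ⟨t, hH t ht⟩ (fun s hs => ?_) l hl0.le
    rw [← h.bn_sq]
    have := bn_nonneg B (a s - a t)
    gcongr; exact hr t ht s hs
  have hsumint : Integrable (fun x => ∑ t ∈ C, Z t x) (gm B) := integrable_finsetSum _ hZint
  have hpt : ∀ x, mx B a C x + φ - ((c - 1) + exp (-c) * ∑ t ∈ C, Z t x) / l ≤ mx B a U x := by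
    intro x
    obtain ⟨t, ht, he⟩ := exists_mx (B := B) (a := a) hC x
    have hne : (H t).Nonempty := ⟨t, hH t ht⟩
    have e1 := mx_mono (B := B) (a := a) hne (hHU t ht) x
    have e2 := mx_sub (B := B) (a := a) hne (a t) x
    have e3 := h.emx_sub (a := a) hne (a t)
    have e4 := hφ t ht
    set y := l * (emx B (fun s => a s - a t) (H t) - mx B (fun s => a s - a t) (H t) x) with hy
    have e5 : Z t x ≤ ∑ t ∈ C, Z t x :=
      Finset.single_le_sum (f := fun t => Z t x) (fun _ _ => (exp_pos _).le) ht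
    have e6 : y ≤ (c - 1) + exp (-c) * ∑ t ∈ C, Z t x := by
      have := Real.add_one_le_exp (y - c)
      have e7 : exp (y - c) = exp (-c) * Z t x := by
        simp only [Z]; rw [← Real.exp_add]; congr 1; ring
      have : exp (-c) * Z t x ≤ exp (-c) * ∑ t ∈ C, Z t x := by gcongr
      linarith
    have e8 : emx B (fun s => a s - a t) (H t) - mx B (fun s => a s - a t) (H t) x
        ≤ ((c - 1) + exp (-c) * ∑ t ∈ C, Z t x) / l := by
      rw [le_div_iff₀ hl0, mul_comm]; exact e6
    linarith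
  have hint2 : Integrable (fun x => ((c - 1) + exp (-c) * ∑ t ∈ C, Z t x) / l) (gm B) :=
    ((integrable_const _).add (hsumint.const_mul _)).div_const _
  have hint1 : Integrable (fun x => mx B a C x + φ) (gm B) :=
    (h.integrable_mx hC).add (integrable_const _)
  have h1 := integral_mono (hint1.sub hint2) (h.integrable_mx hU) hpt
  simp only [Pi.sub_apply] at h1
  rw [integral_sub hint1 hint2, integral_add (h.integrable_mx hC) (integrable_const _),
    integral_div, integral_add (integrable_const _) (hsumint.const_mul _), integral_const_mul,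
    integral_finsetSum _ hZint] at h1
  simp only [integral_const, probReal_univ, one_smul] at h1
  have h2 : exp (-c) * ∑ t ∈ C, ∫ x, Z t x ∂(gm B) ≤ 1 := by
    calc _ ≤ exp (-c) * ∑ _t ∈ C, exp (2 * l ^ 2 * δ ^ 2) := by
          gcongr with t ht; exact hZ t ht
      _ = 1 := by
          rw [Finset.sum_const, nsmul_eq_mul, hc, neg_add, Real.exp_add, Real.exp_neg,
            Real.exp_neg, Real.exp_log (by positivity)]
          field_simp
  have h3 : (c - 1 + exp (-c) * ∑ t ∈ C, ∫ x, Z t x ∂(gm B)) / l ≤ 3 * δ * r + δ := by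
    rw [div_le_iff₀ hl0]
    have e1 : (3 * δ * r + δ) * l = (3 * r + 1) * (r + 1) / 2 := by rw [hl]; field_simp
    have e2 : c = r ^ 2 + (r + 1) ^ 2 / 2 := by rw [hc, hr2, hl]; field_simp
    nlinarith
  change emx B a C + φ - _ ≤ emx B a U at h1
  linarith

lemma exists_net (d : T → T → ℝ) (hsymm : ∀ x y, d x y = d y x) {ρ : ℝ} (hrefl : ∀ x, d x x ≤ ρ)
    (pr : T → ℝ) (s : Finset T) :
    ∃ N : Finset T, N ⊆ s ∧ (∀ t ∈ N, ∀ t' ∈ N, t ≠ t' → ρ < d t t') ∧
      ∀ x ∈ s, ∃ t ∈ N, d t x ≤ ρ ∧ pr x ≤ pr t := by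
  induction s using Finset.induction_on_min_value pr with
  | empty => exact ⟨∅, by simp⟩
  | insert x s hx hmin ih =>
    obtain ⟨N, hN, hsep, hcov⟩ := ih
    by_cases hex : ∃ t ∈ N, d t x ≤ ρ
    · obtain ⟨t, ht, hd⟩ := hex
      refine ⟨N, hN.trans (Finset.subset_insert _ _), hsep, fun y hy => ?_⟩
      rcases Finset.mem_insert.1 hy with rfl | hy
      · exact ⟨t, ht, hd, hmin t (hN ht)⟩
      · exact hcov y hy
    · push Not at hex
      refine ⟨insert x N, Finset.insert_subset_insert _ hN, ?_, fun y hy => ?_⟩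
      · intro t ht t' ht' hne
        rcases Finset.mem_insert.1 ht with e | ht
        · rcases Finset.mem_insert.1 ht' with e' | ht'
          · exact absurd (e.trans e'.symm) hne
          · rw [e, hsymm]; exact hex t' ht'
        · rcases Finset.mem_insert.1 ht' with e' | ht'
          · rw [e']; exact hex t ht
          · exact hsep t ht t' ht' hne
      · rcases Finset.mem_insert.1 hy with rfl | hy
        · exact ⟨y, Finset.mem_insert_self _ _, hrefl y, le_rfl⟩
        · obtain ⟨t, ht, h1⟩ := hcov y hy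
          exact ⟨t, Finset.mem_insert_of_mem ht, h1⟩

lemma sum_inv_rank_sq (pr : T → ℝ) (s : Finset T) :
    ∑ v ∈ s, 1 / ((s.filter (fun t => pr v ≤ pr t)).card : ℝ) ^ 2 ≤ 2 - 2 / ((s.card : ℝ) + 1) := by
  induction s using Finset.induction_on_min_value pr with
  | empty => simp
  | insert x s hx hmin ih =>
    rw [Finset.sum_insert hx, Finset.card_insert_of_notMem hx]
    have e1 : (insert x s).filter (fun t => pr x ≤ pr t) = insert x s := by
      apply Finset.filter_true_of_mem
      intro t ht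
      rcases Finset.mem_insert.1 ht with rfl | ht
      · exact le_rfl
      · exact hmin t ht
    rw [e1, Finset.card_insert_of_notMem hx]
    have e2 : ∑ v ∈ s, 1 / (((insert x s).filter (fun t => pr v ≤ pr t)).card : ℝ) ^ 2
        ≤ ∑ v ∈ s, 1 / ((s.filter (fun t => pr v ≤ pr t)).card : ℝ) ^ 2 := by
      refine Finset.sum_le_sum fun v hv => ?_
      have : 0 < (s.filter (fun t => pr v ≤ pr t)).card :=
        Finset.card_pos.2 ⟨v, Finset.mem_filter.2 ⟨hv, le_rfl⟩⟩
      gcongr
      exact Finset.subset_insert _ _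
    have hn : (0 : ℝ) ≤ s.card := Nat.cast_nonneg _
    have e3 : 1 / ((s.card : ℝ) + 1) ^ 2 ≤ 2 / ((s.card : ℝ) + 1) - 2 / ((s.card : ℝ) + 1 + 1) := by
      rw [div_sub_div _ _ (by positivity) (by positivity), div_le_div_iff₀ (by positivity)
        (by positivity)]
      nlinarith
    push_cast
    linarith

/-- A chaining scheme with top scale `D` and total cost `Γ`. -/
def Chainable (d : T → T → ℝ) (root : T) (D Γ : ℝ) : Prop :=
  ∃ (K : ℕ) (pj : ℕ → T → T) (cand : ℕ → T → Finset T) (b : ℕ → T → T → ℝ),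
    (∀ x, pj 0 x = root) ∧ (∀ x, pj K x = x) ∧ (∀ k x, pj (k + 1) x ∈ cand k (pj k x)) ∧
    (∀ k u v, v ∈ cand k u → d u v ≤ D / 64 ^ k) ∧ (∀ k u v, 0 ≤ b k u v) ∧
    (∀ k u, ∑ v ∈ cand k u, exp (-(b k u v) ^ 2) ≤ 1 / 2) ∧
    (∀ x, ∑ k ∈ Finset.range K, D / 64 ^ k * b k (pj k x) (pj (k + 1) x) ≤ Γ)

/-- The majorizing measure theorem, in the form we need. -/
theorem PD.chainable [Fintype T] (h : PD B) (ha : Function.Injective a) (root : T) {D : ℝ}
    (hD0 : 0 < D) (hD : ∀ x y, bn B (a x - a y) ≤ D) :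
    Chainable (fun x y => bn B (a x - a y)) root (2 * D)
      (1000000 * (emx B a Finset.univ + D)) := by
  classical
  set d : T → T → ℝ := fun x y => bn B (a x - a y) with hd
  have hsymm : ∀ x y, d x y = d y x := fun x y => by
    simp only [hd]; rw [← bn_neg, neg_sub]
  have hrefl : ∀ x, d x x = 0 := fun x => by simp [hd, bn_zero]
  have htri : ∀ x y z, d x z ≤ d x y + d y z := fun x y z => by
    have := h.bn_add_le (a x - a y) (a y - a z)
    simpa [hd] using this
  let ρ : ℕ → ℝ := fun k => D / 64 ^ k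
  have hρ : ∀ k, 0 < ρ k := fun k => by positivity
  have hρs : ∀ k, ρ (k + 1) = ρ k / 64 := fun k => by simp only [ρ]; field_simp; ring
  let ball : T → ℝ → Finset T := fun x r => Finset.univ.filter (fun y => d y x ≤ r)
  have hball : ∀ x r, 0 ≤ r → x ∈ ball x r := fun x r hr => by simp [ball, hrefl, hr]
  let pr : ℕ → T → ℝ := fun k t => emx B a (ball t (ρ (k + 2)))
  choose N _ hsep hcov using fun k => exists_net d hsymm (ρ := ρ k)
    (fun x => by rw [hrefl]; exact (hρ k).le) (pr k) Finset.univ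
  choose p hpN hpd hppr using fun k x => hcov k x (Finset.mem_univ x)
  let pj : ℕ → T → T := fun k x => if k = 0 then root else p k x
  have hpid : ∀ k x, d (pj k x) x ≤ ρ k := by
    intro k x
    by_cases hk : k = 0
    · subst hk; simpa [pj, ρ] using hD root x
    · simpa [pj, hk] using hpd k x
  have hpis : ∀ k x, pj (k + 1) x = p (k + 1) x := fun k x => by simp [pj]
  let cand : ℕ → T → Finset T := fun k u => (N (k + 1)).filter (fun v => d u v ≤ 2 * ρ k)
  let rk : ℕ → T → T → Finset T := fun k u v =>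
    (cand k u).filter (fun t => pr (k + 1) v ≤ pr (k + 1) t)
  let b : ℕ → T → T → ℝ := fun k u v => √(log (4 * ((rk k u v).card : ℝ) ^ 2))
  obtain ⟨K, hK⟩ : ∃ K, ∀ x y, x ≠ y → ρ K < d x y := by
    have hlim : Filter.Tendsto ρ Filter.atTop (nhds 0) :=
      tendsto_const_nhds.div_atTop (tendsto_pow_atTop_atTop_of_one_lt (by norm_num))
    have : ∀ᶠ K in Filter.atTop, ∀ x y, x ≠ y → ρ K < d x y := by
      refine Filter.eventually_all.2 fun x => Filter.eventually_all.2 fun y => ?_
      by_cases hxy : x = y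
      · simp [hxy]
      · have : 0 < d x y := h.bn_pos (sub_ne_zero.2 (ha.ne hxy))
        filter_upwards [hlim.eventually (gt_mem_nhds this)] with K hK _ using hK
    exact this.exists
  have hmem : ∀ k x, pj (k + 1) x ∈ cand k (pj k x) := by
    intro k x
    refine Finset.mem_filter.2 ⟨by rw [hpis]; exact hpN _ _, ?_⟩
    have e1 := htri (pj k x) x (pj (k + 1) x)
    have e2 := hpid k x
    have e3 := hpid (k + 1) x
    rw [hsymm] at e3
    have := hρs k
    have := hρ k
    linarith
  refine ⟨K, pj, cand, b, fun x => by simp [pj], fun x => ?_, hmem, fun k u v hv => ?_,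
    fun k u v => Real.sqrt_nonneg _, fun k u => ?_, fun x => ?_⟩
  · by_contra hne
    exact absurd (hpid K x) (not_le.2 (hK _ _ hne))
  · have := (Finset.mem_filter.1 hv).2
    simp only [ρ] at this
    rw [mul_div_assoc]; exact this
  · have e1 := sum_inv_rank_sq (pr (k + 1)) (cand k u)
    have e2 : ∑ v ∈ cand k u, exp (-(b k u v) ^ 2)
        = ∑ v ∈ cand k u, (1 / 4) * (1 / ((rk k u v).card : ℝ) ^ 2) := by
      refine Finset.sum_congr rfl fun v hv => ?_
      have : (1 : ℝ) ≤ (rk k u v).card := by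
        have hv' : v ∈ rk k u v := Finset.mem_filter.2 ⟨hv, le_rfl⟩
        exact_mod_cast Finset.card_pos.2 ⟨v, hv'⟩
      simp only [b]
      rw [Real.sq_sqrt (Real.log_nonneg (by nlinarith)), Real.exp_neg,
        Real.exp_log (by positivity)]
      field_simp
    rw [e2, ← Finset.mul_sum]
    have : 0 ≤ 2 / (((cand k u).card : ℝ) + 1) := by positivity
    simp only [rk]
    linarith
  · let φ : ℕ → ℝ := fun j => emx B a (ball x (64 * ρ j))
    have hφ0 : ∀ j, 0 ≤ φ j := fun j => h.emx_nonneg ⟨x, hball x _ (by have := hρ j; positivity)⟩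
    have hφ1 : ∀ j, φ j ≤ emx B a Finset.univ := fun j =>
      h.emx_mono ⟨x, hball x _ (by have := hρ j; positivity)⟩ (Finset.subset_univ _)
    have hstep : ∀ k, 2 * D / 64 ^ k * b k (pj k x) (pj (k + 1) x)
        ≤ 209920 * (φ k - φ (k + 4)) + 44 * ρ k := by
      intro k
      set u := pj k x with hu
      set v := pj (k + 1) x with hv
      set C := rk k u v with hC
      have hCne : C.Nonempty := ⟨v, Finset.mem_filter.2 ⟨hmem k x, le_rfl⟩⟩
      have hCN : ∀ t ∈ C, t ∈ N (k + 1) ∧ d u t ≤ 2 * ρ k ∧ pr (k + 1) v ≤ pr (k + 1) t := by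
        intro t ht
        obtain ⟨h1, h2⟩ := Finset.mem_filter.1 ht
        obtain ⟨h3, h4⟩ := Finset.mem_filter.1 h1
        exact ⟨h3, h4, h2⟩
      have r1 := hρs k
      have r2 := hρs (k + 1)
      have r3 := hρs (k + 2)
      have r4 := hρs (k + 3)
      have r0 := hρ k
      have s1 := h.sudakov (a := a) hCne (hρ (k + 1)) (D := 2 * ρ k) (by positivity) (a u)
        (fun t ht t' ht' hne => (hsep (k + 1) t (hCN t ht).1 t' (hCN t' ht').1 hne).le)
        (fun t ht => by have := (hCN t ht).2.1; rw [hsymm] at this; exact this)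
      have s2 := h.growth (a := a) (U := ball x (64 * ρ k)) hCne (fun t => ball t (ρ (k + 3)))
        (φ := φ (k + 4)) (hρ (k + 3)) (fun t _ => hball t _ (hρ _).le)
        (fun t ht s hs => by
          have e1 : d s t ≤ ρ (k + 3) := (Finset.mem_filter.1 hs).2
          have e2 := (hCN t ht).2.1
          rw [hsymm] at e2
          have e3 : d u x ≤ ρ k := hpid k x
          have e4 := htri s t x
          have e5 := htri t u x
          refine Finset.mem_filter.2 ⟨Finset.mem_univ _, ?_⟩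
          simp only [show k + 2 + 1 = k + 3 from rfl, show k + 1 + 1 = k + 2 from rfl] at r2 r3
          linarith)
        (fun t _ s hs => (Finset.mem_filter.1 hs).2)
        (fun t ht => by
          have e1 := (hCN t ht).2.2
          have e2 := hppr (k + 1) x
          rw [← hpis] at e2
          have e3 : φ (k + 4) = pr (k + 1) x := by
            simp only [φ, pr]
            congr 2
            simp only [show k + 3 + 1 = k + 4 from rfl] at r4
            rw [r4]; ring
          rw [e3]; exact e2.trans e1)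
      have hc1 : (1 : ℝ) ≤ C.card := by exact_mod_cast hCne.card_pos
      have hlog : 0 ≤ log (C.card : ℝ) := Real.log_nonneg hc1
      set r := √(log C.card) with hr
      have hr0 : 0 ≤ r := Real.sqrt_nonneg _
      have hr2 : r ^ 2 = log C.card := Real.sq_sqrt hlog
      have hb : b k u v ≤ 2 + 2 * r := by
        apply Real.sqrt_le_iff.2
        refine ⟨by positivity, ?_⟩
        rw [Real.log_mul (by norm_num) (by positivity), Real.log_pow]
        have h3 : log 4 ≤ (3 : ℝ) := by
          have := Real.log_le_sub_one_of_pos (by norm_num : (0 : ℝ) < 4); linarith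
        change log 4 + (2 : ℕ) * log (C.card : ℝ) ≤ _
        push_cast
        nlinarith
      have e1 : 4 * emx B a C * (2 * ρ k) / ρ (k + 1) ^ 2 = 32768 * emx B a C / ρ k := by
        rw [r1]; field_simp; ring
      rw [e1] at s1
      have e2 : ρ k * r ≤ 32768 * emx B a C + 6 * ρ k := by
        calc ρ k * r ≤ ρ k * (32768 * emx B a C / ρ k + 6) := by gcongr
          _ = _ := by field_simp
      have e3 : ρ (k + 3) = ρ k / 262144 := by
        simp only [show k + 2 + 1 = k + 3 from rfl, show k + 1 + 1 = k + 2 from rfl] at r2 r3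
        rw [r3, r2, r1]; ring
      rw [e3] at s2
      change emx B a C + φ (k + 4) - _ ≤ φ k at s2
      have e4 : 2 * D / 64 ^ k * b k u v ≤ 2 * ρ k * (2 + 2 * r) := by
        have : 2 * D / 64 ^ k = 2 * ρ k := by simp only [ρ]; ring
        rw [this]; gcongr
      nlinarith
    have htel : ∀ K, ∑ k ∈ Finset.range K, (φ k - φ (k + 4))
        = φ 0 + φ 1 + φ 2 + φ 3 - (φ K + φ (K + 1) + φ (K + 2) + φ (K + 3)) := by
      intro K
      induction K with
      | zero => simp
      | succ K ih => rw [Finset.sum_range_succ, ih]; ring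
    have hgeo : ∀ K, ∑ k ∈ Finset.range K, ρ k ≤ 2 * D - 2 * ρ K := by
      intro K
      induction K with
      | zero => simp [ρ]
      | succ K ih => rw [Finset.sum_range_succ, hρs]; have := hρ K; linarith
    calc _ ≤ ∑ k ∈ Finset.range K, (209920 * (φ k - φ (k + 4)) + 44 * ρ k) :=
          Finset.sum_le_sum fun k _ => hstep k
      _ = 209920 * ∑ k ∈ Finset.range K, (φ k - φ (k + 4))
          + 44 * ∑ k ∈ Finset.range K, ρ k := by
          rw [Finset.sum_add_distrib, Finset.mul_sum, Finset.mul_sum]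
      _ ≤ _ := by
          rw [htel]
          have := hgeo K
          have := hρ K
          linarith [hφ0 K, hφ0 (K + 1), hφ0 (K + 2), hφ0 (K + 3), hφ1 0, hφ1 1, hφ1 2, hφ1 3,
            hφ0 0]

end Pool.Agent.MP_6504f0_pr

end MrgPart0

-- ======== part 1: formerly Pool.Agent.MP_6504f0_pr.Chain
section MrgPart1

set_option autoImplicit false
set_option linter.unusedSectionVars false

open Real

namespace Pool.Agent.MP_6504f0_pr

variable {T : Type*} [DecidableEq T] {Ω : Type*}

/-- A monotone subadditive set function. -/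
structure SubAdd (Pr : Set Ω → ℝ) : Prop where
  mono : ∀ A B, A ⊆ B → Pr A ≤ Pr B
  union : ∀ A B, Pr (A ∪ B) ≤ Pr A + Pr B
  empty : Pr ∅ ≤ 0

lemma SubAdd.biUnion {Pr : Set Ω → ℝ} (h : SubAdd Pr) (s : Finset T) (A : T → Set Ω) :
    Pr (⋃ v ∈ s, A v) ≤ ∑ v ∈ s, Pr (A v) := by
  induction s using Finset.induction_on with
  | empty => simpa using h.empty
  | insert x s hx ih =>
    rw [Finset.set_biUnion_insert, Finset.sum_insert hx]
    exact (h.union _ _).trans (by linarith)

theorem chain_bound {Pr : Set Ω → ℝ} (h : SubAdd Pr) {d : T → T → ℝ} {root : T} {D Γ : ℝ}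
    (hch : Chainable d root D Γ) (hD : 0 < D) (ξ : T → Ω → ℝ) {c : ℝ} (hc : 0 ≤ c)
    (hpair : ∀ u v (ρ a s : ℝ), 0 < ρ → d u v ≤ ρ → 0 ≤ s →
      Pr {ω | a ≤ ξ u ω ∧ ξ v ω < a - c * ρ * s} ≤ exp (-s ^ 2))
    (a s : ℝ) (hs : 0 ≤ s) :
    Pr {ω | a ≤ ξ root ω ∧ ∃ x, ξ x ω < a - c * (2 * D * s + 2 * Γ)} ≤ exp (-s ^ 2) := by
  obtain ⟨K, pj, cand, b, h0, hK, hmem, hd, hb0, hbs, hΓ⟩ := hch
  have key : ∀ m k u a s, 0 ≤ s → Pr {ω | a ≤ ξ u ω ∧ ∃ x, pj k x = u ∧ ξ (pj (k + m) x) ω <
      a - c * (2 * (D / 64 ^ k) * s + 2 * ∑ j ∈ Finset.range m,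
        D / 64 ^ (k + j) * b (k + j) (pj (k + j) x) (pj (k + j + 1) x))} ≤ exp (-s ^ 2) := by
    intro m
    induction m with
    | zero =>
      intro k u a s hs
      refine le_trans (h.mono _ ∅ ?_) (h.empty.trans (exp_pos _).le)
      rintro ω ⟨h1, x, hx, h2⟩
      simp only [add_zero, hx, Finset.range_zero, Finset.sum_empty, mul_zero] at h2
      have : 0 ≤ c * (2 * (D / 64 ^ k) * s) := by positivity
      exact absurd h1 (by linarith)
    | succ m ih =>
      intro k u a s hs
      set ρ := D / 64 ^ k with hρ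
      have hρ0 : 0 < ρ := by positivity
      let E1 : T → Set Ω := fun v => {ω | a ≤ ξ u ω ∧ ξ v ω < a - c * ρ * (s + b k u v)}
      let E2 : T → Set Ω := fun v => {ω | a - c * ρ * (s + b k u v) ≤ ξ v ω ∧ ∃ x,
        pj (k + 1) x = v ∧ ξ (pj (k + 1 + m) x) ω < (a - c * ρ * (s + b k u v)) -
          c * (2 * (D / 64 ^ (k + 1)) * (s + b k u v) + 2 * ∑ j ∈ Finset.range m,
            D / 64 ^ (k + 1 + j) * b (k + 1 + j) (pj (k + 1 + j) x) (pj (k + 1 + j + 1) x))}
      refine le_trans (h.mono _ (⋃ v ∈ cand k u, E1 v ∪ E2 v) ?_) ?_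
      · rintro ω ⟨h1, x, hx, h2⟩
        simp only [Set.mem_iUnion]
        refine ⟨pj (k + 1) x, hx ▸ hmem k x, ?_⟩
        by_cases h3 : ξ (pj (k + 1) x) ω < a - c * ρ * (s + b k u (pj (k + 1) x))
        · exact Or.inl ⟨h1, h3⟩
        · refine Or.inr ⟨not_lt.1 h3, x, rfl, ?_⟩
          rw [Finset.sum_range_succ'] at h2
          have e1 : k + (m + 1) = k + 1 + m := by ring
          have e2 : ∑ j ∈ Finset.range m, D / 64 ^ (k + (j + 1)) * b (k + (j + 1))
              (pj (k + (j + 1)) x) (pj (k + (j + 1) + 1) x) = ∑ j ∈ Finset.range m,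
              D / 64 ^ (k + 1 + j) * b (k + 1 + j) (pj (k + 1 + j) x) (pj (k + 1 + j + 1) x) :=
            Finset.sum_congr rfl fun j _ => by rw [show k + (j + 1) = k + 1 + j by ring]
          rw [e1, e2] at h2
          simp only [add_zero, hx] at h2
          refine lt_of_lt_of_le h2 ?_
          have e3 : D / 64 ^ (k + 1) = ρ / 64 := by rw [hρ]; field_simp; ring
          rw [e3, ← hρ]
          have := hb0 k u (pj (k + 1) x)
          have : 0 ≤ c * (ρ * (s + b k u (pj (k + 1) x))) := by positivity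
          nlinarith
      · refine (h.biUnion _ _).trans ?_
        calc ∑ v ∈ cand k u, Pr (E1 v ∪ E2 v)
            ≤ ∑ v ∈ cand k u, 2 * exp (-s ^ 2) * exp (-(b k u v) ^ 2) := by
              refine Finset.sum_le_sum fun v hv => ?_
              have hsv : 0 ≤ s + b k u v := add_nonneg hs (hb0 _ _ _)
              have e1 := hpair u v ρ a (s + b k u v) hρ0 (hd k u v hv) hsv
              have e2 := ih (k + 1) v (a - c * ρ * (s + b k u v)) (s + b k u v) hsv
              have e3 : exp (-(s + b k u v) ^ 2) ≤ exp (-s ^ 2) * exp (-(b k u v) ^ 2) := by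
                rw [← Real.exp_add]
                apply Real.exp_le_exp.2
                have := mul_nonneg hs (hb0 k u v)
                nlinarith
              have := h.union (E1 v) (E2 v)
              change Pr (E1 v) ≤ _ at e1
              change Pr (E2 v) ≤ _ at e2
              linarith
          _ = 2 * exp (-s ^ 2) * ∑ v ∈ cand k u, exp (-(b k u v) ^ 2) := by rw [Finset.mul_sum]
          _ ≤ 2 * exp (-s ^ 2) * (1 / 2) := by gcongr; exact hbs k u
          _ = _ := by ring
  refine le_trans (h.mono _ _ ?_) (key K 0 root a s hs)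
  rintro ω ⟨h1, x, h2⟩
  refine ⟨h1, x, h0 x, ?_⟩
  simp only [zero_add, hK, pow_zero, div_one]
  refine lt_of_lt_of_le h2 ?_
  have := hΓ x
  have : c * (2 * D * s + 2 * ∑ j ∈ Finset.range K, D / 64 ^ j * b j (pj j x) (pj (j + 1) x))
      ≤ c * (2 * D * s + 2 * Γ) := by gcongr
  linarith

end Pool.Agent.MP_6504f0_pr

end MrgPart1

-- ======== part 2: formerly Pool.Agent.MP_6504f0_pr.Finite
section MrgPart2

set_option autoImplicit false
set_option linter.unusedSectionVars false

open Real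

namespace Pool.Agent.MP_6504f0_pr

variable {M : Type*} [Fintype M]

/-- Expectation over `n` independent marks with law `q`. -/
noncomputable def EL (q : M → ℝ) : ℕ → (List M → ℝ) → ℝ
  | 0, F => F []
  | n + 1, F => ∑ m, q m * EL q n (fun l => F (m :: l))

/-- `q` is a probability vector. -/
structure IsPV (q : M → ℝ) : Prop where
  nonneg : ∀ m, 0 ≤ q m
  sum : ∑ m, q m = 1

variable {q : M → ℝ}

lemma IsPV.EL_mono (hq : IsPV q) (n : ℕ) {F G : List M → ℝ}
    (h : ∀ l, l.length = n → F l ≤ G l) : EL q n F ≤ EL q n G := by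
  induction n generalizing F G with
  | zero => exact h [] rfl
  | succ n ih =>
    refine Finset.sum_le_sum fun m _ => mul_le_mul_of_nonneg_left (ih fun l hl => ?_) (hq.nonneg m)
    exact h _ (by simp [hl])

lemma IsPV.EL_const (hq : IsPV q) (n : ℕ) (c : ℝ) : EL q n (fun _ => c) = c := by
  induction n with
  | zero => rfl
  | succ n ih => simp only [EL, ih]; rw [← Finset.sum_mul, hq.sum, one_mul]

lemma EL_add (n : ℕ) (F G : List M → ℝ) :
    EL q n (fun l => F l + G l) = EL q n F + EL q n G := by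
  induction n generalizing F G with
  | zero => rfl
  | succ n ih => simp only [EL, ih, mul_add, Finset.sum_add_distrib]

lemma EL_const_mul (n : ℕ) (c : ℝ) (F : List M → ℝ) :
    EL q n (fun l => c * F l) = c * EL q n F := by
  induction n generalizing F with
  | zero => rfl
  | succ n ih =>
    simp only [EL, ih, Finset.mul_sum]
    exact Finset.sum_congr rfl fun m _ => by ring

lemma EL_append (a b : ℕ) (F : List M → ℝ) :
    EL q (a + b) F = EL q a (fun l => EL q b (fun l' => F (l ++ l'))) := by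
  induction a generalizing F with
  | zero => simp [EL]
  | succ a ih => rw [Nat.succ_add]; simp only [EL, ih, List.cons_append]

lemma IsPV.EL_nonneg (hq : IsPV q) (n : ℕ) {F : List M → ℝ} (h : ∀ l, 0 ≤ F l) :
    0 ≤ EL q n F := by
  rw [← hq.EL_const n 0]; exact hq.EL_mono n fun l _ => h l

variable {Z : Type*} (φ : Z → M → Z)

/-- State after reading a list of marks. -/
def run (z : Z) (l : List M) : Z := l.foldl φ z

/-- Transition operator. -/
noncomputable def Pop (q : M → ℝ) (φ : Z → M → Z) (f : Z → ℝ) (z : Z) : ℝ := ∑ m, q m * f (φ z m)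

lemma EL_run (n : ℕ) (f : Z → ℝ) (z : Z) :
    EL q n (fun l => f (run φ z l)) = (Pop q φ)^[n] f z := by
  induction n generalizing z with
  | zero => rfl
  | succ n ih =>
    rw [Function.iterate_succ_apply']
    simp only [EL, Pop]
    refine Finset.sum_congr rfl fun m _ => ?_
    rw [← ih]; rfl

variable {V : Type*} (pos : Z → V)

/-- Set of positions visited. -/
def vis : Z → List M → Set V
  | z, [] => {pos z}
  | z, m :: l => insert (pos z) (vis (φ z m) l)

lemma pos_mem_vis (z : Z) (l : List M) : pos z ∈ vis φ pos z l := by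
  cases l <;> simp [vis]

lemma vis_append (z : Z) (l l' : List M) :
    vis φ pos z (l ++ l') = vis φ pos z l ∪ vis φ pos (run φ z l) l' := by
  induction l generalizing z with
  | nil =>
    simp only [List.nil_append, vis, run, List.foldl_nil]
    exact (Set.union_eq_self_of_subset_left (by simpa using pos_mem_vis φ pos z l')).symm
  | cons m l ih =>
    simp only [List.cons_append, vis, ih, Set.insert_union]
    rfl

open Classical in
/-- Indicator of not having covered. -/
noncomputable def ncI (z : Z) (l : List M) : ℝ := if vis φ pos z l = Set.univ then 0 else 1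

/-- Probability of not having covered after `n` steps. -/
noncomputable def nc (q : M → ℝ) (φ : Z → M → Z) (pos : Z → V) (n : ℕ) (z : Z) : ℝ :=
  EL q n (ncI φ pos z)

lemma ncI_nonneg (z : Z) (l : List M) : 0 ≤ ncI φ pos z l := by
  unfold ncI; split_ifs <;> simp

lemma ncI_le_one (z : Z) (l : List M) : ncI φ pos z l ≤ 1 := by
  unfold ncI; split_ifs <;> simp

lemma ncI_append (z : Z) (l l' : List M) :
    ncI φ pos z (l ++ l') ≤ ncI φ pos z l * ncI φ pos (run φ z l) l' := by
  unfold ncI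
  rw [vis_append]
  by_cases h1 : vis φ pos z l = Set.univ
  · simp [h1]
  by_cases h2 : vis φ pos (run φ z l) l' = Set.univ
  · simp [h2]
  simp only [h1, h2, if_false]
  split_ifs <;> simp

lemma IsPV.nc_nonneg (hq : IsPV q) (n : ℕ) (z : Z) : 0 ≤ nc q φ pos n z :=
  hq.EL_nonneg n (ncI_nonneg φ pos z)

lemma IsPV.nc_le_one (hq : IsPV q) (n : ℕ) (z : Z) : nc q φ pos n z ≤ 1 := by
  rw [← hq.EL_const n 1]; exact hq.EL_mono n fun l _ => ncI_le_one φ pos z l

lemma IsPV.nc_add_le (hq : IsPV q) (a b : ℕ) (z : Z) :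
    nc q φ pos (a + b) z ≤ EL q a (fun l => ncI φ pos z l * nc q φ pos b (run φ z l)) := by
  rw [nc, EL_append]
  refine hq.EL_mono a fun l _ => ?_
  rw [nc, ← EL_const_mul]
  exact hq.EL_mono b fun l' _ => ncI_append φ pos z l l'

lemma IsPV.nc_add_le_Pop (hq : IsPV q) (a b : ℕ) (z : Z) :
    nc q φ pos (a + b) z ≤ (Pop q φ)^[a] (nc q φ pos b) z := by
  refine (hq.nc_add_le φ pos a b z).trans ?_
  rw [← EL_run]
  refine hq.EL_mono a fun l _ => ?_
  have := hq.nc_nonneg φ pos b (run φ z l)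
  have := ncI_le_one φ pos z l
  nlinarith

lemma IsPV.nc_add_le_mul (hq : IsPV q) (a b : ℕ) (z : Z) {c : ℝ}
    (hc : ∀ z', nc q φ pos b z' ≤ c) : nc q φ pos (a + b) z ≤ c * nc q φ pos a z := by
  refine (hq.nc_add_le φ pos a b z).trans ?_
  rw [nc, ← EL_const_mul]
  refine hq.EL_mono a fun l _ => ?_
  have := hc (run φ z l)
  have := ncI_nonneg φ pos z l
  nlinarith

lemma IsPV.nc_anti (hq : IsPV q) {a b : ℕ} (hab : a ≤ b) (z : Z) :
    nc q φ pos b z ≤ nc q φ pos a z := by
  obtain ⟨c, rfl⟩ := Nat.exists_eq_add_of_le hab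
  simpa using hq.nc_add_le_mul φ pos a c z (hq.nc_le_one φ pos c)

lemma IsPV.sum_nc_le (hq : IsPV q) {n : ℕ} (h : ∀ z, nc q φ pos n z ≤ 1 / 2) (N : ℕ) (z : Z) :
    ∑ i ∈ Finset.range N, nc q φ pos i z ≤ 2 * n := by
  have h1 : ∑ i ∈ Finset.range N, nc q φ pos i z ≤ ∑ i ∈ Finset.range (n + N), nc q φ pos i z :=
    Finset.sum_le_sum_of_subset_of_nonneg (Finset.range_mono (by omega))
      fun i _ _ => hq.nc_nonneg φ pos i z
  rw [Finset.sum_range_add] at h1
  have h2 : ∑ i ∈ Finset.range n, nc q φ pos i z ≤ n := by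
    calc _ ≤ ∑ _i ∈ Finset.range n, (1 : ℝ) := Finset.sum_le_sum fun i _ => hq.nc_le_one φ pos i z
      _ = n := by simp
  have h3 : ∑ i ∈ Finset.range N, nc q φ pos (n + i) z
      ≤ 1 / 2 * ∑ i ∈ Finset.range N, nc q φ pos i z := by
    rw [Finset.mul_sum]
    refine Finset.sum_le_sum fun i _ => ?_
    rw [add_comm]; exact hq.nc_add_le_mul φ pos i n z h
  linarith

lemma IsPV.Pop_mono (hq : IsPV q) {f g : Z → ℝ} (h : ∀ z, f z ≤ g z) (n : ℕ) (z : Z) :
    (Pop q φ)^[n] f z ≤ (Pop q φ)^[n] g z := by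
  rw [← EL_run, ← EL_run]; exact hq.EL_mono n fun l _ => h _

lemma IsPV.Pop_const (hq : IsPV q) (c : ℝ) (n : ℕ) (z : Z) :
    (Pop q φ)^[n] (fun _ => c) z = c := by
  rw [← EL_run]; exact hq.EL_const n c

/-- Symmetrised additive functional. -/
noncomputable def addF (W : Z → ℝ) : Z → List M → ℝ
  | _, [] => 0
  | z, m :: l => (W z + W (φ z m)) / 2 + addF W (φ z m) l

lemma addF_lin (W W' : Z → ℝ) (s t : ℝ) (z : Z) (l : List M) :
    addF φ (fun y => s * W y + t * W' y) z l = s * addF φ W z l + t * addF φ W' z l := by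
  induction l generalizing z with
  | nil => simp [addF]
  | cons m l ih => simp only [addF, ih]; ring

lemma addF_one (z : Z) (l : List M) : addF φ (fun _ => 1) z l = l.length := by
  induction l generalizing z with
  | nil => simp [addF]
  | cons m l ih => simp only [addF, ih, List.length_cons]; push_cast; ring

lemma addF_nonneg {W : Z → ℝ} (hW : ∀ z, 0 ≤ W z) (z : Z) (l : List M) : 0 ≤ addF φ W z l := by
  induction l generalizing z with
  | nil => simp [addF]
  | cons m l ih => simp only [addF]; have := hW z; have := hW (φ z m); have := ih (φ z m); positivity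

lemma addF_eq_zero {W : Z → ℝ} {x : V} (hW : ∀ z, pos z ≠ x → W z = 0) (z : Z) (l : List M)
    (hx : x ∉ vis φ pos z l) : addF φ W z l = 0 := by
  induction l generalizing z with
  | nil => simp [addF]
  | cons m l ih =>
    simp only [vis, Set.mem_insert_iff, not_or] at hx
    have h2 : pos (φ z m) ≠ x := fun h => hx.2 (h ▸ pos_mem_vis φ pos _ _)
    simp [addF, ih _ hx.2, hW z (Ne.symm hx.1), hW _ h2]

variable [Fintype Z] (wt : Z → ℝ)

/-- Reversibility with respect to the weights `wt`. -/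
def Rev (q : M → ℝ) (φ : Z → M → Z) (wt : Z → ℝ) : Prop :=
  ∀ H : Z → Z → ℝ, ∑ z, ∑ m, wt z * q m * H z (φ z m) = ∑ z, ∑ m, wt z * q m * H (φ z m) z

/-- Dirichlet form. -/
noncomputable def dir (q : M → ℝ) (φ : Z → M → Z) (wt : Z → ℝ) (f : Z → ℝ) : ℝ :=
  (∑ z, ∑ m, wt z * q m * (f z - f (φ z m)) ^ 2) / 2

variable {φ wt}

lemma IsPV.sum_Pop (hq : IsPV q) (hr : Rev q φ wt) (f : Z → ℝ) :
    ∑ z, wt z * Pop q φ f z = ∑ z, wt z * f z := by
  have := hr (fun _ y => f y)
  simp only [Pop, Finset.mul_sum, ← mul_assoc]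
  rw [this]
  refine Finset.sum_congr rfl fun z _ => ?_
  rw [← Finset.sum_mul, ← Finset.mul_sum, hq.sum, mul_one]

lemma IsPV.sum_Pop_iter (hq : IsPV q) (hr : Rev q φ wt) (f : Z → ℝ) (n : ℕ) :
    ∑ z, wt z * (Pop q φ)^[n] f z = ∑ z, wt z * f z := by
  induction n with
  | zero => rfl
  | succ n ih => rw [Function.iterate_succ_apply', hq.sum_Pop hr, ih]

lemma IsPV.dir_eq (hq : IsPV q) (hr : Rev q φ wt) (f : Z → ℝ) :
    dir q φ wt f = ∑ z, wt z * (f z * (f z - Pop q φ f z)) := by
  have h1 := hq.sum_Pop hr (fun z => f z ^ 2)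
  have h2 : ∀ z, ∑ m, wt z * q m * (f z - f (φ z m)) ^ 2
      = wt z * f z ^ 2 - 2 * (wt z * (f z * Pop q φ f z)) + wt z * Pop q φ (fun z => f z ^ 2) z := by
    intro z
    have e : wt z * f z ^ 2 = ∑ m, wt z * f z ^ 2 * q m := by
      rw [← Finset.mul_sum, hq.sum, mul_one]
    rw [e]
    simp only [Pop, Finset.mul_sum, ← Finset.sum_sub_distrib, ← Finset.sum_add_distrib]
    exact Finset.sum_congr rfl fun m _ => by ring
  rw [dir]
  simp only [h2, Finset.sum_add_distrib, Finset.sum_sub_distrib, h1, mul_sub, ← Finset.mul_sum]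
  have : ∑ z, wt z * (f z * f z) = ∑ z, wt z * f z ^ 2 :=
    Finset.sum_congr rfl fun z _ => by ring
  rw [this]; ring

/-- Feynman-Kac bound. -/
lemma IsPV.fk (hq : IsPV q) (hr : Rev q φ wt) (hw : ∀ z, 0 ≤ wt z) (W : Z → ℝ)
    (hW : ∀ f : Z → ℝ, ∑ z, wt z * (W z * f z ^ 2) ≤ dir q φ wt f) (n : ℕ) :
    ∑ z, wt z * EL q n (fun l => exp (addF φ W z l)) ≤ ∑ z, wt z := by
  let A : (Z → ℝ) → Z → ℝ := fun f z => ∑ m, q m * (exp ((W z + W (φ z m)) / 2) * f (φ z m))
  let bl : (Z → ℝ) → (Z → ℝ) → ℝ := fun f g =>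
    ∑ z, ∑ m, wt z * q m * (exp ((W z + W (φ z m)) / 2) * (f (φ z m) * g z))
  have hsym : ∀ f g, bl f g = bl g f := by
    intro f g
    have := hr (fun y y' => exp ((W y + W y') / 2) * (f y' * g y))
    simp only [bl]
    rw [this]
    refine Finset.sum_congr rfl fun z _ => Finset.sum_congr rfl fun m _ => ?_
    rw [add_comm (W z)]; ring
  have hup : ∀ f, bl f f ≤ ∑ z, wt z * f z ^ 2 := by
    intro f
    set g : Z → ℝ := fun z => exp (W z / 2) * f z with hg
    have e1 : bl f f = ∑ z, wt z * (g z * Pop q φ g z) := by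
      simp only [bl, Pop, Finset.mul_sum, hg]
      refine Finset.sum_congr rfl fun z _ => Finset.sum_congr rfl fun m _ => ?_
      rw [add_div, Real.exp_add]; ring
    have e2 := hq.dir_eq hr g
    have e3 := hW g
    have e4 : ∑ z, wt z * (g z * Pop q φ g z)
        = ∑ z, wt z * g z ^ 2 - ∑ z, wt z * (g z * (g z - Pop q φ g z)) := by
      rw [← Finset.sum_sub_distrib]; exact Finset.sum_congr rfl fun z _ => by ring
    have e5 : ∑ z, wt z * g z ^ 2 - ∑ z, wt z * (W z * g z ^ 2) ≤ ∑ z, wt z * f z ^ 2 := by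
      rw [← Finset.sum_sub_distrib]
      refine Finset.sum_le_sum fun z _ => ?_
      have e6 := Real.add_one_le_exp (-W z)
      have e7 : exp (-W z) * g z ^ 2 = f z ^ 2 := by
        simp only [hg]
        rw [mul_pow, ← mul_assoc, sq (exp _), ← Real.exp_add, ← Real.exp_add]
        simp
      have : (1 - W z) * g z ^ 2 ≤ exp (-W z) * g z ^ 2 := by gcongr; linarith
      have := mul_le_mul_of_nonneg_left (this.trans e7.le) (hw z)
      linarith
    linarith
  have hlow : ∀ f, -bl f f ≤ ∑ z, wt z * f z ^ 2 := by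
    intro f
    have := hup (fun z => |f z|)
    simp only [sq_abs] at this
    refine le_trans ?_ this
    simp only [bl, ← Finset.sum_neg_distrib]
    refine Finset.sum_le_sum fun z _ => Finset.sum_le_sum fun m _ => ?_
    have e1 : -(f (φ z m) * f z) ≤ |f (φ z m)| * |f z| := by
      rw [← abs_mul]; exact neg_le_abs _
    have e2 : 0 ≤ wt z * q m * exp ((W z + W (φ z m)) / 2) := by
      have := hw z; have := hq.nonneg m; positivity
    nlinarith [mul_le_mul_of_nonneg_left e1 e2]
  have hA : ∀ f, ∑ z, wt z * A f z ^ 2 ≤ ∑ z, wt z * f z ^ 2 := by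
    intro f
    set g := A f with hg
    have e1 : bl f g = ∑ z, wt z * g z ^ 2 := by
      simp only [bl]
      refine Finset.sum_congr rfl fun z _ => ?_
      have : g z = ∑ m, q m * (exp ((W z + W (φ z m)) / 2) * f (φ z m)) := rfl
      calc _ = (wt z * g z) * ∑ m, q m * (exp ((W z + W (φ z m)) / 2) * f (φ z m)) := by
            rw [Finset.mul_sum]
            exact Finset.sum_congr rfl fun m _ => by ring
        _ = _ := by rw [← this]; ring
    have e2 : bl (fun z => f z + g z) (fun z => f z + g z)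
        - bl (fun z => f z - g z) (fun z => f z - g z) = 2 * bl f g + 2 * bl g f := by
      simp only [bl, Finset.mul_sum, ← Finset.sum_sub_distrib, ← Finset.sum_add_distrib]
      exact Finset.sum_congr rfl fun z _ => Finset.sum_congr rfl fun m _ => by ring
    have e3 := hup (fun z => f z + g z)
    have e4 := hlow (fun z => f z - g z)
    have e5 : ∑ z, wt z * (f z + g z) ^ 2 + ∑ z, wt z * (f z - g z) ^ 2
        = 2 * ∑ z, wt z * f z ^ 2 + 2 * ∑ z, wt z * g z ^ 2 := by
      simp only [Finset.mul_sum, ← Finset.sum_add_distrib]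
      exact Finset.sum_congr rfl fun z _ => by ring
    have e6 := hsym f g
    linarith
  have hu : ∀ n, ∑ z, wt z * (EL q n (fun l => exp (addF φ W z l))) ^ 2 ≤ ∑ z, wt z := by
    intro n
    induction n with
    | zero => simp [EL, addF]
    | succ n ih =>
      refine le_trans (le_of_eq ?_) ((hA _).trans ih)
      refine Finset.sum_congr rfl fun z _ => ?_
      simp only [EL, addF, A, Real.exp_add, EL_const_mul]
  have := hu n
  have e1 : ∑ z, wt z * EL q n (fun l => exp (addF φ W z l))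
      ≤ (∑ z, wt z + ∑ z, wt z * (EL q n (fun l => exp (addF φ W z l))) ^ 2) / 2 := by
    rw [← Finset.sum_add_distrib, Finset.sum_div]
    refine Finset.sum_le_sum fun z _ => ?_
    nlinarith [hw z, mul_nonneg (hw z) (sq_nonneg (EL q n (fun l => exp (addF φ W z l)) - 1))]
  linarith

/-- Cesaro smoothing. -/
lemma IsPV.smooth (hq : IsPV q) (hr : Rev q φ wt) (hw : ∀ z, 0 ≤ wt z) {g : Z → ℝ}
    (h0 : ∀ z, 0 ≤ g z) (h1 : ∀ z, g z ≤ 1) {n : ℕ} (hn : 0 < n) :
    ∃ h : Z → ℝ, (∀ z, 0 ≤ h z) ∧ (∀ z, h z ≤ 1) ∧ (∑ z, wt z * h z = ∑ z, wt z * g z) ∧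
      dir q φ wt h ≤ (∑ z, wt z * g z) / n ∧
      ∀ z c, (∀ i < n, c ≤ (Pop q φ)^[i] g z) → c ≤ h z := by
  have hnr : (0 : ℝ) < n := by exact_mod_cast hn
  have hP0 : ∀ i z, 0 ≤ (Pop q φ)^[i] g z := fun i z => by
    rw [← hq.Pop_const φ 0 i z]; exact hq.Pop_mono φ h0 i z
  have hP1 : ∀ i z, (Pop q φ)^[i] g z ≤ 1 := fun i z => by
    rw [← hq.Pop_const φ 1 i z]; exact hq.Pop_mono φ h1 i z
  let h : Z → ℝ := fun z => (∑ i ∈ Finset.range n, (Pop q φ)^[i] g z) / n
  have hh0 : ∀ z, 0 ≤ h z := fun z => div_nonneg (Finset.sum_nonneg fun i _ => hP0 i z) hnr.le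
  have hh1 : ∀ z, h z ≤ 1 := fun z => by
    rw [div_le_one hnr]
    calc _ ≤ ∑ _i ∈ Finset.range n, (1 : ℝ) := Finset.sum_le_sum fun i _ => hP1 i z
      _ = n := by simp
  refine ⟨h, hh0, hh1, ?_, ?_, fun z c hc => ?_⟩
  · simp only [h, ← mul_div_assoc, ← Finset.sum_div, Finset.mul_sum]
    rw [Finset.sum_comm]
    simp only [hq.sum_Pop_iter hr, Finset.sum_const, Finset.card_range, nsmul_eq_mul]
    field_simp
  · rw [hq.dir_eq hr, Finset.sum_div]
    refine Finset.sum_le_sum fun z _ => ?_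
    have e1 : Pop q φ h z = (∑ i ∈ Finset.range n, (Pop q φ)^[i + 1] g z) / n := by
      simp only [Function.iterate_succ_apply']
      simp only [Pop, h, ← mul_div_assoc, ← Finset.sum_div, Finset.mul_sum]
      rw [Finset.sum_comm]
    have e2 : h z - Pop q φ h z = (g z - (Pop q φ)^[n] g z) / n := by
      rw [e1]
      simp only [h]
      rw [← sub_div, ← Finset.sum_sub_distrib,
        Finset.sum_range_sub' (fun i => (Pop q φ)^[i] g z)]
      simp
    rw [e2, mul_div_assoc]
    refine mul_le_mul_of_nonneg_left ?_ (hw z)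
    rw [← mul_div_assoc]
    gcongr
    have := hP0 n z
    have := hh0 z
    have := hh1 z
    have := h0 z
    nlinarith
  · rw [le_div_iff₀ hnr]
    calc c * n = ∑ _i ∈ Finset.range n, c := by simp [mul_comm]
      _ ≤ _ := Finset.sum_le_sum fun i hi => hc i (Finset.mem_range.1 hi)

end Pool.Agent.MP_6504f0_pr

end MrgPart2

-- ======== part 3: formerly Pool.Agent.MP_6504f0_pr.Abs
section MrgPart3

set_option autoImplicit false
set_option linter.unusedSectionVars false

open Real

namespace Pool.Agent.MP_6504f0_pr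

variable {M V H Ed : Type*} [Fintype M] [Fintype V] [DecidableEq V] [Fintype H] [Fintype Ed]

/-- Energy of a function along a family of oriented edges. -/
noncomputable def En (src tgt : Ed → V) (ψ : V → ℝ) : ℝ := (∑ e, (ψ (src e) - ψ (tgt e)) ^ 2) / 2

lemma En_nonneg (src tgt : Ed → V) (ψ : V → ℝ) : 0 ≤ En src tgt ψ := by
  unfold En; positivity

/-- The abstract setting of a walk in a dynamic environment. -/
structure Setting (q : M → ℝ) (φ : V × H → M → V × H) (w : V → ℝ) (pe : H → ℝ)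
    (src tgt : Ed → V) (d : V → V → ℝ) (c : ℝ) : Prop where
  hq : IsPV q
  hpe : IsPV pe
  hw : ∀ x, 0 < w x
  rev : Rev q φ (fun z => w z.1 * pe z.2)
  hc : 0 < c
  hd : ∀ ψ u v, (ψ u - ψ v) ^ 2 ≤ d u v ^ 2 * En src tgt ψ
  hd0 : ∀ u v, 0 ≤ d u v
  key : ∀ f : V × H → ℝ, ∑ η, pe η * En src tgt (fun x => f (x, η))
    ≤ c ^ 2 * dir q φ (fun z => w z.1 * pe z.2) f

variable {q : M → ℝ} {φ : V × H → M → V × H} {w : V → ℝ} {pe : H → ℝ}
  {src tgt : Ed → V} {d : V → V → ℝ} {c : ℝ}

lemma Setting.wt_nonneg (S : Setting q φ w pe src tgt d c) (z : V × H) : 0 ≤ w z.1 * pe z.2 :=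
  mul_nonneg (S.hw _).le (S.hpe.nonneg _)

lemma Setting.sum_wt (S : Setting q φ w pe src tgt d c) :
    ∑ z : V × H, w z.1 * pe z.2 = ∑ x, w x := by
  rw [Fintype.sum_prod_type]
  simp only [← Finset.mul_sum, S.hpe.sum, mul_one]

lemma Setting.dir_nonneg (S : Setting q φ w pe src tgt d c) (f : V × H → ℝ) :
    0 ≤ dir q φ (fun z => w z.1 * pe z.2) f := by
  unfold dir
  refine div_nonneg (Finset.sum_nonneg fun z _ => Finset.sum_nonneg fun m _ => ?_) (by norm_num)
  exact mul_nonneg (mul_nonneg (S.wt_nonneg z) (S.hq.nonneg m)) (sq_nonneg _)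

/-- fibre norm -/
noncomputable def fn (pe : H → ℝ) (f : V × H → ℝ) (x : V) : ℝ := √(∑ η, pe η * f (x, η) ^ 2)

lemma Setting.fn_sq (S : Setting q φ w pe src tgt d c) (f : V × H → ℝ) (x : V) :
    fn pe f x ^ 2 = ∑ η, pe η * f (x, η) ^ 2 :=
  Real.sq_sqrt (Finset.sum_nonneg fun η _ => mul_nonneg (S.hpe.nonneg η) (sq_nonneg _))

lemma Setting.fn_le (S : Setting q φ w pe src tgt d c) (f : V × H → ℝ) (u v : V) {ρ : ℝ}
    (hρ : d u v ≤ ρ) :
    fn pe f u ≤ fn pe f v + c * ρ * √(dir q φ (fun z => w z.1 * pe z.2) f) := by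
  have h1 : ∀ x y, (fn pe f x - fn pe f y) ^ 2 ≤ ∑ η, pe η * (f (x, η) - f (y, η)) ^ 2 := by
    intro x y
    have e1 : ∑ η, pe η * (f (x, η) * f (y, η)) ≤ fn pe f x * fn pe f y := by
      have := Finset.sum_mul_sq_le_sq_mul_sq Finset.univ (fun η => √(pe η) * f (x, η))
        (fun η => √(pe η) * f (y, η))
      have e2 : ∀ η, √(pe η) * f (x, η) * (√(pe η) * f (y, η)) = pe η * (f (x, η) * f (y, η)) := by
        intro η
        have := Real.mul_self_sqrt (S.hpe.nonneg η)
        calc _ = (√(pe η) * √(pe η)) * (f (x, η) * f (y, η)) := by ring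
          _ = _ := by rw [this]
      simp only [e2, mul_pow, Real.sq_sqrt (S.hpe.nonneg _)] at this
      rw [← S.fn_sq, ← S.fn_sq, ← mul_pow] at this
      exact (abs_le_of_sq_le_sq' this (mul_nonneg (Real.sqrt_nonneg _) (Real.sqrt_nonneg _))).2
    have e3 : ∑ η, pe η * (f (x, η) - f (y, η)) ^ 2 = ∑ η, pe η * f (x, η) ^ 2
        + ∑ η, pe η * f (y, η) ^ 2 - 2 * ∑ η, pe η * (f (x, η) * f (y, η)) := by
      rw [Finset.mul_sum, ← Finset.sum_add_distrib, ← Finset.sum_sub_distrib]
      exact Finset.sum_congr rfl fun η _ => by ring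
    rw [e3, ← S.fn_sq, ← S.fn_sq]
    nlinarith
  have h2 : En src tgt (fn pe f) ≤ ∑ η, pe η * En src tgt (fun x => f (x, η)) := by
    simp only [En, ← mul_div_assoc, ← Finset.sum_div, Finset.mul_sum]
    rw [Finset.sum_comm]
    gcongr with e
    exact h1 _ _
  have h3 := S.hd (fn pe f) u v
  have h4 := S.key f
  have hdir := S.dir_nonneg f
  have hρ0 : 0 ≤ ρ := (S.hd0 u v).trans hρ
  have h5 : (fn pe f u - fn pe f v) ^ 2
      ≤ (c * ρ * √(dir q φ (fun z => w z.1 * pe z.2) f)) ^ 2 := by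
    rw [mul_pow, Real.sq_sqrt hdir]
    have := S.hd0 u v
    have := En_nonneg src tgt (fn pe f)
    calc _ ≤ d u v ^ 2 * En src tgt (fn pe f) := h3
      _ ≤ ρ ^ 2 * (c ^ 2 * dir q φ (fun z => w z.1 * pe z.2) f) := by
          gcongr; exact h2.trans h4
      _ = _ := by ring
  have := (abs_le_of_sq_le_sq' h5 (by have := S.hc; positivity)).2
  linarith

/-- normalised occupation potential -/
noncomputable def occ (w : V → ℝ) (v : V) (z : V × H) : ℝ := if z.1 = v then 1 / w v else 0

lemma Setting.occ_nonneg (S : Setting q φ w pe src tgt d c) (v : V) (z : V × H) :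
    0 ≤ occ w v z := by
  unfold occ; have := S.hw v; split_ifs <;> positivity

lemma Setting.sum_occ (S : Setting q φ w pe src tgt d c) (f : V × H → ℝ) (v : V) :
    ∑ z : V × H, w z.1 * pe z.2 * (occ w v z * f z ^ 2) = fn pe f v ^ 2 := by
  rw [S.fn_sq, Fintype.sum_prod_type, Finset.sum_eq_single v]
  · refine Finset.sum_congr rfl fun η _ => ?_
    have := S.hw v
    simp only [occ, if_true]; field_simp
  · intro x _ hx; simp [occ, hx]
  · simp

open Classical in
/-- Probability under the stationary start. -/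
noncomputable def prS (q : M → ℝ) (w : V → ℝ) (pe : H → ℝ) (N : ℕ)
    (A : Set ((V × H) × List M)) : ℝ :=
  (∑ z : V × H, w z.1 * pe z.2 * EL q N (fun l => if (z, l) ∈ A then 1 else 0)) / ∑ x, w x

lemma Setting.subAdd (S : Setting q φ w pe src tgt d c) (N : ℕ) : SubAdd (prS q w pe N) := by
  classical
  have hW : 0 ≤ ∑ x, w x := Finset.sum_nonneg fun x _ => (S.hw x).le
  refine ⟨fun A B hAB => ?_, fun A B => ?_, ?_⟩
  · unfold prS
    gcongr with z
    · exact S.wt_nonneg z
    · refine S.hq.EL_mono N fun l _ => ?_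
      by_cases h : (z, l) ∈ A
      · simp [h, hAB h]
      · simp only [h, if_false]; split_ifs <;> simp
  · unfold prS
    rw [← add_div, ← Finset.sum_add_distrib]
    gcongr with z
    rw [← mul_add, ← EL_add]
    refine mul_le_mul_of_nonneg_left (S.hq.EL_mono N fun l _ => ?_) (S.wt_nonneg z)
    by_cases h : (z, l) ∈ A <;> by_cases h' : (z, l) ∈ B <;> simp [h, h']
  · simp [prS, S.hq.EL_const]

lemma Setting.markov [Nonempty V] (S : Setting q φ w pe src tgt d c) (N : ℕ) (W : V × H → ℝ)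
    (hW : ∀ f : V × H → ℝ, ∑ z : V × H, w z.1 * pe z.2 * (W z * f z ^ 2)
      ≤ dir q φ (fun z => w z.1 * pe z.2) f) (A : Set ((V × H) × List M)) (t : ℝ)
    (hA : ∀ z l, l.length = N → (z, l) ∈ A → t ≤ addF φ W z l) :
    prS q w pe N A ≤ exp (-t) := by
  classical
  have hW0 : 0 < ∑ x, w x := Finset.sum_pos (fun x _ => S.hw x) Finset.univ_nonempty
  have h1 := S.hq.fk S.rev S.wt_nonneg W hW N
  rw [S.sum_wt] at h1
  rw [prS, div_le_iff₀ hW0]
  calc _ ≤ ∑ z : V × H, w z.1 * pe z.2 * EL q N (fun l => exp (-t) * exp (addF φ W z l)) := by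
        refine Finset.sum_le_sum fun z _ => mul_le_mul_of_nonneg_left
          (S.hq.EL_mono N fun l hl => ?_) (S.wt_nonneg z)
        split_ifs with h
        · rw [← Real.exp_add]
          apply Real.one_le_exp
          have := hA z l hl h; linarith
        · positivity
    _ = exp (-t) * ∑ z : V × H, w z.1 * pe z.2 * EL q N (fun l => exp (addF φ W z l)) := by
        simp only [EL_const_mul, Finset.mul_sum]
        exact Finset.sum_congr rfl fun z _ => by ring
    _ ≤ _ := by gcongr

lemma Setting.stat_cover (S : Setting q φ w pe src tgt d c) {root : V} {D Γ : ℝ}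
    (hch : Chainable d root D Γ) (hD : 0 < D) (hdD : ∀ u v, d u v ≤ D) (hΓ : 0 ≤ Γ) {N : ℕ}
    (hN : 2 * (∑ x, w x) * c ^ 2 * ((7 * D + 2 * Γ) ^ 2 + 9 * D ^ 2) ≤ N) :
    ∑ z : V × H, w z.1 * pe z.2 * nc q φ Prod.fst N z ≤ (∑ x, w x) / 64 := by
  classical
  have : Nonempty V := ⟨root⟩
  have hc := S.hc
  have hW0 : 0 < ∑ x, w x := Finset.sum_pos (fun x _ => S.hw x) Finset.univ_nonempty
  let ξ : V → (V × H) × List M → ℝ := fun v ω => √(addF φ (occ w v) ω.1 ω.2)
  have hξ2 : ∀ v ω, ξ v ω ^ 2 = addF φ (occ w v) ω.1 ω.2 := fun v ω =>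
    Real.sq_sqrt (addF_nonneg φ (S.occ_nonneg v) _ _)
  have hξ0 : ∀ v ω, 0 ≤ ξ v ω := fun v ω => Real.sqrt_nonneg _
  have hpair : ∀ u v (ρ a s : ℝ), 0 < ρ → d u v ≤ ρ → 0 ≤ s →
      prS q w pe N {ω | a ≤ ξ u ω ∧ ξ v ω < a - c * ρ * s} ≤ exp (-s ^ 2) := by
    intro u v ρ a s hρ hd hs
    set R := c * ρ with hR
    have hR0 : 0 < R := by positivity
    set b := a - R * s with hb
    by_cases hb0 : b ≤ 0
    · refine le_trans ((S.subAdd N).mono _ ∅ ?_) ((S.subAdd N).empty.trans (exp_pos _).le)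
      rintro ω ⟨_, h2⟩
      exact absurd (hξ0 v ω) (by linarith)
    push Not at hb0
    have ha : a = b + R * s := by rw [hb]; ring
    have ha0 : 0 < a := by rw [ha]; positivity
    refine S.markov N (fun z => s / (a * R) * occ w u z + (-(s / (b * R))) * occ w v z)
      (fun f => ?_) _ _ ?_
    · have e1 : ∑ z : V × H, w z.1 * pe z.2 * ((s / (a * R) * occ w u z
          + (-(s / (b * R))) * occ w v z) * f z ^ 2)
          = s / (a * R) * fn pe f u ^ 2 - s / (b * R) * fn pe f v ^ 2 := by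
        rw [← S.sum_occ, ← S.sum_occ, Finset.mul_sum, Finset.mul_sum, ← Finset.sum_sub_distrib]
        exact Finset.sum_congr rfl fun z _ => by ring
      rw [e1]
      have e2 := S.fn_le f u v hd
      set κ := √(dir q φ (fun z => w z.1 * pe z.2) f) with hκ
      have hκ2 : κ ^ 2 = dir q φ (fun z => w z.1 * pe z.2) f := Real.sq_sqrt (S.dir_nonneg f)
      have hu0 : 0 ≤ fn pe f u := Real.sqrt_nonneg _
      rw [← hκ2]
      have e3 : s / (a * R) * fn pe f u ^ 2 ≤ s / (a * R) * (fn pe f v + R * κ) ^ 2 := by gcongr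
      have e4 : s / (a * R) * (fn pe f v + R * κ) ^ 2 - s / (b * R) * fn pe f v ^ 2
          = κ ^ 2 - (s * fn pe f v - b * κ) ^ 2 / (a * b) := by
        rw [ha]; field_simp; ring
      have : 0 ≤ (s * fn pe f v - b * κ) ^ 2 / (a * b) := by positivity
      linarith
    · rintro z l _ ⟨h1, h2⟩
      rw [addF_lin]
      have e1 := hξ2 u (z, l)
      have e2 := hξ2 v (z, l)
      simp only at e1 e2
      rw [← e1, ← e2]
      have e3 : s / (a * R) * a ^ 2 ≤ s / (a * R) * ξ u (z, l) ^ 2 := by gcongr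
      have e4 : s / (b * R) * ξ v (z, l) ^ 2 ≤ s / (b * R) * b ^ 2 := by
        have := hξ0 v (z, l)
        gcongr
      have e5 : s / (a * R) * a ^ 2 - s / (b * R) * b ^ 2 = s ^ 2 := by
        rw [ha]; field_simp; ring
      linarith
  set a := c * (7 * D + 2 * Γ) with ha
  have ha0 : 0 < a := by positivity
  have h1 := chain_bound (S.subAdd N) hch hD ξ hc.le hpair a 3 (by norm_num)
  have h2 : prS q w pe N {ω | ξ root ω < a} ≤ exp (-3 ^ 2) := by
    set R := c * D with hR
    have hR0 : 0 < R := by positivity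
    refine S.markov N (fun z => 1 / (2 * (∑ x, w x) * R ^ 2) * 1 + (-(1 / R ^ 2)) * occ w root z)
      (fun f => ?_) _ _ ?_
    · have e1 : ∑ z : V × H, w z.1 * pe z.2 * ((1 / (2 * (∑ x, w x) * R ^ 2) * 1
          + (-(1 / R ^ 2)) * occ w root z) * f z ^ 2)
          = 1 / (2 * (∑ x, w x) * R ^ 2) * ∑ x, w x * fn pe f x ^ 2
            - 1 / R ^ 2 * fn pe f root ^ 2 := by
        have e0 : ∑ x, w x * fn pe f x ^ 2 = ∑ z : V × H, w z.1 * pe z.2 * f z ^ 2 := by
          rw [Fintype.sum_prod_type]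
          refine Finset.sum_congr rfl fun x _ => ?_
          rw [S.fn_sq, Finset.mul_sum]
          exact Finset.sum_congr rfl fun η _ => by ring
        generalize 1 / (2 * (∑ x, w x) * R ^ 2) = γ
        rw [e0, ← S.sum_occ, Finset.mul_sum, Finset.mul_sum, ← Finset.sum_sub_distrib]
        exact Finset.sum_congr rfl fun z _ => by ring
      rw [e1]
      set κ := √(dir q φ (fun z => w z.1 * pe z.2) f) with hκ
      have hκ2 : κ ^ 2 = dir q φ (fun z => w z.1 * pe z.2) f := Real.sq_sqrt (S.dir_nonneg f)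
      rw [← hκ2]
      have e2 : ∑ x, w x * fn pe f x ^ 2
          ≤ (∑ x, w x) * (2 * fn pe f root ^ 2 + 2 * (R * κ) ^ 2) := by
        rw [Finset.sum_mul]
        refine Finset.sum_le_sum fun x _ => mul_le_mul_of_nonneg_left ?_ (S.hw x).le
        have e3 := S.fn_le f x root (hdD x root)
        have hu0 : 0 ≤ fn pe f x := Real.sqrt_nonneg _
        calc fn pe f x ^ 2 ≤ (fn pe f root + R * κ) ^ 2 := by gcongr
          _ ≤ _ := by nlinarith [sq_nonneg (fn pe f root - R * κ)]
      have e4 : 1 / (2 * (∑ x, w x) * R ^ 2) * ∑ x, w x * fn pe f x ^ 2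
          ≤ 1 / (2 * (∑ x, w x) * R ^ 2) *
            ((∑ x, w x) * (2 * fn pe f root ^ 2 + 2 * (R * κ) ^ 2)) := by gcongr
      have e5 : 1 / (2 * (∑ x, w x) * R ^ 2) *
            ((∑ x, w x) * (2 * fn pe f root ^ 2 + 2 * (R * κ) ^ 2))
          = 1 / R ^ 2 * fn pe f root ^ 2 + κ ^ 2 := by field_simp
      linarith
    · rintro z l hl h1
      rw [addF_lin, addF_one, hl]
      have e1 := hξ2 root (z, l)
      simp only at e1
      rw [← e1]
      have e2 : 1 / R ^ 2 * ξ root (z, l) ^ 2 ≤ 1 / R ^ 2 * a ^ 2 := by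
        have := hξ0 root (z, l)
        have : ξ root (z, l) ≤ a := le_of_lt h1
        gcongr
      have e3 : 1 / (2 * (∑ x, w x) * R ^ 2) *
          (2 * (∑ x, w x) * c ^ 2 * ((7 * D + 2 * Γ) ^ 2 + 9 * D ^ 2))
          ≤ 1 / (2 * (∑ x, w x) * R ^ 2) * N := by gcongr
      have e4 : 1 / (2 * (∑ x, w x) * R ^ 2) *
          (2 * (∑ x, w x) * c ^ 2 * ((7 * D + 2 * Γ) ^ 2 + 9 * D ^ 2))
          = 1 / R ^ 2 * a ^ 2 + 3 ^ 2 := by rw [ha, hR]; field_simp; ring
      linarith
  have h3 : prS q w pe N {ω | vis φ Prod.fst ω.1 ω.2 ≠ Set.univ} ≤ 2 * exp (-3 ^ 2) := by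
    refine le_trans ((S.subAdd N).mono _ _ ?_) (((S.subAdd N).union _ _).trans
      (add_le_add h1 h2 |>.trans (le_of_eq (by ring))))
    intro ω hω
    by_cases hr : ξ root ω < a
    · exact Or.inr hr
    refine Or.inl ⟨not_lt.1 hr, ?_⟩
    obtain ⟨x, hx⟩ := (Set.ne_univ_iff_exists_notMem _).1 hω
    refine ⟨x, ?_⟩
    have e1 : addF φ (occ w x) ω.1 ω.2 = 0 :=
      addF_eq_zero φ Prod.fst (fun z hz => by simp [occ, hz]) _ _ hx
    simp only [ξ, e1, Real.sqrt_zero, ha]
    have : 0 < c * D := by positivity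
    linarith
  have h4 : exp (-3 ^ 2) ≤ 1 / 128 := by
    have e1 : (2 : ℝ) ≤ exp 1 := by have := Real.add_one_le_exp 1; linarith
    have e2 : (2 : ℝ) ^ 9 ≤ exp 1 ^ 9 := by gcongr
    rw [← Real.exp_nat_mul] at e2
    rw [Real.exp_neg, inv_eq_one_div]
    apply one_div_le_one_div_of_le (by norm_num)
    norm_num at e2 ⊢
    linarith
  have e : prS q w pe N {ω | vis φ Prod.fst ω.1 ω.2 ≠ Set.univ}
      = (∑ z : V × H, w z.1 * pe z.2 * nc q φ Prod.fst N z) / ∑ x, w x := by
    unfold prS nc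
    congr 1
    refine Finset.sum_congr rfl fun z _ => ?_
    congr 2
    ext l
    simp [ncI]
  rw [e, div_le_iff₀ hW0] at h3
  refine h3.trans ?_
  calc 2 * exp (-3 ^ 2) * ∑ x, w x ≤ 2 * (1 / 128) * ∑ x, w x := by gcongr
    _ = _ := by ring

lemma Setting.env_bound (S : Setting q φ w pe src tgt d c) {root : V} {D Γ : ℝ}
    (hch : Chainable d root D Γ) (hD : 0 < D) (hdD : ∀ u v, d u v ≤ D) (hΓ : 0 ≤ Γ) {N n : ℕ}
    (hN : 2 * (∑ x, w x) * c ^ 2 * ((7 * D + 2 * Γ) ^ 2 + 9 * D ^ 2) ≤ N)
    (hn : (∑ x, w x) * c ^ 2 * D ^ 2 ≤ n) :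
    ∃ F : H → ℝ, (∀ η, 0 ≤ F η) ∧ (∀ η, F η ≤ 1) ∧ ∑ η, pe η * F η ≤ 1 / 4 ∧
      ∀ z, nc q φ Prod.fst (n + N) z ≤ F z.2 := by
  have : Nonempty V := ⟨root⟩
  have hc := S.hc
  have hW0 : 0 < ∑ x, w x := Finset.sum_pos (fun x _ => S.hw x) Finset.univ_nonempty
  have hn0 : (0 : ℝ) < n := lt_of_lt_of_le (by positivity) hn
  have h1 := S.stat_cover hch hD hdD hΓ hN
  obtain ⟨h, h0, hle1, hs, hdir, hlow⟩ := S.hq.smooth S.rev S.wt_nonneg
    (S.hq.nc_nonneg φ Prod.fst N) (S.hq.nc_le_one φ Prod.fst N) (n := n) (by exact_mod_cast hn0)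
  choose xm hxm using fun η => Finite.exists_max (fun x => h (x, η))
  refine ⟨fun η => h (xm η, η), fun η => h0 _, fun η => hle1 _, ?_, fun z => ?_⟩
  · have e1 : ∀ η, h (xm η, η) ≤ (∑ y, w y * h (y, η)) / (∑ x, w x)
        + (4 * D ^ 2 * En src tgt (fun x => h (x, η)) + 1 / 16) := by
      intro η
      have e2 : ∀ y, h (xm η, η) - (4 * D ^ 2 * En src tgt (fun x => h (x, η)) + 1 / 16)
          ≤ h (y, η) := by
        intro y
        have e3 := S.hd (fun x => h (x, η)) (xm η) y
        have e4 : d (xm η) y ^ 2 * En src tgt (fun x => h (x, η))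
            ≤ D ^ 2 * En src tgt (fun x => h (x, η)) := by
          have := En_nonneg src tgt (fun x => h (x, η))
          have := S.hd0 (xm η) y
          gcongr; exact hdD _ _
        nlinarith [sq_nonneg (h (xm η, η) - h (y, η) - 1 / 8)]
      rw [← sub_le_iff_le_add, le_div_iff₀ hW0, Finset.mul_sum]
      refine Finset.sum_le_sum fun y _ => ?_
      rw [mul_comm]; exact mul_le_mul_of_nonneg_left (e2 y) (S.hw y).le
    have e5 : ∑ η, pe η * ((∑ y, w y * h (y, η)) / (∑ x, w x))
        = (∑ z : V × H, w z.1 * pe z.2 * h z) / (∑ x, w x) := by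
      rw [Fintype.sum_prod_type_right]
      simp only [← mul_div_assoc, ← Finset.sum_div, Finset.mul_sum]
      congr 1
      exact Finset.sum_congr rfl fun η _ => Finset.sum_congr rfl fun y _ => by ring
    have e6 := S.key h
    have e7 : 4 * D ^ 2 * (c ^ 2 * dir q φ (fun z => w z.1 * pe z.2) h) ≤ 1 / 16 := by
      calc _ ≤ 4 * D ^ 2 * (c ^ 2 * (((∑ x, w x) / 64) / n)) := by
            gcongr; exact hdir.trans (by gcongr)
        _ = ((∑ x, w x) * c ^ 2 * D ^ 2) / n / 16 := by ring
        _ ≤ 1 / 16 := by gcongr; rwa [div_le_one hn0]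
    calc ∑ η, pe η * h (xm η, η) ≤ ∑ η, pe η * ((∑ y, w y * h (y, η)) / (∑ x, w x)
        + (4 * D ^ 2 * En src tgt (fun x => h (x, η)) + 1 / 16)) :=
          Finset.sum_le_sum fun η _ => mul_le_mul_of_nonneg_left (e1 η) (S.hpe.nonneg η)
      _ = (∑ z : V × H, w z.1 * pe z.2 * h z) / (∑ x, w x)
          + 4 * D ^ 2 * ∑ η, pe η * En src tgt (fun x => h (x, η)) + 1 / 16 * ∑ η, pe η := by
          rw [← e5, Finset.mul_sum, Finset.mul_sum, ← Finset.sum_add_distrib,
            ← Finset.sum_add_distrib]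
          exact Finset.sum_congr rfl fun η _ => by ring
      _ ≤ 1 / 64 + 1 / 16 + 1 / 16 * 1 := by
          rw [S.hpe.sum, hs]
          refine add_le_add (add_le_add ?_ ?_) le_rfl
          · rw [div_le_iff₀ hW0]; linarith
          · exact le_trans (by gcongr) e7
      _ ≤ 1 / 4 := by norm_num
  · refine le_trans (hlow z _ fun i hi => ?_) (hxm z.2 z.1)
    exact (S.hq.nc_anti φ Prod.fst (by omega) z).trans (S.hq.nc_add_le_Pop φ Prod.fst i N z)

theorem Setting.cover_half (S : Setting q φ w pe src tgt d c) {root : V} {D Γ : ℝ}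
    (hch : Chainable d root D Γ) (hD : 0 < D) (hdD : ∀ u v, d u v ≤ D) (hΓ : 0 ≤ Γ) {N n n0 : ℕ}
    (hN : 2 * (∑ x, w x) * c ^ 2 * ((7 * D + 2 * Γ) ^ 2 + 9 * D ^ 2) ≤ N)
    (hn : (∑ x, w x) * c ^ 2 * D ^ 2 ≤ n) (ψ : H → M → H) (hψ : ∀ z m, (φ z m).2 = ψ z.2 m)
    (ds : H → H → ℝ) (hds0 : ∀ η η', 0 ≤ ds η η') (hds1 : ∀ η η', η ≠ η' → 1 ≤ ds η η') {r : ℝ}
    (hr : 0 ≤ r) (hcon : ∀ η η', ∑ m, q m * ds (ψ η m) (ψ η' m) ≤ r * ds η η')
    (hn0 : ∀ η η', r ^ n0 * ds η η' ≤ 1 / 4) (z : V × H) :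
    nc q φ Prod.fst (n0 + (n + N)) z ≤ 1 / 2 := by
  have : Nonempty V := ⟨root⟩
  have hW0 : 0 < ∑ x, w x := Finset.sum_pos (fun x _ => S.hw x) Finset.univ_nonempty
  obtain ⟨F, hF0, hF1, hFs, hF⟩ := S.env_bound hch hD hdD hΓ hN hn
  have e1 : ∀ k (z : V × H), (Pop q φ)^[k] (fun z => F z.2) z = (Pop q ψ)^[k] F z.2 := by
    intro k
    induction k with
    | zero => intro z; rfl
    | succ k ih =>
      intro z
      simp only [Function.iterate_succ_apply', Pop, ih, hψ]
  have e2 : ∀ k η η', (Pop q ψ)^[k] F η - (Pop q ψ)^[k] F η' ≤ r ^ k * ds η η' := by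
    intro k
    induction k with
    | zero =>
      intro η η'
      by_cases h : η = η'
      · simpa [h] using hds0 η' η'
      · have := hds1 η η' h; have := hF0 η'; have := hF1 η
        simp only [Function.iterate_zero, id, pow_zero]; linarith
    | succ k ih =>
      intro η η'
      simp only [Function.iterate_succ_apply', Pop]
      rw [← Finset.sum_sub_distrib]
      calc _ ≤ ∑ m, r ^ k * (q m * ds (ψ η m) (ψ η' m)) := by
            refine Finset.sum_le_sum fun m _ => ?_
            have := mul_le_mul_of_nonneg_left (ih (ψ η m) (ψ η' m)) (S.hq.nonneg m)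
            linarith
        _ ≤ r ^ k * (r * ds η η') := by rw [← Finset.mul_sum]; gcongr; exact hcon η η'
        _ = _ := by ring
  have e3 : ∑ η, pe η * (Pop q ψ)^[n0] F η = ∑ η, pe η * F η := by
    have := S.hq.sum_Pop_iter S.rev (fun z => F z.2) n0
    simp only [e1, Fintype.sum_prod_type, mul_assoc, ← Finset.mul_sum, ← Finset.sum_mul] at this
    exact mul_left_cancel₀ hW0.ne' this
  calc _ ≤ (Pop q φ)^[n0] (nc q φ Prod.fst (n + N)) z := S.hq.nc_add_le_Pop φ Prod.fst _ _ z
    _ ≤ (Pop q φ)^[n0] (fun z => F z.2) z := S.hq.Pop_mono φ hF n0 z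
    _ = ∑ η, pe η * (Pop q ψ)^[n0] F z.2 := by rw [e1, ← Finset.sum_mul, S.hpe.sum, one_mul]
    _ ≤ ∑ η, pe η * ((Pop q ψ)^[n0] F η + 1 / 4) := by
        refine Finset.sum_le_sum fun η _ => mul_le_mul_of_nonneg_left ?_ (S.hpe.nonneg η)
        have := e2 n0 z.2 η
        have := hn0 z.2 η
        linarith
    _ ≤ 1 / 2 := by
        simp only [mul_add, Finset.sum_add_distrib, e3, ← Finset.sum_mul, S.hpe.sum]
        linarith

end Pool.Agent.MP_6504f0_pr

end MrgPart3

-- ======== part 4: formerly Pool.Agent.MP_6504f0_pr.Dyn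
section MrgPart4

set_option autoImplicit false
set_option linter.unusedSectionVars false

open Real

namespace Pool.Agent.MP_6504f0_pr

lemma rev_of_invol {Z M : Type*} [Fintype Z] [Fintype M] {q : M → ℝ} {φ : Z → M → Z}
    {wt : Z → ℝ} (rv : Z → M → M) (h1 : ∀ z m, φ (φ z m) (rv z m) = z)
    (h2 : ∀ z m, rv (φ z m) (rv z m) = m) (h3 : ∀ z m, wt (φ z m) * q (rv z m) = wt z * q m) :
    Rev q φ wt := by
  intro H
  rw [← Fintype.sum_prod_type', ← Fintype.sum_prod_type']
  have hinv : Function.Involutive (fun x : Z × M => (φ x.1 x.2, rv x.1 x.2)) := by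
    intro x; simp [h1, h2]
  rw [← Equiv.sum_comp hinv.toPerm]
  refine Finset.sum_congr rfl fun x _ => ?_
  simp [Function.Involutive.toPerm, h1, h3]

variable {V : Type} [Fintype V] [DecidableEq V] (G : SimpleGraph V) [DecidableRel G.Adj]

lemma sum_mark (f : Mark G → ℝ) :
    ∑ m, f m = f .idle + (∑ e, ∑ b, f (.refresh e b) + ∑ d, f (.jump d)) := by
  rw [← Equiv.sum_comp (markEquiv G), Fintype.sum_option, Fintype.sum_sum_type,
    Fintype.sum_prod_type]
  rfl

/-- Bernoulli weights -/
noncomputable def pb (p : ℝ) (b : Bool) : ℝ := if b then p else 1 - p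

/-- product Bernoulli weights -/
noncomputable def pe (p : ℝ) (η : G.edgeSet → Bool) : ℝ := ∏ e, pb p (η e)

lemma pb_nonneg {p : ℝ} (h0 : 0 ≤ p) (h1 : p ≤ 1) (b : Bool) : 0 ≤ pb p b := by
  unfold pb; split_ifs <;> linarith

lemma isPV_pe {p : ℝ} (h0 : 0 ≤ p) (h1 : p ≤ 1) : IsPV (pe G p) := by
  refine ⟨fun η => Finset.prod_nonneg fun e _ => pb_nonneg h0 h1 _, ?_⟩
  have := Finset.prod_univ_sum (fun _ : G.edgeSet => (Finset.univ : Finset Bool))
    (fun _ b => pb p b)
  rw [Fintype.piFinset_univ] at this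
  unfold pe
  rw [← this]
  simp [pb]

lemma pe_update (p : ℝ) (η : G.edgeSet → Bool) (e : G.edgeSet) (b : Bool) :
    pe G p (Function.update η e b) * pb p (η e) = pe G p η * pb p b := by
  unfold pe
  rw [← Finset.mul_prod_erase _ _ (Finset.mem_univ e),
    ← Finset.mul_prod_erase _ (fun e => pb p (η e)) (Finset.mem_univ e)]
  have : ∏ x ∈ Finset.univ.erase e, pb p (Function.update η e b x)
      = ∏ x ∈ Finset.univ.erase e, pb p (η x) :=
    Finset.prod_congr rfl fun x hx => by rw [Function.update_of_ne (Finset.ne_of_mem_erase hx)]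
  rw [this, Function.update_self]; ring

lemma sum_pe_open (p : ℝ) (e : G.edgeSet) (F : (G.edgeSet → Bool) → ℝ) :
    ∑ η, pe G p η * (if η e = true then F η else 0)
      = p * ∑ η, pe G p η * F (Function.update η e true) := by
  have := rev_of_invol (q := pb p) (φ := fun (η : G.edgeSet → Bool) b => Function.update η e b)
    (wt := pe G p) (fun η _ => η e) (by simp) (by simp) (fun η b => pe_update G p η e b)
    (fun η _ => if η e = true then F η else 0)
  simp only [Fintype.sum_bool, pb, Function.update_self] at this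
  simp only [if_true, Bool.false_eq_true, if_false, mul_zero, add_zero] at this
  rw [Finset.mul_sum]
  calc _ = _ := Finset.sum_congr rfl fun η _ => by ring
    _ = _ := this
    _ = _ := Finset.sum_congr rfl fun η _ => by ring

variable {μ p : ℝ} {w : V → ℝ}

lemma rate_nonneg (hμ : 0 ≤ μ) (h0 : 0 ≤ p) (h1 : p ≤ 1) (hw : ∀ x, 1 ≤ w x) (m : Mark G) :
    0 ≤ rate G μ p w m := by
  cases m with
  | idle => simp [rate]
  | refresh e b => exact mul_nonneg hμ (pb_nonneg h0 h1 b)
  | jump d => have := hw d.fst; simp only [rate]; positivity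

lemma one_le_totalRate (hμ : 0 ≤ μ) (h0 : 0 ≤ p) (h1 : p ≤ 1) (hw : ∀ x, 1 ≤ w x) :
    1 ≤ totalRate G μ p w :=
  Finset.single_le_sum (f := rate G μ p w) (fun m _ => rate_nonneg G hμ h0 h1 hw m)
    (Finset.mem_univ Mark.idle)

/-- mark probabilities -/
noncomputable def qm (μ p : ℝ) (w : V → ℝ) (m : Mark G) : ℝ := rate G μ p w m / totalRate G μ p w

lemma isPV_qm (hμ : 0 ≤ μ) (h0 : 0 ≤ p) (h1 : p ≤ 1) (hw : ∀ x, 1 ≤ w x) : IsPV (qm G μ p w) := by
  have := one_le_totalRate G hμ h0 h1 hw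
  refine ⟨fun m => div_nonneg (rate_nonneg G hμ h0 h1 hw m) (by linarith), ?_⟩
  simp only [qm, ← Finset.sum_div]
  exact div_self (by unfold totalRate at this; linarith)

/-- reversed mark -/
def rvm (z : V × (G.edgeSet → Bool)) : Mark G → Mark G
  | .idle => .idle
  | .refresh e _ => .refresh e (z.2 e)
  | .jump d => if z.1 = d.fst ∧ z.2 ⟨d.edge, d.edge_mem⟩ = true then .jump d.symm else .jump d

lemma rev_step (hw : ∀ x, 1 ≤ w x) :
    Rev (qm G μ p w) (step G) (fun z => w z.1 * pe G p z.2) := by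
  refine rev_of_invol (rvm G) ?_ ?_ ?_
  · rintro ⟨x, η⟩ (_ | ⟨e, b⟩ | d)
    · rfl
    · simp [step, rvm]
    · by_cases h : x = d.fst ∧ η ⟨d.edge, d.edge_mem⟩ = true
      · simp [step, rvm, h]
      · simp [step, rvm, h]
  · rintro ⟨x, η⟩ (_ | ⟨e, b⟩ | d)
    · rfl
    · simp [step, rvm]
    · by_cases h : x = d.fst ∧ η ⟨d.edge, d.edge_mem⟩ = true
      · simp [step, rvm, h]
      · simp [step, rvm, h]
  · rintro ⟨x, η⟩ (_ | ⟨e, b⟩ | d)
    · rfl
    · have := pe_update G p η e b
      simp only [step, rvm, qm, rate]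
      unfold pb at this
      calc _ = w x * μ * (pe G p (Function.update η e b) * (if η e = true then p else 1 - p))
            / totalRate G μ p w := by ring
        _ = _ := by rw [this]; ring
    · by_cases h : x = d.fst ∧ η ⟨d.edge, d.edge_mem⟩ = true
      · have h1 := hw d.fst
        have h2 := hw d.snd
        simp only [step, rvm, h, and_self, if_true, qm, rate, SimpleGraph.Dart.symm_toProd,
          Prod.fst_swap]
        field_simp
      · simp [step, rvm, h]

lemma key_ineq (hμ : 0 < μ) (hμ1 : μ ≤ 1) (h0 : 0 < p) (h1 : p ≤ 1) (hw : ∀ x, 1 ≤ w x)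
    (f : V × (G.edgeSet → Bool) → ℝ) :
    ∑ η, pe G p η * En (fun d : G.Dart => d.fst) (fun d => d.snd) (fun x => f (x, η))
      ≤ (6 * totalRate G μ p w / (μ * p)) *
        dir (qm G μ p w) (step G) (fun z => w z.1 * pe G p z.2) f := by
  have hΛ := one_le_totalRate G hμ.le h0.le h1 hw
  have hpe := (isPV_pe G h0.le h1).nonneg
  let Dx : V → G.edgeSet → ℝ := fun x e =>
    p * ∑ η, pe G p η * (f (x, η) - f (x, Function.update η e true)) ^ 2
  let ed : G.Dart → G.edgeSet := fun d => ⟨d.edge, d.edge_mem⟩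
  let J : G.Dart → ℝ := fun d =>
    ∑ η, pe G p η * (if η (ed d) = true then (f (d.fst, η) - f (d.snd, η)) ^ 2 else 0)
  have hDx : ∀ x e, 0 ≤ Dx x e := fun x e =>
    mul_nonneg h0.le (Finset.sum_nonneg fun η _ => mul_nonneg (hpe η) (sq_nonneg _))
  have hJ : ∀ d, 0 ≤ J d := fun d => Finset.sum_nonneg fun η _ => mul_nonneg (hpe η) (by
    split_ifs <;> positivity)
  have e1 : ∀ d : G.Dart, p * ∑ η, pe G p η * (f (d.fst, η) - f (d.snd, η)) ^ 2
      ≤ 3 * (Dx d.fst (ed d) + J d + Dx d.snd (ed d)) := by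
    intro d
    simp only [J, Dx, sum_pe_open]
    rw [← mul_add, ← mul_add, ← Finset.sum_add_distrib, ← Finset.sum_add_distrib, mul_left_comm,
      Finset.mul_sum _ _ 3]
    refine mul_le_mul_of_nonneg_left (Finset.sum_le_sum fun η _ => ?_) h0.le
    rw [← mul_add, ← mul_add, mul_left_comm]
    refine mul_le_mul_of_nonneg_left ?_ (hpe η)
    set a := f (d.fst, η)
    set b := f (d.snd, η)
    set a' := f (d.fst, Function.update η (ed d) true)
    set b' := f (d.snd, Function.update η (ed d) true)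
    nlinarith [sq_nonneg ((a - a') - (a' - b')), sq_nonneg ((a - a') + (b - b')),
      sq_nonneg ((a' - b') + (b - b'))]
  have e2 : ∀ (g : G.Dart → V), Function.Injective (fun d => (g d, ed d)) →
      ∑ d, Dx (g d) (ed d) ≤ ∑ x, ∑ e, Dx x e := by
    intro g hg
    rw [← Fintype.sum_prod_type', ← Finset.sum_image (s := Finset.univ)
      (g := fun d => (g d, ed d)) (f := fun y : V × G.edgeSet => Dx y.1 y.2) hg.injOn]
    exact Finset.sum_le_sum_of_subset_of_nonneg (Finset.subset_univ _) fun y _ _ => hDx _ _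
  have e3 := e2 (fun d => d.fst) (by
    intro d d' h
    simp only [Prod.mk.injEq, ed, Subtype.mk.injEq] at h
    rcases (SimpleGraph.dart_edge_eq_iff _ _).1 h.2 with h' | h'
    · exact h'
    · exfalso
      have := h.1
      rw [h'] at this
      exact d'.fst_ne_snd this.symm)
  have e4 := e2 (fun d => d.snd) (by
    intro d d' h
    simp only [Prod.mk.injEq, ed, Subtype.mk.injEq] at h
    rcases (SimpleGraph.dart_edge_eq_iff _ _).1 h.2 with h' | h'
    · exact h'
    · exfalso
      have := h.1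
      rw [h'] at this
      exact d'.fst_ne_snd this)
  have e5 : μ * ∑ x, ∑ e, Dx x e + ∑ d, J d
      ≤ 2 * totalRate G μ p w * dir (qm G μ p w) (step G) (fun z => w z.1 * pe G p z.2) f := by
    have e6 : 2 * totalRate G μ p w * dir (qm G μ p w) (step G) (fun z => w z.1 * pe G p z.2) f
        = ∑ z : V × (G.edgeSet → Bool), ∑ m,
          w z.1 * pe G p z.2 * rate G μ p w m * (f z - f (step G z m)) ^ 2 := by
      unfold dir qm
      rw [mul_div_assoc', mul_comm 2, mul_assoc, mul_div_assoc, mul_div_cancel_left₀ _ two_ne_zero,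
        Finset.mul_sum]
      refine Finset.sum_congr rfl fun z _ => ?_
      rw [Finset.mul_sum]
      refine Finset.sum_congr rfl fun m _ => ?_
      field_simp
    rw [e6]
    simp only [sum_mark, Finset.sum_add_distrib]
    have e7 : μ * ∑ x, ∑ e, Dx x e ≤ ∑ z : V × (G.edgeSet → Bool), ∑ e, ∑ b,
        w z.1 * pe G p z.2 * rate G μ p w (.refresh e b) * (f z - f (step G z (.refresh e b))) ^ 2 := by
      rw [Fintype.sum_prod_type, Finset.mul_sum]
      refine Finset.sum_le_sum fun x _ => ?_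
      rw [Finset.sum_comm, Finset.mul_sum]
      refine Finset.sum_le_sum fun e _ => ?_
      simp only [Dx, Finset.mul_sum]
      refine Finset.sum_le_sum fun η _ => ?_
      simp only [Fintype.sum_bool, rate, step, if_true, Bool.false_eq_true, if_false]
      have a1 := hw x
      have a2 := hpe η
      have a3 : 0 ≤ w x * pe G p η * (μ * (1 - p)) *
          (f (x, η) - f (x, Function.update η e false)) ^ 2 := by
        have : 0 ≤ 1 - p := by linarith
        positivity
      have a4 : 0 ≤ (w x - 1) * (pe G p η * (μ * p) *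
          (f (x, η) - f (x, Function.update η e true)) ^ 2) := by
        have : 0 ≤ w x - 1 := by linarith
        positivity
      nlinarith
    have e8 : ∑ d, J d ≤ ∑ z : V × (G.edgeSet → Bool), ∑ d,
        w z.1 * pe G p z.2 * rate G μ p w (.jump d) * (f z - f (step G z (.jump d))) ^ 2 := by
      conv_rhs => rw [Finset.sum_comm]
      refine Finset.sum_le_sum fun d _ => ?_
      rw [Fintype.sum_prod_type, Finset.sum_eq_single d.fst]
      · refine le_of_eq (Finset.sum_congr rfl fun η _ => ?_)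
        have a1 := hw d.fst
        by_cases h : η (ed d) = true
        · have h' : η ⟨d.edge, d.edge_mem⟩ = true := h
          simp only [rate, step, h, h', and_self, if_true]
          field_simp
        · have h' : ¬ η ⟨d.edge, d.edge_mem⟩ = true := h
          simp [rate, step, h, h']
      · intro x _ hx
        simp [step, hx]
      · simp
    have e9 : ∑ z : V × (G.edgeSet → Bool),
        w z.1 * pe G p z.2 * rate G μ p w .idle * (f z - f (step G z .idle)) ^ 2 = 0 := by
      simp [step]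
    linarith
  have e10 : ∑ η, pe G p η * En (fun d : G.Dart => d.fst) (fun d => d.snd) (fun x => f (x, η))
      = (∑ d : G.Dart, p * ∑ η, pe G p η * (f (d.fst, η) - f (d.snd, η)) ^ 2) / (2 * p) := by
    rw [← Finset.mul_sum, Finset.sum_comm]
    simp only [En, ← mul_div_assoc, ← Finset.sum_div, ← Finset.mul_sum]
    field_simp
  have e11 : ∑ d : G.Dart, p * ∑ η, pe G p η * (f (d.fst, η) - f (d.snd, η)) ^ 2
      ≤ 3 * (∑ d, Dx d.fst (ed d) + ∑ d, J d + ∑ d, Dx d.snd (ed d)) := by
    rw [← Finset.sum_add_distrib, ← Finset.sum_add_distrib, Finset.mul_sum]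
    exact Finset.sum_le_sum fun d _ => e1 d
  have hJs : 0 ≤ ∑ d, J d := Finset.sum_nonneg fun d _ => hJ d
  rw [e10, div_le_iff₀ (by positivity)]
  have e12 : 6 * totalRate G μ p w / (μ * p) *
      dir (qm G μ p w) (step G) (fun z => w z.1 * pe G p z.2) f * (2 * p)
      = 6 / μ * (2 * totalRate G μ p w *
        dir (qm G μ p w) (step G) (fun z => w z.1 * pe G p z.2) f) := by field_simp
  rw [e12]
  have e13 : 6 / μ * (μ * ∑ x, ∑ e, Dx x e + ∑ d, J d) = 6 * ∑ x, ∑ e, Dx x e
      + 6 / μ * ∑ d, J d := by field_simp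
  have e14 : 3 * ∑ d, J d ≤ 6 / μ * ∑ d, J d := by
    gcongr; rw [le_div_iff₀ hμ]; linarith
  calc _ ≤ 6 / μ * (μ * ∑ x, ∑ e, Dx x e + ∑ d, J d) := by linarith
    _ ≤ _ := by gcongr

/-- environment update -/
def envStep (η : G.edgeSet → Bool) : Mark G → (G.edgeSet → Bool)
  | .refresh e b => Function.update η e b
  | _ => η

theorem dyn_sum_bound (hμ : 0 < μ) (hμ1 : μ ≤ 1) (h0 : 0 < p) (h1 : p ≤ 1) (hw : ∀ x, 1 ≤ w x)
    {d : V → V → ℝ} (hd0 : ∀ u v, 0 ≤ d u v)
    (hd : ∀ (ψ : V → ℝ) u v, (ψ u - ψ v) ^ 2 ≤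
      d u v ^ 2 * En (fun d : G.Dart => d.fst) (fun d => d.snd) ψ)
    {root : V} {D Γ : ℝ} (hch : Chainable d root D Γ) (hD : 0 < D) (hdD : ∀ u v, d u v ≤ D)
    (hΓ : 0 ≤ Γ) (z : V × (G.edgeSet → Bool)) (K : ℕ) :
    ∑ i ∈ Finset.range K, nc (qm G μ p w) (step G) Prod.fst i z
      ≤ totalRate G μ p w / (μ * p) * (14 * Fintype.card V +
        24 * (∑ x, w x) * ((7 * D + 2 * Γ) ^ 2 + 10 * D ^ 2)) := by
  have hΛ := one_le_totalRate G hμ.le h0.le h1 hw
  set Λ := totalRate G μ p w with hΛdef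
  have hq := isPV_qm G hμ.le h0.le h1 hw
  set c := √(6 * Λ / (μ * p)) with hc
  have hc2 : c ^ 2 = 6 * Λ / (μ * p) := Real.sq_sqrt (by positivity)
  have S : Setting (qm G μ p w) (step G) w (pe G p) (fun d : G.Dart => d.fst) (fun d => d.snd)
      d c := ⟨hq, isPV_pe G h0.le h1, fun x => by linarith [hw x], rev_step G hw,
        Real.sqrt_pos.2 (by positivity), hd, hd0,
        fun f => by rw [hc2]; exact key_ineq G hμ hμ1 h0 h1 hw f⟩
  have hW : 0 ≤ ∑ x, w x := Finset.sum_nonneg fun x _ => by linarith [hw x]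
  have hn1 : (1 : ℝ) ≤ Fintype.card V := by
    exact_mod_cast Fintype.card_pos_iff.2 ⟨root⟩
  set n := (Fintype.card V : ℝ) with hn
  let ds : (G.edgeSet → Bool) → (G.edgeSet → Bool) → ℝ := fun η η' =>
    ∑ e, if η e = η' e then 0 else 1
  have hμΛ : μ / Λ ≤ 1 := by rw [div_le_one (by linarith)]; linarith
  have hhalf := S.cover_half hch hD hdD hΓ (n0 := ⌈4 * n * Λ / μ⌉₊) (Nat.le_ceil _)
    (Nat.le_ceil _) (envStep G)
    (by rintro ⟨x, η⟩ (_ | _ | d) <;> simp only [step, envStep]; split_ifs <;> rfl)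
    ds (fun η η' => Finset.sum_nonneg fun e _ => by split_ifs <;> simp)
    (fun η η' hne => by
      obtain ⟨e, he⟩ := Function.ne_iff.1 hne
      have := Finset.single_le_sum (f := fun e => if η e = η' e then (0 : ℝ) else 1)
        (fun e _ => by split_ifs <;> simp) (Finset.mem_univ e)
      simpa [he] using this)
    (r := 1 - μ / Λ) (by linarith)
    (fun η η' => by
      have a1 : ∀ m, qm G μ p w m * ds (envStep G η m) (envStep G η' m)
          = qm G μ p w m * ds η η' - qm G μ p w m *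
            (ds η η' - ds (envStep G η m) (envStep G η' m)) := fun m => by ring
      simp only [a1, Finset.sum_sub_distrib, ← Finset.sum_mul, hq.sum]
      rw [sum_mark]
      have a2 : ∀ e b, ds η η' - ds (envStep G η (.refresh e b)) (envStep G η' (.refresh e b))
          = if η e = η' e then 0 else 1 := by
        intro e b
        simp only [ds, envStep]
        rw [← Finset.sum_sub_distrib, Finset.sum_eq_single e]
        · simp
        · intro e' _ he'; simp [Function.update_of_ne he']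
        · simp
      simp only [a2]
      simp only [envStep, sub_self, mul_zero, Finset.sum_const_zero, add_zero, zero_add, qm, rate,
        Fintype.sum_bool, if_true, Bool.false_eq_true, if_false]
      have a3 : μ / Λ * ds η η' = ∑ e, ((μ * p / Λ * if η e = η' e then 0 else 1)
          + μ * (1 - p) / Λ * if η e = η' e then 0 else 1) := by
        simp only [ds, Finset.mul_sum]
        exact Finset.sum_congr rfl fun e _ => by ring
      rw [← hΛdef, ← a3]; linarith)
    (fun η η' => by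
      have a1 : ds η η' ≤ n ^ 2 := by
        calc ds η η' ≤ ∑ _e : G.edgeSet, (1 : ℝ) :=
              Finset.sum_le_sum fun e _ => by split_ifs <;> simp
          _ = G.edgeFinset.card := by simp [SimpleGraph.edgeFinset_card]
          _ ≤ n ^ 2 := by
              have := G.card_edgeFinset_le_card_choose_two
              have b := Nat.choose_le_pow (Fintype.card V) 2
              rw [hn]; exact_mod_cast this.trans b
      have a2 : (1 - μ / Λ) ^ ⌈4 * n * Λ / μ⌉₊ ≤ exp (-(4 * n)) := by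
        calc _ ≤ exp (-(μ / Λ)) ^ ⌈4 * n * Λ / μ⌉₊ := by
              have := Real.add_one_le_exp (-(μ / Λ))
              exact pow_le_pow_left₀ (by linarith) (by linarith) _
          _ = exp (⌈4 * n * Λ / μ⌉₊ * -(μ / Λ)) := by rw [← Real.exp_nat_mul]
          _ ≤ _ := by
              apply Real.exp_le_exp.2
              have b1 := Nat.le_ceil (4 * n * Λ / μ)
              have b2 : 4 * n * Λ / μ * (μ / Λ) ≤ ⌈4 * n * Λ / μ⌉₊ * (μ / Λ) := by gcongr
              have b3 : 4 * n * Λ / μ * (μ / Λ) = 4 * n := by field_simp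
              linarith
      have a3 : exp (-(4 * n)) * n ^ 2 ≤ 1 / 4 := by
        have b1 := Real.add_one_le_exp (2 * n)
        have b2 : (2 * n) ^ 2 ≤ exp (2 * n) ^ 2 := by gcongr; linarith
        rw [← Real.exp_nat_mul] at b2
        rw [Real.exp_neg, inv_mul_le_iff₀ (exp_pos _)]
        have : ((2 : ℕ) : ℝ) * (2 * n) = 4 * n := by push_cast; ring
        rw [this] at b2
        linarith
      calc _ ≤ exp (-(4 * n)) * n ^ 2 := by
            gcongr
        _ ≤ _ := a3)
  refine (hq.sum_nc_le _ _ hhalf K z).trans ?_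
  push_cast
  have b1 := (Nat.ceil_lt_add_one (a := 4 * n * Λ / μ) (by positivity)).le
  have b2 := (Nat.ceil_lt_add_one (a := (∑ x, w x) * c ^ 2 * D ^ 2) (by positivity)).le
  have b3 := (Nat.ceil_lt_add_one (a := 2 * (∑ x, w x) * c ^ 2 * ((7 * D + 2 * Γ) ^ 2 + 9 * D ^ 2))
    (by positivity)).le
  set L := Λ / (μ * p) with hL
  have hμp : μ * p ≤ 1 := mul_le_one₀ hμ1 h0.le h1
  have hL1 : 1 ≤ L := by rw [hL, le_div_iff₀ (by positivity)]; linarith
  have b4 : 4 * n * Λ / μ ≤ 4 * n * L := by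
    rw [mul_div_assoc, hL]
    gcongr
    nlinarith
  have b5 : c ^ 2 = 6 * L := by rw [hc2, hL]; ring
  rw [b5] at b2 b3 ⊢
  have b6 : 1 ≤ L * n := by nlinarith
  have b7 : 0 ≤ L * ((∑ x, w x) * D ^ 2) := by positivity
  nlinarith

end Pool.Agent.MP_6504f0_pr

end MrgPart4

-- ======== part 5: formerly Pool.Agent.MP_6504f0_pr.Ising
section MrgPart5

set_option autoImplicit false
set_option linter.unusedSectionVars false

open Real

namespace Pool.Agent.MP_6504f0_pr

variable {V Ed : Type*} [Fintype V] [DecidableEq V] [Fintype Ed] [DecidableEq Ed]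

/-- extension of a function on the non-root vertices -/
def ext (o : V) (u : ℝ) (ζ : {x : V // x ≠ o} → ℝ) (x : V) : ℝ :=
  if h : x = o then u else ζ ⟨x, h⟩

/-- sign attached to a Boolean -/
def sgn (b : Bool) : ℝ := if b then 1 else -1

/-- spin configuration with plus at the root -/
def sg (o : V) (σ : {x : V // x ≠ o} → Bool) : V → ℝ := ext o 1 (fun i => sgn (σ i))

/-- `y` is joined to the root by edges of `A`. -/
def Reach (src tgt : Ed → V) (o : V) (A : Finset Ed) (y : V) : Prop :=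
  ∀ P : V → Prop, P o → (∀ e ∈ A, (P (src e) ↔ P (tgt e))) → P y

/-- `A` joins every vertex to the root. -/
def Conn (src tgt : Ed → V) (o : V) (A : Finset Ed) : Prop := ∀ y, Reach src tgt o A y

variable {src tgt : Ed → V} {o : V}

lemma Reach.mono {A A' : Finset Ed} {y : V} (h : Reach src tgt o A y) (hA : A ⊆ A') :
    Reach src tgt o A' y := fun P h0 h1 => h P h0 fun e he => h1 e (hA he)

lemma Conn.mono {A A' : Finset Ed} (h : Conn src tgt o A) (hA : A ⊆ A') : Conn src tgt o A' :=
  fun y => (h y).mono hA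

lemma sg_cases (σ : {x : V // x ≠ o} → Bool) (x : V) : sg o σ x = 1 ∨ sg o σ x = -1 := by
  unfold sg ext
  split_ifs with h
  · simp
  · cases hσ : σ ⟨x, h⟩ <;> simp [sgn, hσ]

/-- monomial in the spins -/
def mon (k : {x : V // x ≠ o} → ℕ) (σ : {x : V // x ≠ o} → Bool) : ℝ := ∏ i, sgn (σ i) ^ k i

lemma mon_add (k k' : {x : V // x ≠ o} → ℕ) (σ : {x : V // x ≠ o} → Bool) :
    mon (k + k') σ = mon k σ * mon k' σ := by
  simp [mon, pow_add, Finset.prod_mul_distrib]

lemma sg_eq_mon (x : V) : ∃ k : {x : V // x ≠ o} → ℕ, ∀ σ, sg o σ x = mon k σ := by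
  by_cases h : x = o
  · exact ⟨0, fun σ => by simp [sg, ext, h, mon]⟩
  · refine ⟨Pi.single ⟨x, h⟩ 1, fun σ => ?_⟩
    rw [mon, Finset.prod_eq_single ⟨x, h⟩]
    · simp [sg, ext, h]
    · intro i _ hi; simp [Pi.single_eq_of_ne hi]
    · simp

lemma sum_mon_nonneg (k : {x : V // x ≠ o} → ℕ) : 0 ≤ ∑ σ, mon k σ := by
  have := Finset.prod_univ_sum (fun _ : {x : V // x ≠ o} => (Finset.univ : Finset Bool))
    (fun i b => sgn b ^ k i)
  rw [Fintype.piFinset_univ] at this
  unfold mon
  rw [← this]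
  refine Finset.prod_nonneg fun i _ => ?_
  simp only [Fintype.sum_bool, sgn, if_true, one_pow, Bool.false_eq_true, if_false]
  rcases neg_one_pow_eq_or ℝ (k i) with h | h <;> rw [h] <;> norm_num

lemma griffiths (J : Ed → ℝ) (hJ : ∀ e, 0 ≤ J e) (A : Finset Ed) :
    0 ≤ ∑ σ, ∏ e ∈ A, (exp (sg o σ (src e) * sg o σ (tgt e) * J e) - 1) := by
  have key : ∀ k : {x : V // x ≠ o} → ℕ,
      0 ≤ ∑ σ, mon k σ * ∏ e ∈ A, (exp (sg o σ (src e) * sg o σ (tgt e) * J e) - 1) := by
    induction A using Finset.induction_on with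
    | empty => intro k; simpa using sum_mon_nonneg k
    | insert e A he ih =>
      intro k
      obtain ⟨k1, h1⟩ := sg_eq_mon (o := o) (src e)
      obtain ⟨k2, h2⟩ := sg_eq_mon (o := o) (tgt e)
      have e1 : ∀ σ, exp (sg o σ (src e) * sg o σ (tgt e) * J e) - 1
          = (cosh (J e) - 1) + sinh (J e) * (mon k1 σ * mon k2 σ) := by
        intro σ
        rw [← h1, ← h2]
        have a1 := Real.cosh_add_sinh (J e)
        have a2 := Real.cosh_sub_sinh (J e)
        rcases sg_cases σ (src e) with h | h <;> rcases sg_cases σ (tgt e) with h' | h' <;>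
          simp only [h, h', mul_neg, neg_mul, mul_one, one_mul, neg_neg] <;> linarith
      have e2 : ∑ σ, mon k σ * ∏ e ∈ insert e A, (exp (sg o σ (src e) * sg o σ (tgt e) * J e) - 1)
          = (cosh (J e) - 1) *
              ∑ σ, mon k σ * ∏ e ∈ A, (exp (sg o σ (src e) * sg o σ (tgt e) * J e) - 1)
            + sinh (J e) * ∑ σ, mon (k + (k1 + k2)) σ *
              ∏ e ∈ A, (exp (sg o σ (src e) * sg o σ (tgt e) * J e) - 1) := by
        rw [Finset.mul_sum, Finset.mul_sum, ← Finset.sum_add_distrib]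
        refine Finset.sum_congr rfl fun σ _ => ?_
        rw [Finset.prod_insert he, e1, mon_add, mon_add]; ring
      rw [e2]
      have := Real.one_le_cosh (J e)
      have := Real.sinh_nonneg_iff.2 (hJ e)
      exact add_nonneg (mul_nonneg (by linarith) (ih k)) (mul_nonneg this (ih _))
  simpa [mon] using key 0

open Classical in
lemma fk_bound (J : Ed → ℝ) (hJ : ∀ e, 0 ≤ J e) :
    ∑ A : Finset Ed, (if Conn src tgt o A then 1 else 0) *
      ∑ σ, ∏ e ∈ A, (exp (sg o σ (src e) * sg o σ (tgt e) * J e) - 1) ≤ ∏ e, exp (J e) := by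
  set y : ({x : V // x ≠ o} → Bool) → Ed → ℝ :=
    fun σ e => exp (sg o σ (src e) * sg o σ (tgt e) * J e) - 1 with hy
  set r : Ed → ℝ := fun e => 1 - exp (-J e) with hr
  have hr0 : ∀ e, 0 ≤ r e := fun e => by
    have := Real.exp_le_one_iff.2 (neg_nonpos.2 (hJ e)); simp only [hr]; linarith
  have hr1 : ∀ e, 0 ≤ 1 - r e := fun e => by simp only [hr]; have := exp_pos (-J e); linarith
  have hw := fun A => griffiths (src := src) (tgt := tgt) (o := o) J hJ A
  have e1 : ∀ A : Finset Ed, ∑ ω : Finset Ed,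
      (if A ⊆ ω then (∏ e ∈ ω \ A, r e) * ∏ e ∈ Finset.univ \ ω, (1 - r e) else 0) = 1 := by
    intro A
    have := Finset.prod_add (fun e => if e ∈ A then 1 else r e)
      (fun e => if e ∈ A then 0 else 1 - r e) Finset.univ
    rw [Finset.prod_eq_one (fun e _ => by split_ifs <;> simp), Finset.powerset_univ] at this
    refine Eq.trans ?_ this.symm
    refine Finset.sum_congr rfl fun ω _ => ?_
    split_ifs with h
    · congr 1
      · rw [Finset.prod_ite, Finset.prod_const_one, one_mul, Finset.sdiff_eq_filter]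
      · refine Finset.prod_congr rfl fun e he => ?_
        rw [if_neg fun h' => (Finset.mem_sdiff.1 he).2 (h h')]
    · obtain ⟨e, heA, heω⟩ := Finset.not_subset.1 h
      rw [Finset.prod_eq_zero (i := e) (s := Finset.univ \ ω) (by simp [heω]) (by simp [heA]),
        mul_zero]
  have e2 : ∀ ω : Finset Ed, ∑ σ, ∏ e ∈ ω, (y σ e + r e) = ∑ A : Finset Ed,
      (if A ⊆ ω then (∑ σ, ∏ e ∈ A, y σ e) * ∏ e ∈ ω \ A, r e else 0) := by
    intro ω
    simp only [Finset.prod_add]
    rw [Finset.sum_comm, ← Finset.sum_filter]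
    refine Finset.sum_congr (by ext A; simp) fun A _ => ?_
    rw [Finset.sum_mul]
  have e3 : ∀ ω : Finset Ed, Conn src tgt o ω →
      ∑ σ, ∏ e ∈ ω, (y σ e + r e) = ∏ e ∈ ω, (exp (J e) - exp (-J e)) := by
    intro ω hω
    rw [Finset.sum_eq_single (fun _ => true)]
    · refine Finset.prod_congr rfl fun e _ => ?_
      have : ∀ x, sg o (fun _ => true) x = 1 := fun x => by simp [sg, ext, sgn]
      simp [hy, hr, this]
    · intro σ _ hσ
      by_contra hne
      apply hσ
      have h1 : ∀ x, sg o σ x = 1 := by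
        intro x
        refine hω x (fun x => sg o σ x = 1) (by simp [sg, ext]) fun e he => ?_
        have h2 := Finset.prod_ne_zero_iff.1 hne e he
        rcases sg_cases σ (src e) with h | h <;> rcases sg_cases σ (tgt e) with h' | h' <;>
          simp [hy, hr, h, h'] at h2 ⊢
      ext i
      have := h1 i.1
      simp only [sg, ext, i.2, dite_false, sgn] at this
      split_ifs at this with h
      · simpa using h
      · norm_num at this
    · simp
  calc _ = ∑ A : Finset Ed, ∑ ω : Finset Ed, (if Conn src tgt o A then 1 else 0) *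
        (∑ σ, ∏ e ∈ A, y σ e) *
        (if A ⊆ ω then (∏ e ∈ ω \ A, r e) * ∏ e ∈ Finset.univ \ ω, (1 - r e) else 0) := by
        refine Finset.sum_congr rfl fun A _ => ?_
        rw [← Finset.mul_sum, e1, mul_one]
    _ ≤ ∑ A : Finset Ed, ∑ ω : Finset Ed, (if Conn src tgt o ω then 1 else 0) *
        (∑ σ, ∏ e ∈ A, y σ e) *
        (if A ⊆ ω then (∏ e ∈ ω \ A, r e) * ∏ e ∈ Finset.univ \ ω, (1 - r e) else 0) := by
        refine Finset.sum_le_sum fun A _ => Finset.sum_le_sum fun ω _ => ?_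
        by_cases h : A ⊆ ω
        · refine mul_le_mul_of_nonneg_right (mul_le_mul_of_nonneg_right ?_ (hw A)) ?_
          · by_cases hA : Conn src tgt o A
            · simp [hA, hA.mono h]
            · simp only [hA, if_false]; split_ifs <;> simp
          · simp only [h, if_true]
            exact mul_nonneg (Finset.prod_nonneg fun e _ => hr0 e)
              (Finset.prod_nonneg fun e _ => hr1 e)
        · simp [h]
    _ = ∑ ω : Finset Ed, (if Conn src tgt o ω then 1 else 0) * (∑ σ, ∏ e ∈ ω, (y σ e + r e)) *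
        ∏ e ∈ Finset.univ \ ω, (1 - r e) := by
        rw [Finset.sum_comm]
        refine Finset.sum_congr rfl fun ω _ => ?_
        rw [e2, Finset.mul_sum, Finset.sum_mul]
        refine Finset.sum_congr rfl fun A _ => ?_
        split_ifs <;> ring
    _ ≤ ∑ ω : Finset Ed, (∏ e ∈ ω, (exp (J e) - exp (-J e))) *
        ∏ e ∈ Finset.univ \ ω, exp (-J e) := by
        refine Finset.sum_le_sum fun ω _ => ?_
        have a1 : ∏ e ∈ Finset.univ \ ω, (1 - r e) = ∏ e ∈ Finset.univ \ ω, exp (-J e) :=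
          Finset.prod_congr rfl fun e _ => by simp [hr]
        rw [a1]
        refine mul_le_mul_of_nonneg_right ?_ (Finset.prod_nonneg fun e _ => (exp_pos _).le)
        split_ifs with h
        · rw [e3 ω h, one_mul]
        · rw [zero_mul]
          refine Finset.prod_nonneg fun e _ => ?_
          have := Real.exp_le_exp.2 (show -J e ≤ J e by linarith [hJ e])
          linarith
    _ = _ := by
        have := Finset.prod_add (fun e => exp (J e) - exp (-J e)) (fun e => exp (-J e)) Finset.univ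
        rw [Finset.powerset_univ] at this
        rw [← this]
        simp

lemma exists_span (f : Finset Ed → ℝ) :
    ∃ c : Finset Ed → ℝ, ∀ A, f A = ∑ S, c S * (if A ⊆ S then 1 else 0) := by
  let L : (Finset Ed → ℝ) →ₗ[ℝ] (Finset Ed → ℝ) :=
    { toFun := fun c A => ∑ S, c S * (if A ⊆ S then 1 else 0)
      map_add' := fun c c' => by
        ext A; simp only [Pi.add_apply, add_mul, Finset.sum_add_distrib]
      map_smul' := fun t c => by
        ext A; simp only [Pi.smul_apply, smul_eq_mul, RingHom.id_apply, Finset.mul_sum, mul_assoc] }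
  have hinj : Function.Injective L := by
    rw [← LinearMap.ker_eq_bot, LinearMap.ker_eq_bot']
    intro c hc
    by_contra hne
    obtain ⟨S0, hS0⟩ := Function.ne_iff.1 hne
    obtain ⟨A, hA, hmax⟩ := Finset.exists_max_image (Finset.univ.filter fun S => c S ≠ 0)
      Finset.card ⟨S0, by simpa using hS0⟩
    have h1 : ∑ S, c S * (if A ⊆ S then 1 else 0) = 0 := congrFun hc A
    rw [Finset.sum_eq_single A] at h1
    · simp at h1 hA; exact hA h1
    · intro S _ hS
      by_cases h : A ⊆ S
      · by_contra h2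
        have h3 : c S ≠ 0 := left_ne_zero_of_mul h2
        exact hS (Finset.eq_of_subset_of_card_le h (hmax S (by simpa using h3))).symm
      · simp [h]
    · simp
  obtain ⟨c, hc⟩ := LinearMap.injective_iff_surjective.1 hinj f
  exact ⟨c, fun A => (congrFun hc A).symm⟩

end Pool.Agent.MP_6504f0_pr

end MrgPart5

-- marker of a merged file
example : 731051 + 517726 = 731051 + 517726 := rfl
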