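import Mathlib.Algebra.Ring.IsFormallyReal
import Pool.Agent.MP_6504f0_pr.Ising

-- ======== part 0: formerly Pool.Agent.MP_6504f0_pr.Net
section MrgPart0

set_option autoImplicit false
set_option linter.unusedSectionVars false

open Real

namespace Pool.Agent.MP_6504f0_pr

variable {V Ed : Type*} [Fintype V] [DecidableEq V] [Fintype Ed] [DecidableEq Ed]

/-- Half the sum over the edge ends at `x`. -/
noncomputable def nb (src tgt : Ed → V) (x : V) (F : Ed → V → ℝ) : ℝ :=
  (∑ e, ((if src e = x then F e (tgt e) else 0) + (if tgt e = x then F e (src e) else 0))) / 2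

/-- degree -/
noncomputable def dg (src tgt : Ed → V) (x : V) : ℝ := nb src tgt x (fun _ _ => 1)

/-- indicator -/
def ind (S : Finset Ed) (e : Ed) : ℝ := if e ∈ S then 1 else 0

/-- energy form keeping only the off-diagonal terms of the edges in `S` -/
noncomputable def BS (src tgt : Ed → V) (S : Finset Ed) (ζ ψ : V → ℝ) : ℝ :=
  (∑ e, ((ζ (src e) * ψ (src e) + ζ (tgt e) * ψ (tgt e))
    - ind S e * (ζ (src e) * ψ (tgt e) + ζ (tgt e) * ψ (src e)))) / 2

/-- the associated operator -/
noncomputable def LS (src tgt : Ed → V) (S : Finset Ed) (ψ : V → ℝ) (x : V) : ℝ :=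
  dg src tgt x * ψ x - nb src tgt x (fun e y => ind S e * ψ y)

variable {src tgt : Ed → V} {o : V}

lemma nb_mono {x : V} {F F' : Ed → V → ℝ} (h1 : ∀ e, src e = x → F e (tgt e) ≤ F' e (tgt e))
    (h2 : ∀ e, tgt e = x → F e (src e) ≤ F' e (src e)) : nb src tgt x F ≤ nb src tgt x F' := by
  unfold nb
  gcongr with e
  · split_ifs with h
    · exact h1 e h
    · exact le_rfl
  · split_ifs with h
    · exact h2 e h
    · exact le_rfl

lemma nb_lin (x : V) (a b : ℝ) (F F' : Ed → V → ℝ) :
    nb src tgt x (fun e y => a * F e y + b * F' e y) = a * nb src tgt x F + b * nb src tgt x F' := by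
  unfold nb
  rw [← mul_div_assoc, ← mul_div_assoc, ← add_div, Finset.mul_sum, Finset.mul_sum,
    ← Finset.sum_add_distrib]
  congr 1
  refine Finset.sum_congr rfl fun e _ => ?_
  split_ifs <;> ring

lemma nb_const (x : V) (c : ℝ) : nb src tgt x (fun _ _ => c) = dg src tgt x * c := by
  have := nb_lin (src := src) (tgt := tgt) x c 0 (fun _ _ => 1) (fun _ _ => 1)
  simp only [mul_one, add_zero, zero_mul] at this
  rw [this, dg, mul_comm]

lemma nb_sum {κ : Type*} (s : Finset κ) (x : V) (c : κ → ℝ) (F : κ → Ed → V → ℝ) :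
    nb src tgt x (fun e y => ∑ k ∈ s, c k * F k e y) = ∑ k ∈ s, c k * nb src tgt x (F k) := by
  classical
  induction s using Finset.induction_on with
  | empty => simpa using nb_const (src := src) (tgt := tgt) x 0
  | insert k s hk ih =>
    simp only [Finset.sum_insert hk]
    have := nb_lin (src := src) (tgt := tgt) x (c k) 1 (F k) (fun e y => ∑ k ∈ s, c k * F k e y)
    simp only [one_mul] at this
    rw [this, ih]

lemma nb_ge {x : V} {F : Ed → V → ℝ} (hF : ∀ e y, 0 ≤ F e y) (e : Ed) :
    (src e = x → F e (tgt e) ≤ 2 * nb src tgt x F) ∧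
      (tgt e = x → F e (src e) ≤ 2 * nb src tgt x F) := by
  have h0 : ∀ e, 0 ≤ (if src e = x then F e (tgt e) else 0) := fun e => by
    split_ifs; exacts [hF _ _, le_rfl]
  have h1 : ∀ e, 0 ≤ (if tgt e = x then F e (src e) else 0) := fun e => by
    split_ifs; exacts [hF _ _, le_rfl]
  have := Finset.single_le_sum (f := fun e => (if src e = x then F e (tgt e) else 0)
    + (if tgt e = x then F e (src e) else 0)) (fun e _ => add_nonneg (h0 e) (h1 e))
    (Finset.mem_univ e)
  have a0 := h0 e
  have a1 := h1 e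
  unfold nb
  constructor
  · intro h; simp only [h, if_true] at this a0 a1 ⊢; linarith
  · intro h; simp only [h, if_true] at this a0 a1 ⊢; linarith

lemma dg_nonneg (x : V) : 0 ≤ dg src tgt x := by
  have := nb_mono (src := src) (tgt := tgt) (x := x) (F := fun _ _ => 0) (F' := fun _ _ => 1)
    (by simp) (by simp)
  rwa [nb_const, mul_zero] at this

lemma sum_mul_nb (g : V → ℝ) (F : Ed → V → ℝ) :
    ∑ x, g x * nb src tgt x F = (∑ e, (g (src e) * F e (tgt e) + g (tgt e) * F e (src e))) / 2 := by
  simp only [nb, ← mul_div_assoc, ← Finset.sum_div, Finset.mul_sum]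
  rw [Finset.sum_comm]
  congr 1
  refine Finset.sum_congr rfl fun e _ => ?_
  simp [mul_add, Finset.sum_add_distrib]

lemma BS_eq_sum (S : Finset Ed) (ζ ψ : V → ℝ) :
    BS src tgt S ζ ψ = ∑ x, ζ x * LS src tgt S ψ x := by
  simp only [LS, mul_sub, Finset.sum_sub_distrib, sum_mul_nb]
  have := sum_mul_nb (src := src) (tgt := tgt) (fun x => ζ x * ψ x) (fun _ _ => 1)
  have e : ∑ x, ζ x * (dg src tgt x * ψ x) = ∑ x, ζ x * ψ x * nb src tgt x (fun _ _ => 1) :=
    Finset.sum_congr rfl fun x _ => by rw [dg]; ring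
  rw [e, this, BS, ← sub_div, ← Finset.sum_sub_distrib]
  congr 1
  exact Finset.sum_congr rfl fun e _ => by ring

lemma BS_symm (S : Finset Ed) (ζ ψ : V → ℝ) : BS src tgt S ζ ψ = BS src tgt S ψ ζ := by
  unfold BS; congr 1; exact Finset.sum_congr rfl fun e _ => by ring

lemma BS_lin (S : Finset Ed) (a b : ℝ) (ζ ζ' ψ : V → ℝ) :
    BS src tgt S (fun x => a * ζ x + b * ζ' x) ψ = a * BS src tgt S ζ ψ + b * BS src tgt S ζ' ψ := by
  simp only [BS_eq_sum, Finset.mul_sum, ← Finset.sum_add_distrib]
  exact Finset.sum_congr rfl fun e _ => by ring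

lemma En_le_BS (S : Finset Ed) (ψ : V → ℝ) : En src tgt ψ ≤ 2 * BS src tgt S ψ ψ := by
  unfold En BS
  rw [← mul_div_assoc, Finset.mul_sum]
  gcongr with e
  unfold ind
  split_ifs
  · nlinarith [sq_nonneg (ψ (src e) - ψ (tgt e))]
  · nlinarith [sq_nonneg (ψ (src e) + ψ (tgt e))]

lemma BS_univ (ψ : V → ℝ) : BS src tgt Finset.univ ψ ψ = En src tgt ψ := by
  unfold En BS; congr 1; exact Finset.sum_congr rfl fun e _ => by simp [ind]; ring

lemma ext_lin (a b u u' : ℝ) (ζ ζ' : {x : V // x ≠ o} → ℝ) :
    ext o (a * u + b * u') (a • ζ + b • ζ') = fun x => a * ext o u ζ x + b * ext o u' ζ' x := by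
  ext x; unfold ext; split_ifs <;> simp

lemma ext_root (u : ℝ) (ζ : {x : V // x ≠ o} → ℝ) : ext o u ζ o = u := by simp [ext]

lemma ext_coe (u : ℝ) (ζ : {x : V // x ≠ o} → ℝ) (i : {x : V // x ≠ o}) : ext o u ζ i = ζ i := by
  simp [ext, i.2]

/-- the energy form on functions vanishing at the root -/
noncomputable def Bf (src tgt : Ed → V) (o : V) (S : Finset Ed) :
    LinearMap.BilinForm ℝ ({x : V // x ≠ o} → ℝ) :=
  LinearMap.mk₂ ℝ (fun ζ ψ => BS src tgt S (ext o 0 ζ) (ext o 0 ψ))
    (fun ζ ζ' ψ => by
      have := ext_lin (o := o) 1 1 0 0 ζ ζ'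
      simp only [mul_zero, add_zero, one_smul] at this
      rw [this, BS_lin]; ring)
    (fun c ζ ψ => by
      have := ext_lin (o := o) c 0 0 0 ζ ζ
      simp only [mul_zero, add_zero, zero_smul] at this
      rw [this, BS_lin]; simp)
    (fun ψ ζ ζ' => by
      have := ext_lin (o := o) 1 1 0 0 ζ ζ'
      simp only [mul_zero, add_zero, one_smul] at this
      rw [this, BS_symm, BS_lin, BS_symm S (ext o 0 ψ), BS_symm S (ext o 0 ψ)]; ring)
    (fun c ψ ζ => by
      have := ext_lin (o := o) c 0 0 0 ζ ζ
      simp only [mul_zero, add_zero, zero_smul] at this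
      rw [this, BS_symm, BS_lin, BS_symm]; simp)

lemma Bf_apply (S : Finset Ed) (ζ ψ : {x : V // x ≠ o} → ℝ) :
    Bf src tgt o S ζ ψ = BS src tgt S (ext o 0 ζ) (ext o 0 ψ) := rfl

lemma pd_Bf (hc : Conn src tgt o Finset.univ) (S : Finset Ed) : PD (Bf src tgt o S) := by
  refine ⟨fun x y => BS_symm _ _ _, fun ζ hζ => ?_⟩
  have h1 := En_le_BS (src := src) (tgt := tgt) S (ext o 0 ζ)
  have h2 := En_nonneg src tgt (ext o 0 ζ)
  rw [Bf_apply]
  by_contra hle
  have h3 : En src tgt (ext o 0 ζ) = 0 := by linarith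
  unfold En at h3
  rw [div_eq_zero_iff, or_iff_left two_ne_zero,
    Finset.sum_eq_zero_iff_of_nonneg (fun e _ => sq_nonneg _)] at h3
  apply hζ
  ext i
  rw [← ext_coe 0 ζ i]
  refine hc i.1 (fun x => ext o 0 ζ x = 0) (ext_root _ _) fun e he => ?_
  have := h3 e he
  rw [sq_eq_zero_iff, sub_eq_zero] at this
  simp only [this]

lemma BS_single (S : Finset Ed) (x : V) (ψ : V → ℝ) :
    BS src tgt S (Pi.single x 1) ψ = LS src tgt S ψ x := by
  rw [BS_eq_sum, Finset.sum_eq_single x]
  · simp
  · intro y _ hy; simp [Pi.single_eq_of_ne hy]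
  · simp

lemma ext_single (i : {x : V // x ≠ o}) : ext o 0 (Pi.single i 1) = Pi.single i.1 1 := by
  ext x
  unfold ext
  split_ifs with h
  · rw [h, Pi.single_eq_of_ne (Ne.symm i.2)]
  · by_cases h' : x = i.1
    · subst h'; simp
    · rw [Pi.single_eq_of_ne h', Pi.single_eq_of_ne (fun h'' => h' (congrArg Subtype.val h''))]

/-- solving the Dirichlet problem -/
lemma exists_sol (hc : Conn src tgt o Finset.univ) (S : Finset Ed) (u : ℝ) (f : V → ℝ) :
    ∃ v : {x : V // x ≠ o} → ℝ, ∀ x, x ≠ o → LS src tgt S (ext o u v) x = f x := by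
  let L : ({x : V // x ≠ o} → ℝ) →ₗ[ℝ] ℝ :=
    { toFun := fun ζ => ∑ i, ζ i * (f i - LS src tgt S (ext o u 0) i)
      map_add' := fun ζ ζ' => by simp only [Pi.add_apply, add_mul, Finset.sum_add_distrib]
      map_smul' := fun c ζ => by
        simp only [Pi.smul_apply, smul_eq_mul, RingHom.id_apply, Finset.mul_sum, mul_assoc] }
  obtain ⟨v, hv⟩ := (pd_Bf hc S).riesz L
  refine ⟨v, fun x hx => ?_⟩
  have h1 := hv (Pi.single ⟨x, hx⟩ 1)
  rw [Bf_apply, ext_single, BS_symm, BS_single] at h1
  have h2 : L (Pi.single ⟨x, hx⟩ 1) = f x - LS src tgt S (ext o u 0) x := by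
    change ∑ i, _ = _
    rw [Finset.sum_eq_single ⟨x, hx⟩]
    · simp
    · intro y _ hy; simp [Pi.single_eq_of_ne hy]
    · simp
  have h3 := ext_lin (o := o) 1 1 u 0 0 v
  simp only [mul_zero, add_zero, one_smul, zero_add, one_mul u] at h3
  rw [h3, ← BS_single, BS_symm, BS_lin, BS_symm, BS_single, BS_symm, BS_single]
  simp only at h1
  linarith

/-- the operator of the killed walk that records the edges it uses -/
noncomputable def TU (src tgt : Ed → V) (o : V) (l : ℝ) (U : V → Finset Ed → ℝ) (x : V)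
    (A : Finset Ed) : ℝ :=
  (dg src tgt x + if x = o then l else 0) * U x A - nb src tgt x (fun e y => U y (insert e A))

/-- maximum principle -/
lemma max_principle (hc : Conn src tgt o Finset.univ) {l : ℝ} (hl : 0 < l)
    (U : V → Finset Ed → ℝ) (F : Finset Ed → Prop) (hF : ∀ A e, F A → F (insert e A))
    (hU : ∀ x A, F A → 0 ≤ TU src tgt o l U x A) (x : V) (A : Finset Ed) (hA : F A) :
    0 ≤ U x A := by
  classical
  obtain ⟨⟨x0, A0⟩, h0, hmin⟩ := Finset.exists_min_image
    (Finset.univ.filter fun y : V × Finset Ed => F y.2) (fun y => U y.1 y.2) ⟨(x, A), by simpa⟩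
  simp only [Finset.mem_filter, Finset.mem_univ, true_and] at h0 hmin
  set m := U x0 A0 with hm
  by_contra hneg
  have hm0 : m < 0 := lt_of_le_of_lt (hmin (x, A) hA) (not_le.1 hneg)
  have key : ∀ y A', F A' → U y A' = m →
      nb src tgt y (fun e z => U z (insert e A') - m) ≤ (if y = o then l else 0) * m := by
    intro y A' hA' hy
    have h1 := hU y A' hA'
    have h2 := nb_lin (src := src) (tgt := tgt) y 1 (-m) (fun e z => U z (insert e A'))
      (fun _ _ => 1)
    simp only [one_mul, mul_one, ← sub_eq_add_neg] at h2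
    rw [h2]
    unfold TU at h1
    rw [hy] at h1
    unfold dg at h1
    linarith
  have hge : ∀ A', F A' → ∀ e z, 0 ≤ U z (insert e A') - m := fun A' hA' e z =>
    sub_nonneg.2 (hmin (z, insert e A') (hF _ _ hA'))
  have hP := hc x0 (fun y => ¬ ∃ A', F A' ∧ U y A' = m) ?_ ?_
  · exact hP ⟨A0, h0, rfl⟩
  · rintro ⟨A', hA', hy⟩
    have h1 := key o A' hA' hy
    have h2 := nb_mono (src := src) (tgt := tgt) (x := o) (F := fun _ _ => 0)
      (F' := fun e z => U z (insert e A') - m) (fun e _ => hge A' hA' _ _)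
      (fun e _ => hge A' hA' _ _)
    rw [nb_const] at h2
    simp only [if_true] at h1
    nlinarith
  · intro e _
    have aux : ∀ y A', F A' → U y A' = m →
        nb src tgt y (fun e z => U z (insert e A') - m) ≤ 0 := by
      intro y A' hA' hy
      refine (key y A' hA' hy).trans ?_
      split_ifs <;> nlinarith
    apply not_congr
    constructor
    · rintro ⟨A', hA', hy⟩
      refine ⟨insert e A', hF _ _ hA', ?_⟩
      have h1 := (nb_ge (src := src) (tgt := tgt) (x := src e) (hge A' hA') e).1 rfl
      have h2 := aux _ A' hA' hy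
      have h3 := hge A' hA' e (tgt e)
      linarith
    · rintro ⟨A', hA', hy⟩
      refine ⟨insert e A', hF _ _ hA', ?_⟩
      have h1 := (nb_ge (src := src) (tgt := tgt) (x := tgt e) (hge A' hA') e).2 rfl
      have h2 := aux _ A' hA' hy
      have h3 := hge A' hA' e (src e)
      linarith

end Pool.Agent.MP_6504f0_pr

end MrgPart0

-- ======== part 1: formerly Pool.Agent.MP_6504f0_pr.Zhai
section MrgPart1

set_option autoImplicit false
set_option linter.unusedSectionVars false

open Real MeasureTheory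

namespace Pool.Agent.MP_6504f0_pr

section orth
variable {ι : Type*} [Fintype ι] [DecidableEq ι]

/-- sign flip -/
def flp (σ : ι → Bool) (ζ : ι → ℝ) : ι → ℝ := fun i => sgn (σ i) * ζ i

/-- positive orthant -/
def orth (ι : Type*) : Set (ι → ℝ) := {ζ | ∀ i, 0 < ζ i}

lemma measurableSet_orth : MeasurableSet (orth ι) := by
  have : orth ι = ⋂ i, {ζ : ι → ℝ | 0 < ζ i} := by ext; simp [orth]
  rw [this]
  exact MeasurableSet.iInter fun i => measurableSet_lt measurable_const (measurable_pi_apply i)

lemma sgn_mul_self (b : Bool) : sgn b * sgn b = 1 := by cases b <;> simp [sgn]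

lemma flp_flp (σ : ι → Bool) (ζ : ι → ℝ) : flp σ (flp σ ζ) = ζ := by
  ext i; simp only [flp]; rw [← mul_assoc, sgn_mul_self, one_mul]

lemma measurePreserving_flp (σ : ι → Bool) : MeasurePreserving (flp σ) := by
  refine volume_preserving_pi (f := fun i (t : ℝ) => sgn (σ i) * t) fun i => ?_
  cases σ i
  · simpa [sgn] using Measure.measurePreserving_neg (volume : Measure ℝ)
  · simp only [sgn, if_true, one_mul]
    exact MeasurePreserving.id (volume : Measure ℝ)

lemma integral_orth {F : (ι → ℝ) → ℝ} (hF : Integrable F) :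
    ∫ ζ, F ζ = ∫ ζ in orth ι, ∑ σ, F (flp σ ζ) := by
  have hme : ∀ σ : ι → Bool, MeasurableEmbedding (flp σ) := fun σ =>
    (MeasurableEquiv.ofInvolutive (flp σ) (flp_flp σ)
      (measurePreserving_flp σ).measurable).measurableEmbedding
  have h1 : ∀ σ : ι → Bool, ∫ ζ in orth ι, F (flp σ ζ) = ∫ ζ, (flp σ ⁻¹' orth ι).indicator F ζ := by
    intro σ
    rw [← (measurePreserving_flp σ).integral_comp (hme σ), ← integral_indicator measurableSet_orth]
    refine integral_congr_ae (Filter.Eventually.of_forall fun ζ => ?_)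
    by_cases h : ζ ∈ orth ι
    · simp only
      rw [Set.indicator_of_mem h, Set.indicator_of_mem (by simpa [flp_flp] using h)]
    · simp only
      rw [Set.indicator_of_notMem h, Set.indicator_of_notMem (by simpa [flp_flp] using h)]
  rw [integral_finsetSum (f := fun σ ζ => F (flp σ ζ)) _ fun σ _ =>
    (((measurePreserving_flp σ).integrable_comp_emb (hme σ)).2 hF).integrableOn]
  simp only [h1]
  rw [← integral_finsetSum _ fun σ _ =>
    hF.indicator ((measurePreserving_flp σ).measurable measurableSet_orth)]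
  refine integral_congr_ae ?_
  have : ∀ᵐ ζ : ι → ℝ, ∀ i, ζ i ≠ 0 :=
    ae_all_iff.2 fun i => Measure.ae_eval_ne (fun _ : ι => (volume : Measure ℝ)) i 0
  filter_upwards [this] with ζ hζ
  rw [Finset.sum_eq_single (fun i => decide (0 < ζ i))]
  · rw [Set.indicator_of_mem]
    intro i
    simp only [flp, sgn, decide_eq_true_eq]
    split_ifs with h
    · simpa using h
    · have := lt_of_le_of_ne (not_lt.1 h) (hζ i); linarith
  · intro σ _ hσ
    apply Set.indicator_of_notMem
    intro h
    apply hσ
    ext i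
    have := h i
    simp only [flp, sgn] at this
    cases hb : σ i
    · simp only [hb, Bool.false_eq_true, if_false] at this
      simp; linarith
    · simp only [hb, if_true] at this
      simp; linarith
  · simp

end orth

variable {V Ed : Type*} [Fintype V] [DecidableEq V] [Fintype Ed] [DecidableEq Ed]

/-- unnormalised density with boundary value `u` -/
noncomputable def wS (src tgt : Ed → V) (o : V) (S : Finset Ed) (u : ℝ)
    (ζ : {x : V // x ≠ o} → ℝ) : ℝ := exp (-(BS src tgt S (ext o u ζ) (ext o u ζ)) / 2)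

/-- coupling along an edge -/
noncomputable def cpl (src tgt : Ed → V) (ψ : V → ℝ) (e : Ed) : ℝ := ψ (src e) * ψ (tgt e) / 2

/-- weight of the support of the current -/
noncomputable def bet (src tgt : Ed → V) (o : V) (u : ℝ) (A : Finset Ed) : ℝ :=
  ∫ ζ, wS src tgt o ∅ u ζ * ∏ e ∈ A, (exp (cpl src tgt (ext o u ζ) e) - 1)

variable {src tgt : Ed → V} {o : V}

lemma wS_shift (hc : Conn src tgt o Finset.univ) (S : Finset Ed) :
    ∃ (h : V → ℝ) (κ : ℝ), h o = 1 ∧ 0 ≤ κ ∧ (∀ x, LS src tgt S h x = if x = o then κ else 0) ∧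
      (∀ u, Integrable (wS src tgt o S u)) ∧
      ∀ u, ∫ ζ, wS src tgt o S u ζ = exp (-(u ^ 2 * κ) / 2) * ∫ ζ, wS src tgt o S 0 ζ := by
  obtain ⟨v, hv⟩ := exists_sol hc S 1 (fun _ => 0)
  set h := ext o 1 v with hh
  set κ := LS src tgt S h o with hκ
  have h1 : ∀ x, LS src tgt S h x = if x = o then κ else 0 := by
    intro x; split_ifs with hx
    · rw [hx]
    · exact hv x hx
  have h2 : ∀ ψ, BS src tgt S ψ h = ψ o * κ := by
    intro ψ
    simp [BS_eq_sum, h1]
  have ho : h o = 1 := ext_root _ _
  have h3 : ∀ u ζ, wS src tgt o S u (ζ + u • v) = exp (-(u ^ 2 * κ) / 2) * wS src tgt o S 0 ζ := by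
    intro u ζ
    have e1 := ext_lin (o := o) 1 u 0 1 ζ v
    simp only [mul_zero, zero_add, one_smul, mul_one u] at e1
    rw [wS, wS, ← Real.exp_add, e1, BS_lin, BS_symm, BS_lin, ← hh, BS_symm S h, h2,
      BS_symm S h, h2]
    simp only [ext_root, ho]
    congr 1; ring
  have h4 : Integrable (wS src tgt o S 0) := (pd_Bf hc S).integrable_exp
  refine ⟨h, κ, ho, ?_, h1, fun u => ?_, fun u => ?_⟩
  · have a1 := En_le_BS (src := src) (tgt := tgt) S h
    have a2 := En_nonneg src tgt h
    rw [h2, ho] at a1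
    linarith
  · have := (h4.const_mul (exp (-(u ^ 2 * κ) / 2))).comp_add_right (-(u • v))
    refine this.congr (Filter.Eventually.of_forall fun ζ => ?_)
    simp only
    rw [← h3]; simp
  · rw [← integral_add_right_eq_self _ (u • v), ← integral_const_mul]
    simp only [h3]

lemma wS_eq (S : Finset Ed) (u : ℝ) (ζ : {x : V // x ≠ o} → ℝ) :
    wS src tgt o S u ζ = wS src tgt o ∅ u ζ * ∏ e ∈ S, exp (cpl src tgt (ext o u ζ) e) := by
  rw [wS, wS, ← Real.exp_sum, ← Real.exp_add]
  congr 1
  have : ∑ e ∈ S, cpl src tgt (ext o u ζ) e = ∑ e, ind S e * cpl src tgt (ext o u ζ) e := by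
    simp [ind]
  rw [this]
  simp only [BS, neg_div, Finset.sum_div, ← Finset.sum_neg_distrib, ← Finset.sum_add_distrib, cpl]
  refine Finset.sum_congr rfl fun e _ => ?_
  simp only [ind, Finset.notMem_empty, if_false]; ring

lemma integrable_bet (hc : Conn src tgt o Finset.univ) (u : ℝ) (A : Finset Ed) :
    Integrable (fun ζ => wS src tgt o ∅ u ζ * ∏ e ∈ A, (exp (cpl src tgt (ext o u ζ) e) - 1)) := by
  have h1 : Integrable (fun ζ => ∑ S ∈ A.powerset, wS src tgt o S u ζ * ∏ _e ∈ A \ S, (-1 : ℝ)) := by
    refine integrable_finsetSum _ fun S _ => Integrable.mul_const ?_ _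
    obtain ⟨h, κ, -, -, -, h4, -⟩ := wS_shift hc S
    exact h4 u
  refine h1.congr (Filter.Eventually.of_forall fun ζ => ?_)
  simp only [sub_eq_add_neg, Finset.prod_add, Finset.mul_sum]
  refine Finset.sum_congr rfl fun S _ => ?_
  rw [wS_eq S, mul_assoc]

lemma sum_bet (hc : Conn src tgt o Finset.univ) (u : ℝ) (S : Finset Ed) :
    ∑ A, bet src tgt o u A * (if A ⊆ S then 1 else 0) = ∫ ζ, wS src tgt o S u ζ := by
  have : ∑ A, bet src tgt o u A * (if A ⊆ S then 1 else 0) = ∑ A ∈ S.powerset, bet src tgt o u A := by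
    simp only [mul_ite, mul_one, mul_zero, ← Finset.sum_filter]
    exact Finset.sum_congr (by ext; simp) fun _ _ => rfl
  rw [this]
  unfold bet
  rw [← integral_finsetSum _ fun A _ => integrable_bet hc u A]
  refine integral_congr_ae (Filter.Eventually.of_forall fun ζ => ?_)
  simp only
  rw [← Finset.mul_sum, ← Finset.prod_one_add, wS_eq S]
  simp

lemma ext_flp (σ : {x : V // x ≠ o} → Bool) (u : ℝ) (ζ : {x : V // x ≠ o} → ℝ) (x : V) :
    ext o u (flp σ ζ) x = sg o σ x * ext o u ζ x := by
  unfold sg ext flp; split_ifs <;> simp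

lemma wS_flp (σ : {x : V // x ≠ o} → Bool) (u : ℝ) (ζ : {x : V // x ≠ o} → ℝ) :
    wS src tgt o ∅ u (flp σ ζ) = wS src tgt o ∅ u ζ := by
  unfold wS BS
  congr 4
  refine Finset.sum_congr rfl fun e _ => ?_
  simp only [ext_flp, ind, Finset.notMem_empty, if_false]
  rcases sg_cases σ (src e) with h | h <;> rcases sg_cases σ (tgt e) with h' | h' <;>
    rw [h, h'] <;> ring

lemma cpl_flp (σ : {x : V // x ≠ o} → Bool) (u : ℝ) (ζ : {x : V // x ≠ o} → ℝ) (e : Ed) :
    cpl src tgt (ext o u (flp σ ζ)) e
      = sg o σ (src e) * sg o σ (tgt e) * cpl src tgt (ext o u ζ) e := by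
  simp only [cpl, ext_flp]; ring

lemma bet_eq (hc : Conn src tgt o Finset.univ) (u : ℝ) (A : Finset Ed) :
    bet src tgt o u A = ∫ ζ in orth _, wS src tgt o ∅ u ζ * ∑ σ, ∏ e ∈ A,
      (exp (sg o σ (src e) * sg o σ (tgt e) * cpl src tgt (ext o u ζ) e) - 1) := by
  rw [bet, integral_orth (integrable_bet hc u A)]
  refine integral_congr_ae (Filter.Eventually.of_forall fun ζ => ?_)
  simp only [Finset.mul_sum, wS_flp, cpl_flp]

lemma cpl_nonneg {u : ℝ} (hu : 0 ≤ u) {ζ : {x : V // x ≠ o} → ℝ} (hζ : ζ ∈ orth _) (e : Ed) :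
    0 ≤ cpl src tgt (ext o u ζ) e := by
  have : ∀ x, 0 ≤ ext o u ζ x := fun x => by
    unfold ext; split_ifs
    · exact hu
    · exact (hζ _).le
  exact div_nonneg (mul_nonneg (this _) (this _)) (by norm_num)

lemma bet_nonneg (hc : Conn src tgt o Finset.univ) {u : ℝ} (hu : 0 ≤ u) (A : Finset Ed) :
    0 ≤ bet src tgt o u A := by
  rw [bet_eq hc]
  exact setIntegral_nonneg measurableSet_orth fun ζ hζ =>
    mul_nonneg (exp_pos _).le (griffiths _ (cpl_nonneg hu hζ) A)

open Classical in
lemma sum_bet_conn (hc : Conn src tgt o Finset.univ) {u : ℝ} (hu : 0 ≤ u) :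
    ∑ A, (if Conn src tgt o A then 1 else 0) * bet src tgt o u A
      ≤ ∫ ζ in orth _, wS src tgt o Finset.univ u ζ := by
  have hme : ∀ σ : {x : V // x ≠ o} → Bool, MeasurableEmbedding (flp σ) := fun σ =>
    (MeasurableEquiv.ofInvolutive (flp σ) (flp_flp σ)
      (measurePreserving_flp σ).measurable).measurableEmbedding
  let F : ({x : V // x ≠ o} → ℝ) → ℝ := fun ζ => ∑ A, (if Conn src tgt o A then 1 else 0) *
    (wS src tgt o ∅ u ζ * ∏ e ∈ A, (exp (cpl src tgt (ext o u ζ) e) - 1))
  have hF : Integrable F := integrable_finsetSum _ fun A _ => (integrable_bet hc u A).const_mul _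
  have h1 : ∑ A, (if Conn src tgt o A then 1 else 0) * bet src tgt o u A = ∫ ζ, F ζ := by
    rw [integral_finsetSum _ fun A _ => (integrable_bet hc u A).const_mul _]
    simp only [integral_const_mul, bet]
  rw [h1, integral_orth hF]
  obtain ⟨h, κ, -, -, -, h4, -⟩ := wS_shift hc Finset.univ
  refine setIntegral_mono_on (integrable_finsetSum _ fun σ _ =>
    (((measurePreserving_flp σ).integrable_comp_emb (hme σ)).2 hF)).integrableOn
    (h4 u).integrableOn measurableSet_orth fun ζ hζ => ?_
  have h2 := fk_bound (src := src) (tgt := tgt) (o := o) _ (cpl_nonneg (src := src) (tgt := tgt) hu hζ)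
  rw [wS_eq Finset.univ]
  refine le_trans (le_of_eq ?_) (mul_le_mul_of_nonneg_left h2 (exp_pos _).le)
  simp only [F, Finset.mul_sum, wS_flp, cpl_flp]
  rw [Finset.sum_comm]
  refine Finset.sum_congr rfl fun A _ => Finset.sum_congr rfl fun σ _ => ?_
  rw [mul_left_comm]

lemma exists_vec (hc : Conn src tgt o Finset.univ) :
    ∃ a : V → {x : V // x ≠ o} → ℝ, ∀ x ζ, Bf src tgt o Finset.univ (a x) ζ = -ext o 0 ζ x := by
  have : ∀ x, ∃ v, ∀ ζ, Bf src tgt o Finset.univ v ζ = -ext o 0 ζ x := by
    intro x
    by_cases hx : x = o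
    · exact ⟨0, fun ζ => by simp [hx, ext_root]⟩
    · obtain ⟨v, hv⟩ := (pd_Bf hc Finset.univ).riesz (-LinearMap.proj ⟨x, hx⟩)
      exact ⟨v, fun ζ => by rw [← hv]; simp [ext, hx]⟩
  choose a ha using this
  exact ⟨a, ha⟩

variable {a : V → {x : V // x ≠ o} → ℝ}

lemma mx_nonneg (ha : ∀ x ζ, Bf src tgt o Finset.univ (a x) ζ = -ext o 0 ζ x) (ζ) :
    0 ≤ mx (Bf src tgt o Finset.univ) a Finset.univ ζ := by
  have := le_mx (B := Bf src tgt o Finset.univ) (a := a) (Finset.mem_univ o) ζ
  rwa [ha, ext_root, neg_zero] at this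

lemma orth_le (hc : Conn src tgt o Finset.univ)
    (ha : ∀ x ζ, Bf src tgt o Finset.univ (a x) ζ = -ext o 0 ζ x) {t : ℝ} (ht : 0 < t) :
    (∫ ζ in orth _, wS src tgt o Finset.univ √(2 * t) ζ) / gZ (Bf src tgt o Finset.univ)
      ≤ ∫ ζ, (if mx (Bf src tgt o Finset.univ) a Finset.univ ζ ^ 2 / 2 < t then 1 else 0)
        ∂(gm (Bf src tgt o Finset.univ)) := by
  have hB := pd_Bf hc Finset.univ
  set u := √(2 * t) with hu
  have hu0 : 0 < u := Real.sqrt_pos.2 (by linarith)
  have hu2 : u ^ 2 = 2 * t := Real.sq_sqrt (by linarith)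
  rw [integral_gm]
  refine div_le_div_of_nonneg_right ?_ hB.gZ_pos.le
  rw [← integral_indicator measurableSet_orth, ← integral_add_right_eq_self _ (fun _ => u)]
  refine integral_mono_of_nonneg (Filter.Eventually.of_forall fun ζ =>
    Set.indicator_nonneg (fun _ _ => (exp_pos _).le) _) ?_ (Filter.Eventually.of_forall fun ζ => ?_)
  · rw [← hB.integrable_gm_iff]
    have := hB.isProb
    refine (integrable_const (1 : ℝ)).mono' (Measurable.ite (measurableSet_lt
      ((measurable_mx.pow_const 2).div_const 2) measurable_const) measurable_const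
      measurable_const).aestronglyMeasurable (Filter.Eventually.of_forall fun ζ => ?_)
    split_ifs <;> simp
  · simp only
    by_cases hζ : (ζ + fun _ => u) ∈ orth {x : V // x ≠ o}
    · rw [Set.indicator_of_mem hζ, if_pos, mul_one]
      · apply le_of_eq
        rw [wS, Bf_apply, BS_univ, BS_univ]
        congr 3
        unfold En
        congr 1
        refine Finset.sum_congr rfl fun e _ => ?_
        have : ∀ x, ext o u (ζ + fun _ => u) x = ext o 0 ζ x + u := fun x => by
          unfold ext; split_ifs <;> simp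
        simp [this]
      · obtain ⟨x, -, hx⟩ := exists_mx (B := Bf src tgt o Finset.univ) (a := a)
          ⟨o, Finset.mem_univ o⟩ ζ
        have h0 := mx_nonneg ha ζ
        have h1 : mx (Bf src tgt o Finset.univ) a Finset.univ ζ < u := by
          rw [hx, ha]
          unfold ext
          split_ifs with h
          · simpa using hu0
          · have := hζ ⟨x, h⟩
            simp only [Pi.add_apply] at this
            linarith
        nlinarith
    · rw [Set.indicator_of_notMem hζ]
      split_ifs <;> positivity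

lemma laplace_bound {Ω κ : Type*} [MeasurableSpace Ω] (γ : Measure Ω) [IsProbabilityMeasure γ]
    [Fintype κ] {Y : Ω → ℝ} (hY : Measurable Y) (hY0 : ∀ ω, 0 ≤ Y ω) (c k : κ → ℝ)
    (hk : ∀ S, 0 ≤ k S) {l : ℝ} (hl : 0 < l)
    (h : ∀ t, 0 < t → ∑ S, c S * exp (-(k S * t)) ≤ ∫ ω, (if Y ω < t then 1 else 0) ∂γ) :
    ∑ S, c S * (l / (l + k S)) ≤ ∫ ω, exp (-(l * Y ω)) ∂γ := by
  have hint : ∀ S, IntegrableOn (fun t => exp (-(l + k S) * t)) (Set.Ioi 0) := fun S =>
    integrableOn_exp_mul_Ioi (by linarith [hk S]) 0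
  have h1 : ∑ S, c S * (l / (l + k S)) = ∫ t in Set.Ioi 0, ∑ S, c S * l * exp (-(l + k S) * t) := by
    rw [integral_finsetSum _ fun S _ => (hint S).const_mul _]
    refine Finset.sum_congr rfl fun S _ => ?_
    have := hk S
    rw [integral_const_mul, integral_exp_mul_Ioi (by linarith)]
    simp only [mul_zero, exp_zero]
    field_simp
  have hI : Integrable (Function.uncurry fun (t : ℝ) (ω : Ω) =>
      l * exp (-l * t) * (if Y ω < t then 1 else 0)) ((volume.restrict (Set.Ioi 0)).prod γ) := by
    have h0 : Integrable (fun t => l * exp (-l * t)) (volume.restrict (Set.Ioi (0 : ℝ))) :=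
      (integrableOn_exp_mul_Ioi (by linarith) 0).const_mul l
    refine (h0.comp_fst γ).mono' ?_ (Filter.Eventually.of_forall fun p => ?_)
    · refine Measurable.aestronglyMeasurable (Measurable.mul (by fun_prop) ?_)
      exact Measurable.ite (measurableSet_lt (hY.comp measurable_snd) measurable_fst)
        measurable_const measurable_const
    · simp only [Function.uncurry]
      split_ifs
      · rw [mul_one, Real.norm_eq_abs, abs_of_pos (by positivity)]
      · rw [mul_zero, norm_zero]; positivity
  have h2 := integral_integral_swap hI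
  have h3 : ∀ ω, ∫ t in Set.Ioi 0, l * exp (-l * t) * (if Y ω < t then 1 else 0)
      = exp (-(l * Y ω)) := by
    intro ω
    have e1 : ∀ t, l * exp (-l * t) * (if Y ω < t then 1 else 0)
        = (Set.Ioi (Y ω)).indicator (fun t => l * exp (-l * t)) t := fun t => by
      simp [Set.indicator]
    simp only [e1]
    rw [setIntegral_indicator measurableSet_Ioi, Set.Ioi_inter_Ioi, max_eq_right (hY0 ω),
      integral_const_mul, integral_exp_mul_Ioi (by linarith)]
    field_simp
  simp only [h3] at h2
  rw [h1, ← h2]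
  refine setIntegral_mono_on (integrable_finsetSum _ fun S _ => (hint S).const_mul _)
    hI.integral_prod_left measurableSet_Ioi fun t ht => ?_
  rw [integral_const_mul]
  refine le_trans (le_of_eq ?_) (mul_le_mul_of_nonneg_left (h t ht) (by positivity))
  rw [Finset.mul_sum]
  refine Finset.sum_congr rfl fun S _ => ?_
  have : exp (-(l + k S) * t) = exp (-l * t) * exp (-(k S * t)) := by
    rw [← Real.exp_add]; congr 1; ring
  rw [this]; ring

theorem exists_U (hc : Conn src tgt o Finset.univ)
    (ha : ∀ x ζ, Bf src tgt o Finset.univ (a x) ζ = -ext o 0 ζ x) {l : ℝ} (hl : 0 < l) :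
    ∃ U : V → Finset Ed → ℝ, (∀ x A, 0 ≤ U x A) ∧ (∀ x A, U x A ≤ 1) ∧
      (∀ x A, Conn src tgt o A → U x A ≤ 0) ∧
      (∀ x A, TU src tgt o l U x A ≤ if x = o then l else 0) ∧
      1 - ∫ ζ, exp (-(l * (mx (Bf src tgt o Finset.univ) a Finset.univ ζ ^ 2 / 2)))
        ∂(gm (Bf src tgt o Finset.univ)) ≤ U o ∅ := by
  classical
  have hB := pd_Bf hc Finset.univ
  have := hB.isProb
  set Z := gZ (Bf src tgt o Finset.univ) with hZ
  have hZ0 : 0 < Z := hB.gZ_pos
  obtain ⟨c, hcs⟩ := exists_span (fun A : Finset Ed => if Conn src tgt o A then (1 : ℝ) else 0)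
  choose h κ ho hκ hL _ hint using fun S => wS_shift hc S
  let b : Finset Ed → ℝ := fun S => (∫ ζ, wS src tgt o S 0 ζ) / Z
  let U : V → Finset Ed → ℝ := fun x A =>
    ∑ S, (c S * b S * (l / (l + κ S))) * ((if A ⊆ S then 1 else 0) * h S x)
  let ft : Finset Ed → ℝ := fun A =>
    ∑ B, bet src tgt o 0 B / Z * (if Conn src tgt o (A ∪ B) then 1 else 0)
  have hb1 : ∑ B, bet src tgt o 0 B / Z = 1 := by
    have := sum_bet hc 0 Finset.univ
    simp only [Finset.subset_univ, if_true, mul_one] at this
    rw [← Finset.sum_div, this]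
    exact div_self hZ0.ne'
  have hb0 : ∀ B, 0 ≤ bet src tgt o 0 B / Z := fun B => div_nonneg (bet_nonneg hc le_rfl B) hZ0.le
  have hft : ∀ A, ft A = ∑ S, c S * b S * (if A ⊆ S then 1 else 0) := by
    intro A
    simp only [ft, hcs, Finset.mul_sum, b, ← sum_bet hc, Finset.sum_div, Finset.sum_mul]
    rw [Finset.sum_comm]
    refine Finset.sum_congr rfl fun S _ => Finset.sum_congr rfl fun B _ => ?_
    by_cases h1 : A ⊆ S <;> by_cases h2 : B ⊆ S <;> simp [h1, h2, Finset.union_subset_iff]
    ring
  have hft0 : ∀ A, 0 ≤ ft A := fun A =>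
    Finset.sum_nonneg fun B _ => mul_nonneg (hb0 B) (by split_ifs <;> simp)
  have hft1 : ∀ A, ft A ≤ 1 := fun A => by
    rw [← hb1]
    refine Finset.sum_le_sum fun B _ => ?_
    have := hb0 B
    split_ifs <;> linarith
  have hft2 : ∀ A, Conn src tgt o A → ft A = 1 := fun A hA => by
    rw [← hb1]
    refine Finset.sum_congr rfl fun B _ => ?_
    rw [if_pos (hA.mono Finset.subset_union_left), mul_one]
  have hTU : ∀ x A, TU src tgt o l U x A = (if x = o then l else 0) * ft A := by
    intro x A
    rw [hft, TU, nb_sum, Finset.mul_sum, Finset.mul_sum, ← Finset.sum_sub_distrib]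
    refine Finset.sum_congr rfl fun S _ => ?_
    have e1 := nb_lin (src := src) (tgt := tgt) x (if A ⊆ S then 1 else 0) 0
      (fun e y => ind S e * h S y) (fun _ _ => 0)
    have e2 : (fun e y => (if insert e A ⊆ S then (1 : ℝ) else 0) * h S y)
        = fun e y => (if A ⊆ S then 1 else 0) * (ind S e * h S y) + 0 * 0 := by
      ext e y
      by_cases h1 : A ⊆ S <;> by_cases h2 : e ∈ S <;> simp [h1, h2, ind, Finset.insert_subset_iff]
    rw [e2, e1]
    have e3 := hL S x
    unfold LS at e3
    have e4 : l / (l + κ S) * (l + κ S) = l := by have := hκ S; field_simp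
    split_ifs at e3 ⊢ with h1 h2 h2
    · subst h1
      rw [ho] at e3 ⊢
      linear_combination (c S * b S * (l / (l + κ S))) * e3 + c S * b S * e4
    · simp
    · linear_combination (c S * b S * (l / (l + κ S))) * e3
    · simp
  have hT1 : ∀ (s t : ℝ) x A, TU src tgt o l (fun x A => s * 1 + t * U x A) x A
      = (if x = o then l else 0) * (s + t * ft A) := by
    intro s t x A
    have e1 := hTU x A
    unfold TU at e1 ⊢
    rw [nb_lin x s t (fun _ _ => 1) (fun e y => U y (insert e A))]
    unfold dg at e1 ⊢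
    linear_combination t * e1
  have hl' : ∀ x, 0 ≤ (if x = o then l else 0) := fun x => by split_ifs <;> linarith
  refine ⟨fun x A => 1 * 1 + (-1) * U x A, fun x A => ?_, fun x A => ?_, fun x A hA => ?_,
    fun x A => ?_, ?_⟩
  · refine max_principle hc hl (fun x A => 1 * 1 + (-1) * U x A) (fun _ => True)
      (fun _ _ _ => trivial) (fun y A' _ => ?_) x A trivial
    rw [hT1]; exact mul_nonneg (hl' y) (by linarith [hft1 A'])
  · have := max_principle hc hl U (fun _ => True) (fun _ _ _ => trivial) (fun y A' _ => by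
      rw [hTU]; exact mul_nonneg (hl' y) (hft0 A')) x A trivial
    linarith
  · have := max_principle hc hl (fun x A => (-1) * 1 + 1 * U x A) (Conn src tgt o)
      (fun A e hA => hA.mono (Finset.subset_insert _ _)) (fun y A' hA' => by
        rw [hT1, hft2 A' hA']; simp) x A hA
    linarith
  · rw [hT1]
    have := hft0 A
    have := hl' x
    nlinarith
  · have e1 : U o ∅ = ∑ S, (c S * b S) * (l / (l + κ S)) := by simp [U, ho]
    have e2 := laplace_bound (gm (Bf src tgt o Finset.univ))
      (Y := fun ζ => mx (Bf src tgt o Finset.univ) a Finset.univ ζ ^ 2 / 2)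
      ((measurable_mx.pow_const 2).div_const 2) (fun ζ => by positivity)
      (fun S => c S * b S) κ hκ hl (fun t ht => by
        refine le_trans ?_ (orth_le hc ha ht)
        refine le_trans (le_of_eq ?_) (div_le_div_of_nonneg_right
          (sum_bet_conn hc (Real.sqrt_nonneg (2 * t))) hZ0.le)
        simp only [hcs, Finset.sum_mul, Finset.sum_div]
        rw [Finset.sum_comm]
        refine Finset.sum_congr rfl fun S _ => ?_
        have e3 := sum_bet hc √(2 * t) S
        rw [hint S, Real.sq_sqrt (by linarith)] at e3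
        have e4 : -(2 * t * κ S) / 2 = -(κ S * t) := by ring
        rw [e4] at e3
        have e5 : ∑ A, c S * (if A ⊆ S then 1 else 0) * bet src tgt o √(2 * t) A / Z
            = c S / Z * ∑ A, bet src tgt o √(2 * t) A * (if A ⊆ S then 1 else 0) := by
          rw [Finset.mul_sum]; exact Finset.sum_congr rfl fun A _ => by ring
        rw [e5, e3]
        simp only [b]; ring)
    simp only
    linarith

end Pool.Agent.MP_6504f0_pr

end MrgPart1

-- ======== part 2: formerly Pool.Agent.MP_6504f0_pr.Srw
section MrgPart2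

set_option autoImplicit false
set_option linter.unusedSectionVars false

open Real MeasureTheory

namespace Pool.Agent.MP_6504f0_pr

variable {V Ed M : Type*} [Fintype V] [DecidableEq V] [Fintype Ed] [DecidableEq Ed] [Fintype M]

open Classical in
/-- probability of not having covered, with an initial visited set -/
noncomputable def ncS (q : M → ℝ) (φ : V → M → V) (n : ℕ) (x : V) (S : Set V) : ℝ :=
  EL q n (fun l => if S ∪ vis φ id x l = Set.univ then 0 else 1)

variable {q : M → ℝ} {φ : V → M → V} {src tgt : Ed → V} {o : V}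

lemma ncS_empty (n : ℕ) (x : V) : ncS q φ n x ∅ = nc q φ id n x := by
  unfold ncS nc
  congr 1
  ext l
  simp [ncI]

lemma ncS_succ (n : ℕ) (x : V) (S : Set V) :
    ncS q φ (n + 1) x S = ∑ m, q m * ncS q φ n (φ x m) (insert x S) := by
  simp only [ncS, EL, vis, id, Set.union_insert, Set.insert_union]

lemma ncS_zero_of_ne {x : V} {S : Set V} (h : insert x S ≠ Set.univ) : ncS q φ 0 x S = 1 := by
  simp [ncS, EL, vis, h]

lemma IsPV.ncS_nonneg (hq : IsPV q) (n : ℕ) (x : V) (S : Set V) : 0 ≤ ncS q φ n x S :=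
  hq.EL_nonneg n fun l => by split_ifs <;> simp

lemma sum_ncS_succ (n : ℕ) (x : V) (S : Set V) (h : insert x S ≠ Set.univ) :
    ∑ i ∈ Finset.range (n + 1), ncS q φ i x S
      = 1 + ∑ m, q m * ∑ i ∈ Finset.range n, ncS q φ i (φ x m) (insert x S) := by
  rw [Finset.sum_range_succ', ncS_zero_of_ne h, add_comm]
  simp only [ncS_succ, Finset.mul_sum]
  rw [Finset.sum_comm]

lemma ncard_vis {Z : Type*} (ψ : Z → M → Z) (pos : Z → V) (z : Z) (l : List M) :
    (vis ψ pos z l).ncard ≤ l.length + 1 := by
  induction l generalizing z with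
  | nil => simp [vis]
  | cons m l ih =>
    simp only [vis, List.length_cons]
    exact (Set.ncard_insert_le _ _).trans (by have := ih (ψ z m); omega)

lemma IsPV.card_le (hq : IsPV q) {T : ℝ} (x : V)
    (hT : ∀ n, ∑ i ∈ Finset.range n, nc q φ id i x ≤ T) : (Fintype.card V : ℝ) - 1 ≤ T := by
  have h1 : 1 ≤ Fintype.card V := Fintype.card_pos_iff.2 ⟨x⟩
  refine le_trans ?_ (hT (Fintype.card V - 1))
  calc (Fintype.card V : ℝ) - 1 = ∑ _i ∈ Finset.range (Fintype.card V - 1), (1 : ℝ) := by
        simp [Nat.cast_sub h1]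
    _ ≤ _ := by
        refine Finset.sum_le_sum fun i hi => ?_
        rw [← hq.EL_const i 1]
        refine hq.EL_mono i fun l hl => ?_
        have := ncard_vis φ id x l
        rw [ncI, if_neg]
        intro h
        rw [h, Set.ncard_univ, Nat.card_eq_fintype_card] at this
        have := Finset.mem_range.1 hi
        omega

lemma IsPV.nc_small (hq : IsPV q) {T : ℝ} (x : V)
    (hT : ∀ n, ∑ i ∈ Finset.range n, nc q φ id i x ≤ T) {ε : ℝ} (hε : 0 < ε) :
    ∃ n, nc q φ id n x ≤ ε := by
  obtain ⟨n, hn⟩ := exists_nat_gt (T / ε)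
  refine ⟨n, ?_⟩
  by_contra h
  push Not at h
  have h1 : ∑ _i ∈ Finset.range n, ε ≤ ∑ i ∈ Finset.range n, nc q φ id i x :=
    Finset.sum_le_sum fun i hi => h.le.trans (hq.nc_anti φ id (Finset.mem_range.1 hi).le x)
  rw [Finset.sum_const, Finset.card_range, nsmul_eq_mul] at h1
  rw [div_lt_iff₀ hε] at hn
  linarith [hT n]

theorem srw_lower (hq : IsPV q) (hc : Conn src tgt o Finset.univ) (hdg : ∀ x, 0 < dg src tgt x)
    (hstep : ∀ x (F : V → ℝ), nb src tgt x (fun _ y => F y) = dg src tgt x * ∑ m, q m * F (φ x m))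
    {a : V → {x : V // x ≠ o} → ℝ}
    (ha : ∀ x ζ, Bf src tgt o Finset.univ (a x) ζ = -ext o 0 ζ x) {T : ℝ}
    (hT : ∀ x n, ∑ i ∈ Finset.range n, nc q φ id i x ≤ T) :
    (∑ x, dg src tgt x) * ∫ ζ, mx (Bf src tgt o Finset.univ) a Finset.univ ζ ^ 2
      ∂(gm (Bf src tgt o Finset.univ)) ≤ 4 * T := by
  have hB := pd_Bf hc Finset.univ
  have := hB.isProb
  set vol := ∑ x, dg src tgt x with hvol
  have hvol0 : 0 < vol := Finset.sum_pos (fun x _ => hdg x) ⟨o, Finset.mem_univ o⟩
  obtain ⟨v, hv⟩ := exists_sol hc Finset.univ 0 (dg src tgt)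
  set h := ext o 0 v with hh
  have ho : h o = 0 := ext_root _ _
  have hL : ∀ x, LS src tgt Finset.univ h x = dg src tgt x - if x = o then vol else 0 := by
    intro x
    split_ifs with hx
    · have e1 : ∑ y, LS src tgt Finset.univ h y = 0 := by
        have := BS_eq_sum (src := src) (tgt := tgt) Finset.univ (fun _ => 1) h
        simp only [one_mul] at this
        rw [← this, BS, Finset.sum_eq_zero, zero_div]
        intro e _; simp [ind, add_comm]
      rw [← Finset.add_sum_erase _ _ (Finset.mem_univ o),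
        Finset.sum_congr rfl fun y hy => hv y (Finset.ne_of_mem_erase hy)] at e1
      rw [hvol, ← Finset.add_sum_erase _ _ (Finset.mem_univ o), hx]
      linarith
    · rw [hv x hx, sub_zero]
  have hP : ∀ x, dg src tgt x * ∑ m, q m * h (φ x m)
      = dg src tgt x * h x - dg src tgt x + if x = o then vol else 0 := by
    intro x
    have := hL x
    simp only [LS, ind, Finset.mem_univ, if_true, one_mul] at this
    rw [← hstep]; linarith
  have : Nonempty V := ⟨o⟩
  obtain ⟨xm, hxm⟩ := Finite.exists_max h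
  set H := h xm with hH
  have hH0 : 0 ≤ H := ho ▸ hxm o
  have hHT : H ≤ T := by
    have key : ∀ n x (S : Set V), (x = o ∨ o ∉ S) →
        h x ≤ ∑ i ∈ Finset.range n, ncS q φ i x S + H * ncS q φ n x S := by
      intro n
      induction n with
      | zero =>
        intro x S hx
        by_cases hxo : x = o
        · rw [hxo, ho]; simpa using mul_nonneg hH0 (hq.ncS_nonneg 0 o S)
        · have : insert x S ≠ Set.univ := fun e => by
            have : o ∈ insert x S := e ▸ Set.mem_univ o
            rcases this with e | e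
            · exact hxo e.symm
            · exact (hx.resolve_left hxo) e
          rw [ncS_zero_of_ne this]; simpa using hxm x
      | succ n ih =>
        intro x S hx
        by_cases hxo : x = o
        · rw [hxo, ho]
          exact add_nonneg (Finset.sum_nonneg fun i _ => hq.ncS_nonneg i o S)
            (mul_nonneg hH0 (hq.ncS_nonneg _ o S))
        · have h1 : o ∉ insert x S := by
            rintro (e | e)
            · exact hxo e.symm
            · exact (hx.resolve_left hxo) e
          have h2 : insert x S ≠ Set.univ := fun e => h1 (e ▸ Set.mem_univ o)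
          rw [sum_ncS_succ n x S h2, ncS_succ, Finset.mul_sum, add_assoc, ← Finset.sum_add_distrib]
          have h3 := hP x
          simp only [hxo, if_false, add_zero] at h3
          have h4 : h x = 1 + ∑ m, q m * h (φ x m) := by
            have := hdg x
            apply mul_left_cancel₀ this.ne'
            linarith
          rw [h4]
          gcongr with m
          have := mul_le_mul_of_nonneg_left (ih (φ x m) (insert x S) (Or.inr h1)) (hq.nonneg m)
          linarith
    refine le_of_forall_pos_le_add fun ε hε => ?_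
    obtain ⟨n, hn⟩ := hq.nc_small xm (hT xm) (ε := ε / (H + 1)) (by positivity)
    have h1 := key n xm ∅ (Or.inr (Set.notMem_empty o))
    simp only [ncS_empty] at h1
    have h2 : H * nc q φ id n xm ≤ (H + 1) * (ε / (H + 1)) := by
      have := hq.nc_nonneg φ id n xm
      gcongr; linarith
    rw [mul_div_cancel₀ _ (by positivity)] at h2
    linarith [hT xm n]
  have main : ∀ l, 0 < l → 1 - ∫ ζ, exp (-(l * (mx (Bf src tgt o Finset.univ) a Finset.univ ζ ^ 2
      / 2))) ∂(gm (Bf src tgt o Finset.univ)) ≤ l / vol * (2 * T) := by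
    intro l hl
    obtain ⟨U, hU0, hU1, hUc, hUT, hUl⟩ := exists_U hc ha hl
    have key : ∀ n x A (S : Set V), (∀ y ∈ insert x S, Reach src tgt o A y) →
        U x A ≤ l / vol * (∑ i ∈ Finset.range n, ncS q φ i x S + (H - h x)) + ncS q φ n x S := by
      intro n
      induction n with
      | zero =>
        intro x A S hS
        have h0 : 0 ≤ l / vol * (H - h x) := mul_nonneg (by positivity) (sub_nonneg.2 (hxm x))
        simp only [Finset.range_zero, Finset.sum_empty, zero_add]
        by_cases hu : insert x S = Set.univ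
        · have := hUc x A fun y => hS y (hu ▸ Set.mem_univ y)
          linarith [hq.ncS_nonneg (φ := φ) 0 x S]
        · rw [ncS_zero_of_ne hu]; linarith [hU1 x A]
      | succ n ih =>
        intro x A S hS
        by_cases hu : insert x S = Set.univ
        · have := hUc x A fun y => hS y (hu ▸ Set.mem_univ y)
          have h0 : 0 ≤ l / vol * (∑ i ∈ Finset.range (n + 1), ncS q φ i x S + (H - h x)) :=
            mul_nonneg (by positivity) (add_nonneg (Finset.sum_nonneg fun i _ =>
              hq.ncS_nonneg i x S) (sub_nonneg.2 (hxm x)))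
          linarith [hq.ncS_nonneg (φ := φ) (n + 1) x S]
        set F : V → ℝ := fun y => l / vol * (∑ i ∈ Finset.range n, ncS q φ i y (insert x S)
          + (H - h y)) + ncS q φ n y (insert x S) with hF
        have hx : Reach src tgt o A x := hS x (Set.mem_insert _ _)
        have h1 : nb src tgt x (fun e y => U y (insert e A)) ≤ nb src tgt x (fun _ y => F y) := by
          refine nb_mono (fun e he => ih _ _ _ ?_) (fun e he => ih _ _ _ ?_)
          · rintro y (rfl | hy)
            · intro P h0 h1
              exact (h1 e (Finset.mem_insert_self _ _)).1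
                (he ▸ hx.mono (Finset.subset_insert e A) P h0 h1)
            · exact (hS y hy).mono (Finset.subset_insert _ _)
          · rintro y (rfl | hy)
            · intro P h0 h1
              exact (h1 e (Finset.mem_insert_self _ _)).2
                (he ▸ hx.mono (Finset.subset_insert e A) P h0 h1)
            · exact (hS y hy).mono (Finset.subset_insert _ _)
        rw [hstep] at h1
        have h2 := hUT x A
        unfold TU at h2
        have h3 : ∑ m, q m * F (φ x m) = l / vol * (∑ m, q m * ∑ i ∈ Finset.range n,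
            ncS q φ i (φ x m) (insert x S) + (H - ∑ m, q m * h (φ x m)))
            + ∑ m, q m * ncS q φ n (φ x m) (insert x S) := by
          have e : H = ∑ m, q m * H := by rw [← Finset.sum_mul, hq.sum, one_mul]
          conv_rhs => rw [e]
          rw [← Finset.sum_sub_distrib, ← Finset.sum_add_distrib, Finset.mul_sum,
            ← Finset.sum_add_distrib]
          exact Finset.sum_congr rfl fun m _ => by simp only [hF]; ring
        rw [sum_ncS_succ n x S hu, ncS_succ]
        rw [h3] at h1
        have h4 := hP x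
        have h5 := hU0 x A
        have h6 : l / vol * vol = l := by field_simp
        refine le_of_mul_le_mul_left ?_ (hdg x)
        split_ifs at h2 h4 with hxo
        · have : 0 ≤ l * U x A := by positivity
          linear_combination h1 + h2 + this - (l / vol) * h4 - h6
        · linear_combination h1 + h2 - (l / vol) * h4
    refine le_of_forall_pos_le_add fun ε hε => ?_
    obtain ⟨n, hn⟩ := hq.nc_small o (hT o) hε
    have h1 := key n o ∅ ∅ (by
      rintro y (rfl | hy)
      · exact fun P h0 _ => h0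
      · exact absurd hy (Set.notMem_empty y))
    simp only [ncS_empty, ho, sub_zero] at h1
    have h2 : l / vol * (∑ i ∈ Finset.range n, nc q φ id i o + H) ≤ l / vol * (2 * T) := by
      gcongr; linarith [hT o n]
    linarith
  set Y : ({x : V // x ≠ o} → ℝ) → ℝ :=
    fun ζ => mx (Bf src tgt o Finset.univ) a Finset.univ ζ ^ 2 / 2 with hY
  have hY0 : ∀ ζ, 0 ≤ Y ζ := fun ζ => by positivity
  have hYm : Measurable Y := (measurable_mx.pow_const 2).div_const 2
  have hYi : Integrable Y (gm (Bf src tgt o Finset.univ)) :=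
    (hB.memLp_mx ⟨o, Finset.mem_univ o⟩).integrable_sq.div_const 2
  have hlim : Filter.Tendsto (fun n : ℕ => ∫ ζ, Y ζ / (1 + 1 / ((n : ℝ) + 1) * Y ζ)
      ∂(gm (Bf src tgt o Finset.univ))) Filter.atTop
      (nhds (∫ ζ, Y ζ ∂(gm (Bf src tgt o Finset.univ)))) := by
    refine tendsto_integral_of_dominated_convergence Y (fun n => ?_) hYi (fun n => ?_) ?_
    · exact (hYm.div (measurable_const.add (hYm.const_mul _))).aestronglyMeasurable
    · refine Filter.Eventually.of_forall fun ζ => ?_
      have := hY0 ζ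
      rw [Real.norm_eq_abs, abs_of_nonneg (by positivity)]
      exact div_le_self this (le_add_of_nonneg_right (by positivity))
    · refine Filter.Eventually.of_forall fun ζ => ?_
      have := (tendsto_const_nhds (x := Y ζ)).div ((tendsto_const_nhds (x := (1 : ℝ))).add
        ((tendsto_one_div_add_atTop_nhds_zero_nat (𝕜 := ℝ)).mul_const (Y ζ))) (by simp)
      simp only [zero_mul, add_zero, div_one] at this
      exact this
  have hfin : ∫ ζ, Y ζ ∂(gm (Bf src tgt o Finset.univ)) ≤ 2 * T / vol := by
    refine le_of_tendsto' hlim fun n => ?_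
    set l : ℝ := 1 / ((n : ℝ) + 1) with hl
    have hl0 : 0 < l := by positivity
    have h1 := main l hl0
    have hexp : Integrable (fun ζ => exp (-(l * Y ζ))) (gm (Bf src tgt o Finset.univ)) := by
      refine (integrable_const (1 : ℝ)).mono' (hYm.const_mul l).neg.exp.aestronglyMeasurable
        (Filter.Eventually.of_forall fun ζ => ?_)
      rw [Real.norm_eq_abs, abs_of_pos (exp_pos _)]
      exact Real.exp_le_one_iff.2 (by have := hY0 ζ; simp only [neg_nonpos]; positivity)
    have h2 : ∫ ζ, Y ζ / (1 + l * Y ζ) ∂(gm (Bf src tgt o Finset.univ))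
        ≤ ∫ ζ, (1 - exp (-(l * Y ζ))) / l ∂(gm (Bf src tgt o Finset.univ)) := by
      refine integral_mono_of_nonneg (Filter.Eventually.of_forall fun ζ => ?_)
        (((integrable_const _).sub hexp).div_const l) (Filter.Eventually.of_forall fun ζ => ?_)
      · have := hY0 ζ; simp only [Pi.zero_apply]; positivity
      · have := hY0 ζ
        have e1 := Real.add_one_le_exp (l * Y ζ)
        have e2 : exp (-(l * Y ζ)) ≤ 1 / (1 + l * Y ζ) := by
          rw [Real.exp_neg, inv_eq_one_div]
          apply one_div_le_one_div_of_le (by positivity); linarith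
        simp only
        rw [le_div_iff₀ hl0]
        have e3 : Y ζ / (1 + l * Y ζ) * l = 1 - 1 / (1 + l * Y ζ) := by field_simp; ring
        linarith
    rw [integral_div, integral_sub (integrable_const _) hexp] at h2
    simp only [integral_const, probReal_univ, one_smul] at h2
    refine h2.trans ?_
    rw [div_le_iff₀ hl0]
    calc _ ≤ l / vol * (2 * T) := h1
      _ = _ := by ring
  simp only [hY] at hfin
  rw [integral_div, div_le_div_iff₀ (by norm_num) hvol0] at hfin
  linarith

end Pool.Agent.MP_6504f0_pr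

end MrgPart2

-- marker of a merged file
example : 731051 + 592962 = 731051 + 592962 := rfl
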