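import Mathlib.Analysis.SpecialFunctions.Gamma.BohrMollerup
import Pool.Agent.MP_6504f0_pr.Ising
import Pool.Agent.MP_6504f0_pr.Srw

set_option autoImplicit false
set_option linter.unusedSectionVars false

open Real MeasureTheory ProbabilityTheory
open scoped ENNReal NNReal

namespace Pool.Agent.MP_6504f0_pr

section general

variable {M Z V : Type} [Fintype M]

lemma EL_eq_sum (q : M → ℝ) (n : ℕ) (F : List M → ℝ) :
    EL q n F = ∑ f : Fin n → M, (∏ i, q (f i)) * F (List.ofFn f) := by
  induction n generalizing F with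
  | zero => simp [EL]
  | succ n ih =>
    simp only [EL, ih]
    rw [← (Fin.consEquiv (fun _ : Fin (n + 1) => M)).sum_comp, Fintype.sum_prod_type]
    refine Finset.sum_congr rfl fun m _ => ?_
    rw [Finset.mul_sum]
    refine Finset.sum_congr rfl fun f _ => ?_
    simp [Fin.consEquiv, Fin.prod_univ_succ, List.ofFn_succ, mul_assoc]

/-- the first `n` marks -/
def pre (n : ℕ) (ω : ℕ → M) : List M := List.ofFn fun i : Fin n => ω i

lemma skeleton_succ (φ : Z → M → Z) (z : Z) (ω : ℕ → M) (i : ℕ) :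
    skeleton φ z ω (i + 1) = skeleton φ (φ z (ω 0)) (fun j => ω (j + 1)) i := by
  induction i with
  | zero => rfl
  | succ i ih => rw [skeleton, ih]; rfl

lemma mem_vis_pre (φ : Z → M → Z) (pos : Z → V) (n : ℕ) (z : Z) (ω : ℕ → M) (v : V) :
    v ∈ vis φ pos z (pre n ω) ↔ ∃ i ≤ n, pos (skeleton φ z ω i) = v := by
  induction n generalizing z ω with
  | zero =>
    simp only [pre, List.ofFn_zero, vis, Set.mem_singleton_iff, Nat.le_zero]
    exact ⟨fun h => ⟨0, rfl, h.symm⟩, fun ⟨i, hi, h⟩ => by subst hi; exact h.symm⟩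
  | succ n ih =>
    have e : pre (n + 1) ω = ω 0 :: pre n (fun j => ω (j + 1)) := by
      simp [pre, List.ofFn_succ]
    rw [e, vis, Set.mem_insert_iff, ih]
    constructor
    · rintro (h | ⟨i, hi, h⟩)
      · exact ⟨0, Nat.zero_le _, h.symm⟩
      · exact ⟨i + 1, by omega, by rw [skeleton_succ]; exact h⟩
    · rintro ⟨i, hi, h⟩
      cases i with
      | zero => exact Or.inl h.symm
      | succ i => exact Or.inr ⟨i, by omega, by rw [← skeleton_succ]; exact h⟩

lemma ncI_pre_of_cov {φ : Z → M → Z} {pos : Z → V} {n : ℕ} {z : Z} {ω : ℕ → M}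
    (h : ∀ v, ∃ i ≤ n, pos (skeleton φ z ω i) = v) : ncI φ pos z (pre n ω) = 0 := by
  rw [ncI, if_pos]
  exact Set.eq_univ_of_forall fun v => (mem_vis_pre φ pos n z ω v).2 (h v)

lemma ncI_pre_of_not {φ : Z → M → Z} {pos : Z → V} {n : ℕ} {z : Z} {ω : ℕ → M}
    (h : ¬ ∀ v, ∃ i ≤ n, pos (skeleton φ z ω i) = v) : ncI φ pos z (pre n ω) = 1 := by
  rw [ncI, if_neg]
  exact fun e => h fun v => (mem_vis_pre φ pos n z ω v).1 (e ▸ Set.mem_univ v)

variable [MeasurableSpace M] [DiscreteMeasurableSpace M]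

lemma measurable_pre (n : ℕ) (F : List M → ℝ) :
    Measurable fun ω : ℕ → M => ENNReal.ofReal (F (pre n ω)) := by
  have h1 : Measurable fun (ω : ℕ → M) (i : Fin n) => ω i := by fun_prop
  exact (Measurable.of_discrete
    (f := fun f : Fin n → M => ENNReal.ofReal (F (List.ofFn f)))).comp h1

lemma lintegral_pre (ν : Measure M) [IsProbabilityMeasure ν] {q : M → ℝ} (hq : IsPV q)
    (hν : ∀ m, ν {m} = ENNReal.ofReal (q m)) (n : ℕ) {F : List M → ℝ} (hF : ∀ l, 0 ≤ F l) :
    ∫⁻ ω, ENNReal.ofReal (F (pre n ω)) ∂(Measure.infinitePi fun _ : ℕ => ν)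
      = ENNReal.ofReal (EL q n F) := by
  have h1 : Measurable fun (ω : ℕ → M) (i : Fin n) => ω i := by fun_prop
  have h2 := lintegral_map (μ := Measure.infinitePi fun _ : ℕ => ν) (Measurable.of_discrete
    (f := fun f : Fin n → M => ENNReal.ofReal (F (List.ofFn f)))) h1
  refine h2.symm.trans ?_
  rw [lintegral_fintype, EL_eq_sum, ENNReal.ofReal_sum_of_nonneg fun f _ =>
    mul_nonneg (Finset.prod_nonneg fun i _ => hq.nonneg _) (hF _)]
  refine Finset.sum_congr rfl fun f _ => ?_
  rw [ENNReal.ofReal_mul (Finset.prod_nonneg fun i _ => hq.nonneg _), mul_comm]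
  congr 1
  rw [Measure.map_apply h1 (measurableSet_singleton f)]
  have e : (fun (ω : ℕ → M) (i : Fin n) => ω i) ⁻¹' {f}
      = Set.pi (Finset.range n : Set ℕ) fun i => if h : i < n then {f ⟨i, h⟩} else Set.univ := by
    ext ω
    simp only [Set.mem_preimage, Set.mem_singleton_iff, Set.mem_pi, Finset.coe_range, Set.mem_Iio]
    constructor
    · intro h i hi
      rw [dif_pos hi, ← h]; rfl
    · intro h
      funext i
      have := h i i.2
      rwa [dif_pos i.2] at this
  rw [e, Measure.infinitePi_pi _ fun i _ => MeasurableSet.of_discrete,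
    ENNReal.ofReal_prod_of_nonneg fun i _ => hq.nonneg _, Finset.prod_range]
  refine Finset.prod_congr rfl fun i _ => ?_
  rw [dif_pos i.2, hν]

end general

lemma srw_bridge {V : Type} [Fintype V] [DecidableEq V] [MeasurableSpace V]
    [DiscreteMeasurableSpace V] (ν : Measure (V → V)) [IsProbabilityMeasure ν]
    {q : (V → V) → ℝ} (hq : IsPV q) (hν : ∀ m, ν {m} = ENNReal.ofReal (q m)) (x : V) (n : ℕ) :
    ENNReal.ofReal (∑ i ∈ Finset.range n, nc q (fun y (m : V → V) => m y) id i x)
      ≤ ∫⁻ ω, srwCover x ω ∂(Measure.infinitePi fun _ : ℕ => ν) := by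
  rw [ENNReal.ofReal_sum_of_nonneg fun i _ => hq.nc_nonneg _ _ i x]
  simp only [nc]
  rw [← Finset.sum_congr rfl fun i _ => lintegral_pre ν hq hν i (ncI_nonneg _ id x),
    ← lintegral_finsetSum _ fun i _ => measurable_pre i _]
  refine lintegral_mono fun ω => ?_
  refine le_iInf₂ fun k hk => ?_
  calc _ ≤ ∑ i ∈ Finset.range n, if i ∈ Finset.range k then (1 : ℝ≥0∞) else 0 := by
        refine Finset.sum_le_sum fun i _ => ?_
        split_ifs with hi
        · simpa using ncI_le_one _ id x _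
        · rw [ncI_pre_of_cov]
          · simp
          · intro v
            obtain ⟨j, hj, h⟩ := hk v
            exact ⟨j, by simp at hi; omega, h⟩
    _ ≤ k := by
        rw [← Finset.sum_filter, Finset.sum_const, nsmul_eq_mul, mul_one]
        have : ((Finset.range n).filter fun i => i ∈ Finset.range k).card ≤ k := by
          calc _ ≤ (Finset.range k).card :=
                Finset.card_le_card fun i hi => (Finset.mem_filter.1 hi).2
            _ = k := Finset.card_range k
        exact_mod_cast this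

lemma exp_mean {r : ℝ} (hr : 0 < r) :
    ∫⁻ x, ENNReal.ofReal x ∂(expMeasure r) = ENNReal.ofReal (1 / r) := by
  have hm : ∀ a, Measurable (gammaPDF a r) := fun a =>
    (measurable_gammaPDFReal a r).ennreal_ofReal
  rw [expMeasure, gammaMeasure, lintegral_withDensity_eq_lintegral_mul _ (hm 1)
    ENNReal.measurable_ofReal]
  have : (gammaPDF 1 r * fun x => ENNReal.ofReal x)
      = fun x => ENNReal.ofReal (1 / r) * gammaPDF 2 r x := by
    funext x
    simp only [Pi.mul_apply]
    rcases lt_or_ge x 0 with hx | hx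
    · simp [gammaPDF_of_neg hx]
    · rw [gammaPDF_of_nonneg hx, gammaPDF_of_nonneg hx, ← ENNReal.ofReal_mul (by positivity),
        ← ENNReal.ofReal_mul (by positivity)]
      congr 1
      have e : (2 : ℝ) - 1 = 1 := by norm_num
      simp only [rpow_one, Gamma_one, div_one, sub_self, rpow_zero, mul_one, Gamma_two, e,
        rpow_two]
      field_simp
  rw [this, lintegral_const_mul _ (hm 2), lintegral_gammaPDF_eq_one two_pos hr, mul_one]

lemma exp_pos_ae {r : ℝ} (hr : 0 < r) : ∀ᵐ x ∂(expMeasure r), 0 < x := by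
  have := isProbabilityMeasure_expMeasure hr
  rw [ae_iff]
  have h := cdf_expMeasure_eq hr 0
  rw [cdf_eq_real] at h
  simp only [le_refl, if_true, mul_zero, neg_zero, exp_zero, sub_self] at h
  rw [measureReal_eq_zero_iff] at h
  simpa [Set.Iic] using h

variable {V : Type} [Fintype V] [DecidableEq V] (G : SimpleGraph V) [DecidableRel G.Adj]

instance : DiscreteMeasurableSpace (Mark G) := ⟨fun _ => trivial⟩

lemma dynCover_le (z : V × (G.edgeSet → Bool)) (ω : (ℕ → Mark G) × (ℕ → ℝ))
    (h1 : ∀ i, 0 < ω.2 i) (h2 : ∃ k, ∀ v, ∃ i ≤ k, (skeleton (step G) z ω.1 i).1 = v) :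
    dynCover G z ω ≤ ∑' i, ENNReal.ofReal (ncI (step G) Prod.fst z (pre i ω.1))
      * ENNReal.ofReal (ω.2 i) := by
  classical
  have hS : StrictMono fun n => ∑ i ∈ Finset.range n, ω.2 i :=
    strictMono_nat_of_lt_succ fun n => by
      simp only [Finset.sum_range_succ]; linarith [h1 n]
  have hS0 : ∀ n, 0 ≤ ∑ i ∈ Finset.range n, ω.2 i := fun n =>
    Finset.sum_nonneg fun i _ => (h1 i).le
  have hp : ∀ n, process G z ω (∑ i ∈ Finset.range n, ω.2 i) = skeleton (step G) z ω.1 n := by
    intro n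
    unfold process
    congr 1
    have : {k : ℕ | ∑ i ∈ Finset.range k, ω.2 i ≤ ∑ i ∈ Finset.range n, ω.2 i} = Set.Iic n := by
      ext k; exact hS.le_iff_le
    rw [this, csSup_Iic]
  refine (iInf₂_le (⟨_, hS0 (Nat.find h2)⟩ : ℝ≥0) ?_).trans ?_
  · intro v
    obtain ⟨i, hi, h⟩ := Nat.find_spec h2 v
    refine ⟨⟨_, hS0 i⟩, hS.monotone hi, ?_⟩
    rw [← h, ← hp]; rfl
  · refine le_trans ?_ (ENNReal.sum_le_tsum (Finset.range (Nat.find h2)))
    rw [← ENNReal.ofReal_coe_nnreal]
    change ENNReal.ofReal (∑ i ∈ Finset.range (Nat.find h2), ω.2 i) ≤ _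
    rw [ENNReal.ofReal_sum_of_nonneg fun i _ => (h1 i).le]
    refine Finset.sum_le_sum fun i hi => ?_
    rw [ncI_pre_of_not (Nat.find_min h2 (Finset.mem_range.1 hi))]
    simp

lemma dyn_bridge {μ p : ℝ} {w : V → ℝ} (hq : IsPV (qm G μ p w)) (hr : 0 < totalRate G μ p w)
    (z : V × (G.edgeSet → Bool)) {B : ℝ}
    (hB : ∀ K, ∑ i ∈ Finset.range K, nc (qm G μ p w) (step G) Prod.fst i z ≤ B) :
    ∫⁻ ω, dynCover G z ω ∂(dynLaw G μ p w) ≤ ENNReal.ofReal (B / totalRate G μ p w) := by
  have hν : ∀ m, markLaw G μ p w {m} = ENNReal.ofReal (qm G μ p w m) := by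
    intro m
    classical
    simp only [markLaw, Measure.coe_finsetSum, Finset.sum_apply, Measure.smul_apply,
      Measure.dirac_apply, smul_eq_mul, Set.indicator_apply, Set.mem_singleton_iff, Pi.one_apply,
      mul_ite, mul_one, mul_zero, Finset.sum_ite_eq', Finset.mem_univ, if_true]
    rfl
  have hP : IsProbabilityMeasure (markLaw G μ p w) := by
    constructor
    rw [← Finset.coe_univ, ← sum_measure_singleton]
    simp only [hν]
    rw [← ENNReal.ofReal_sum_of_nonneg fun m _ => hq.nonneg m, hq.sum, ENNReal.ofReal_one]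
  have hE := isProbabilityMeasure_expMeasure hr
  have hsum : ∑' i, ∫⁻ ω, ENNReal.ofReal (ncI (step G) Prod.fst z (pre i ω))
      ∂(Measure.infinitePi fun _ : ℕ => markLaw G μ p w) ≤ ENNReal.ofReal B := by
    refine ENNReal.tsum_le_of_sum_range_le fun K => ?_
    rw [Finset.sum_congr rfl fun i _ => lintegral_pre _ hq hν i (ncI_nonneg _ Prod.fst z),
      ← ENNReal.ofReal_sum_of_nonneg fun i _ => hq.EL_nonneg i (ncI_nonneg _ Prod.fst z)]
    exact ENNReal.ofReal_le_ofReal (hB K)
  have a1 : ∀ᵐ ω ∂(Measure.infinitePi fun _ : ℕ => expMeasure (totalRate G μ p w)),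
      ∀ i, 0 < ω i := by
    rw [ae_all_iff]
    intro i
    exact (measurePreserving_eval_infinitePi (fun _ : ℕ => expMeasure (totalRate G μ p w))
      i).quasiMeasurePreserving.ae (exp_pos_ae hr)
  have a2 : ∀ᵐ ω ∂(Measure.infinitePi fun _ : ℕ => markLaw G μ p w),
      ∃ k, ∀ v, ∃ i ≤ k, (skeleton (step G) z ω i).1 = v := by
    have h := ae_lt_top (μ := Measure.infinitePi fun _ : ℕ => markLaw G μ p w)
      (f := fun ω => ∑' i, ENNReal.ofReal (ncI (step G) Prod.fst z (pre i ω)))
      (Measurable.tsum fun i => measurable_pre i _) (by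
        rw [lintegral_tsum fun i => (measurable_pre i _).aemeasurable]
        exact (hsum.trans_lt ENNReal.ofReal_lt_top).ne)
    filter_upwards [h] with ω hω
    by_contra hn
    push Not at hn
    have : ∀ i, ncI (step G) Prod.fst z (pre i ω) = 1 := fun i =>
      ncI_pre_of_not (by push Not; exact hn i)
    simp [this] at hω
  have a3 : ∀ᵐ ω ∂(dynLaw G μ p w), dynCover G z ω ≤ ∑' i,
      ENNReal.ofReal (ncI (step G) Prod.fst z (pre i ω.1)) * ENNReal.ofReal (ω.2 i) := by
    unfold dynLaw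
    filter_upwards [Measure.quasiMeasurePreserving_fst.ae a2,
      Measure.quasiMeasurePreserving_snd.ae a1] with ω h2 h1
    exact dynCover_le G z ω h1 h2
  refine (lintegral_mono_ae a3).trans ?_
  have hm2 : ∀ i : ℕ, Measurable fun ξ : ℕ → ℝ => ENNReal.ofReal (ξ i) := fun i => by fun_prop
  have hm3 : ∀ i : ℕ, Measurable fun ω : (ℕ → Mark G) × (ℕ → ℝ) =>
      ENNReal.ofReal (ncI (step G) Prod.fst z (pre i ω.1)) * ENNReal.ofReal (ω.2 i) := fun i =>
    ((measurable_pre i _).comp measurable_fst).mul ((hm2 i).comp measurable_snd)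
  rw [lintegral_tsum fun i => (hm3 i).aemeasurable]
  unfold dynLaw
  have e : ∀ i : ℕ, ∫⁻ ξ : ℕ → ℝ, ENNReal.ofReal (ξ i)
      ∂(Measure.infinitePi fun _ : ℕ => expMeasure (totalRate G μ p w))
      = ENNReal.ofReal (1 / totalRate G μ p w) := fun i => by
    rw [← exp_mean hr]
    exact (measurePreserving_eval_infinitePi (fun _ : ℕ => expMeasure (totalRate G μ p w))
      i).lintegral_comp ENNReal.measurable_ofReal
  rw [tsum_congr fun i => lintegral_prod_mul (measurable_pre i _).aemeasurable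
    (hm2 i).aemeasurable]
  simp only [e]
  rw [ENNReal.tsum_mul_right, div_eq_mul_one_div B, mul_comm B,
    ENNReal.ofReal_mul (by positivity), mul_comm]
  gcongr

end Pool.Agent.MP_6504f0_pr
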