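import Mathlib.Combinatorics.SimpleGraph.Connectivity.Connected
import Pool.Agent.MP_6504f0_pr.Bridge

set_option autoImplicit false
set_option linter.unusedSectionVars false

open Real MeasureTheory ProbabilityTheory
open scoped ENNReal NNReal

namespace Pool.Agent.MP_6504f0_pr

lemma geom_bound {V Ed M : Type*} [Fintype V] [DecidableEq V] [Fintype Ed] [DecidableEq Ed]
    [Fintype M] {q : M → ℝ} {φ : V → M → V} {src tgt : Ed → V} {o : V}
    (hq : IsPV q) (hc : Conn src tgt o Finset.univ) (hdg : ∀ x, 0 < dg src tgt x)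
    (hstep : ∀ x (F : V → ℝ), nb src tgt x (fun _ y => F y) = dg src tgt x * ∑ m, q m * F (φ x m))
    {T : ℝ} (hT0 : 0 < T) (hT : ∀ x n, ∑ i ∈ Finset.range n, nc q φ id i x ≤ T) :
    ∃ (d : V → V → ℝ) (D Γ : ℝ), (∀ u v, 0 ≤ d u v) ∧
      (∀ (ψ : V → ℝ) u v, (ψ u - ψ v) ^ 2 ≤ d u v ^ 2 * En src tgt ψ) ∧ Chainable d o D Γ ∧
      0 < D ∧ (∀ u v, d u v ≤ D) ∧ 0 ≤ Γ ∧
      (∑ x, dg src tgt x) * ((7 * D + 2 * Γ) ^ 2 + 10 * D ^ 2) ≤ 3 * 10 ^ 14 * T := by
  obtain ⟨a, ha⟩ := exists_vec hc
  have hB := pd_Bf hc Finset.univ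
  have hprob := hB.isProb
  have hI := srw_lower hq hc hdg hstep ha hT
  have hmx0 := mx_nonneg ha
  set B := Bf src tgt o Finset.univ with hBdef
  set vol := ∑ x, dg src tgt x with hvol
  have hvol0 : 0 < vol := Finset.sum_pos (fun x _ => hdg x) ⟨o, Finset.mem_univ o⟩
  set s := √(T / vol) with hs
  have hs0 : 0 < s := Real.sqrt_pos.2 (by positivity)
  have hs2 : vol * s ^ 2 = T := by rw [hs, Real.sq_sqrt (by positivity)]; field_simp
  have hne : (Finset.univ : Finset V).Nonempty := ⟨o, Finset.mem_univ o⟩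
  have hi2 : Integrable (fun ζ => mx B a Finset.univ ζ ^ 2) (gm B) :=
    (hB.memLp_mx hne).integrable_sq
  have hI' : ∫ ζ, mx B a Finset.univ ζ ^ 2 ∂(gm B) ≤ 4 * s ^ 2 :=
    le_of_mul_le_mul_left (by linarith) hvol0
  have hi3 : Integrable (fun ζ => mx B a Finset.univ (-ζ) ^ 2) (gm B) := by
    rw [hB.integrable_gm_iff] at hi2 ⊢
    have := hi2.comp_neg
    simpa using this
  have h1 : ∀ x, bn B (a x) ≤ 3 * s := by
    intro x
    refine (abs_le_of_sq_le_sq' ?_ (by positivity)).2
    rw [hB.bn_sq, ← hB.integral_lin_sq]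
    have : ∫ ζ, (B (a x) ζ) ^ 2 ∂(gm B)
        ≤ ∫ ζ, (mx B a Finset.univ ζ ^ 2 + mx B a Finset.univ (-ζ) ^ 2) ∂(gm B) := by
      refine integral_mono (hB.memLp_lin _).integrable_sq (hi2.add hi3) fun ζ => ?_
      have e1 := le_mx (B := B) (a := a) (Finset.mem_univ x) ζ
      have e2 := le_mx (B := B) (a := a) (Finset.mem_univ x) (-ζ)
      rw [map_neg] at e2
      have := hmx0 ζ
      have := hmx0 (-ζ)
      simp only
      rcases le_total 0 (B (a x) ζ) with h | h <;> nlinarith
    rw [integral_add hi2 hi3, integral_gm_neg B (fun ζ => mx B a Finset.univ ζ ^ 2)] at this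
    nlinarith
  have h2 : ∀ x y, bn B (a x - a y) ≤ 6 * s := by
    intro x y
    have := hB.bn_add_le (a x) (-a y)
    rw [bn_neg, ← sub_eq_add_neg] at this
    linarith [h1 x, h1 y]
  have h3 : emx B a Finset.univ ≤ 2 * s := by
    have : emx B a Finset.univ ≤ ∫ ζ, (mx B a Finset.univ ζ ^ 2 / (4 * s) + s) ∂(gm B) := by
      refine integral_mono (hB.integrable_mx hne) ((hi2.div_const _).add (integrable_const _))
        fun ζ => ?_
      simp only
      rw [div_add' _ _ _ (by positivity), le_div_iff₀ (by positivity)]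
      nlinarith [sq_nonneg (mx B a Finset.univ ζ - 2 * s)]
    rw [integral_add (hi2.div_const _) (integrable_const _), integral_div] at this
    simp only [integral_const, probReal_univ, one_smul] at this
    have e : (∫ ζ, mx B a Finset.univ ζ ^ 2 ∂(gm B)) / (4 * s) ≤ s := by
      rw [div_le_iff₀ (by positivity)]; linarith
    linarith
  have h4 : ∀ (ψ : V → ℝ) u v, (ψ u - ψ v) ^ 2 ≤ bn B (a u - a v) ^ 2 * En src tgt ψ := by
    intro ψ u v
    set ζ : {x : V // x ≠ o} → ℝ := fun i => ψ i - ψ o with hζ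
    have e : ext o 0 ζ = fun x => ψ x - ψ o := by
      funext x; unfold ext; split_ifs with h
      · simp [h]
      · rfl
    have e2 : B ζ ζ = En src tgt ψ := by
      rw [hBdef, Bf_apply, BS_univ, e]; simp [En]
    have := hB.cs (a u - a v) ζ
    rw [← hB.bn_sq, e2, map_sub, LinearMap.sub_apply, ha, ha, e] at this
    refine le_trans (le_of_eq ?_) this
    ring
  have h5 : Function.Injective a := by
    intro x y hxy
    by_contra hne
    have := h4 (Pi.single x 1) x y
    rw [hxy, sub_self, bn_zero, Pi.single_eq_same, Pi.single_eq_of_ne (Ne.symm hne)] at this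
    norm_num at this
  have h6 := hB.emx_nonneg (a := a) hne
  refine ⟨fun x y => bn B (a x - a y), 2 * (6 * s), _, fun _ _ => bn_nonneg _ _, h4,
    hB.chainable h5 o (by positivity) h2, by positivity, fun u v => by linarith [h2 u v],
    by positivity, ?_⟩
  rw [← hs2]
  have : (7 * (2 * (6 * s)) + 2 * (1000000 * (emx B a Finset.univ + 6 * s))) ^ 2
      ≤ (17000000 * s) ^ 2 := by
    gcongr; linarith
  nlinarith [mul_pos hvol0 (pow_pos hs0 2)]

variable {V : Type} [Fintype V] [DecidableEq V] (G : SimpleGraph V) [DecidableRel G.Adj]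

lemma nb_dart (x : V) (F : V → ℝ) :
    nb (fun d : G.Dart => d.fst) (fun d => d.snd) x (fun _ y => F y)
      = ∑ y ∈ G.neighborFinset x, F y := by
  have e1 : ∑ d : G.Dart, (if d.fst = x then F d.snd else 0) = ∑ y ∈ G.neighborFinset x, F y := by
    rw [← Finset.sum_filter]
    refine Finset.sum_bij (fun d _ => d.snd) (fun d hd => ?_) (fun d hd d' hd' h => ?_)
      (fun y hy => ?_) fun _ _ => rfl
    · rw [SimpleGraph.mem_neighborFinset, ← (Finset.mem_filter.1 hd).2]; exact d.adj
    · ext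
      · rw [(Finset.mem_filter.1 hd).2, (Finset.mem_filter.1 hd').2]
      · exact h
    · exact ⟨⟨(x, y), (G.mem_neighborFinset x y).1 hy⟩, by simp, rfl⟩
  have e2 : ∑ d : G.Dart, (if d.snd = x then F d.fst else 0)
      = ∑ d : G.Dart, (if d.fst = x then F d.snd else 0) :=
    Finset.sum_bijective SimpleGraph.Dart.symm SimpleGraph.Dart.symm_involutive.bijective
      (by simp) fun d _ => rfl
  rw [nb, Finset.sum_add_distrib, e2, e1]; ring

lemma dg_dart (x : V) : dg (fun d : G.Dart => d.fst) (fun d => d.snd) x = G.degree x := by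
  rw [dg, nb_dart G x (fun _ => 1)]; simp

lemma conn_dart (hG : G.Connected) (o : V) :
    Conn (fun d : G.Dart => d.fst) (fun d => d.snd) o Finset.univ := by
  intro y P h0 h1
  obtain ⟨W⟩ := hG.preconnected o y
  induction W with
  | nil => exact h0
  | cons h _ ih => exact ih ((h1 ⟨(_, _), h⟩ (Finset.mem_univ _)).1 h0)

variable [MeasurableSpace V] [DiscreteMeasurableSpace V]

lemma srw_prob (hd : ∀ x, 0 < G.degree x) (x : V) :
    IsProbabilityMeasure (uniformOn (G.neighborSet x)) :=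
  isProbabilityMeasure_uniformOn (Set.toFinite _) (by
    obtain ⟨y, hy⟩ := (G.degree_pos_iff_exists_adj x).1 (hd x); exact ⟨y, hy⟩)

lemma srw_step (hd : ∀ x, 0 < G.degree x) (x : V) (F : V → ℝ) :
    ∑ y ∈ G.neighborFinset x, F y = G.degree x * ∑ m, (srwStep G).real {m} * F (m x) := by
  have hp := srw_prob G hd
  have : IsProbabilityMeasure (srwStep G) := by unfold srwStep; infer_instance
  have e1 : ∑ m, (srwStep G).real {m} * F (m x) = ∫ m, F (m x) ∂(srwStep G) := by
    rw [integral_fintype Integrable.of_finite]; rfl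
  have e2 : ∫ m, F (m x) ∂(srwStep G) = ∫ y, F y ∂(uniformOn (G.neighborSet x)) := by
    have := (measurePreserving_eval (fun x => uniformOn (G.neighborSet x)) x).map_eq
    rw [← this, integral_map (measurable_pi_apply x).aemeasurable
      StronglyMeasurable.of_discrete.aestronglyMeasurable]
    rfl
  rw [e1, e2, integral_fintype Integrable.of_finite, Finset.mul_sum]
  have hd' : (G.degree x : ℝ) ≠ 0 := by exact_mod_cast (hd x).ne'
  have e3 : ∀ y, (uniformOn (G.neighborSet x)).real {y}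
      = ((G.neighborFinset x ∩ {y}).card : ℝ) / G.degree x := by
    intro y
    have := uniformOn_apply_finset (s := G.neighborFinset x) (t := {y})
    rw [SimpleGraph.coe_neighborFinset, Finset.coe_singleton] at this
    rw [measureReal_def, this]
    simp
  rw [← Finset.sum_subset (Finset.subset_univ (G.neighborFinset x))]
  · refine Finset.sum_congr rfl fun y hy => ?_
    rw [e3, Finset.inter_singleton_of_mem hy, smul_eq_mul, Finset.card_singleton]
    field_simp
    simp
  · intro y _ hy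
    rw [e3, Finset.inter_singleton_of_notMem hy]; simp

theorem cover_comparison (hG : G.Connected) {μ p : ℝ} (hμ : 0 < μ) (hμ1 : μ ≤ 1) (h0 : 0 < p)
    (h1 : p ≤ 1) {w : V → ℝ} (hw : ∀ x, 1 ≤ w x) (hw' : ∀ x, w x ≤ max 1 (G.degree x : ℝ)) :
    Tdyn G μ p w ≤ ENNReal.ofReal (10 ^ 16 / (μ * p)) * Tsrw G := by
  rcases subsingleton_or_nontrivial V with hV | hV
  · refine iSup_le fun z => ?_
    have : ∀ ω, dynCover G z ω = 0 := fun ω => le_zero_iff.1
      (iInf₂_le (f := fun (t : ℝ≥0) (_ : ∀ v : V, ∃ s : ℝ≥0, s ≤ t ∧ (process G z ω s).1 = v) =>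
        (t : ℝ≥0∞)) 0 fun v => ⟨0, le_rfl, Subsingleton.elim _ _⟩)
    simp [this]
  by_cases htop : Tsrw G = ⊤
  · rw [htop, ENNReal.mul_top]
    · exact le_top
    · rw [Ne, ENNReal.ofReal_eq_zero, not_le]; positivity
  have hd : ∀ x, 0 < G.degree x := fun x => hG.preconnected.degree_pos_of_nontrivial x
  have hp := srw_prob G hd
  have : IsProbabilityMeasure (srwStep G) := by unfold srwStep; infer_instance
  have hq : IsPV fun m => (srwStep G).real {m} :=
    ⟨fun _ => measureReal_nonneg, by rw [sum_measureReal_singleton]; simp⟩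
  set T := (Tsrw G).toReal with hTdef
  have hT : ∀ x n, ∑ i ∈ Finset.range n,
      nc (fun m => (srwStep G).real {m}) (fun y (m : V → V) => m y) id i x ≤ T := by
    intro x n
    have := (srw_bridge (srwStep G) hq (fun m => (ofReal_measureReal).symm) x n).trans
      (le_iSup (fun x => ∫⁻ ω, srwCover x ω ∂(Measure.infinitePi fun _ : ℕ => srwStep G)) x)
    exact (ENNReal.ofReal_le_iff_le_toReal htop).1 this
  obtain ⟨o⟩ := hG.nonempty
  have hn := hq.card_le o (hT o)
  have hn2 : (2 : ℝ) ≤ Fintype.card V := by exact_mod_cast Fintype.one_lt_card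
  obtain ⟨d, D, Γ, hd0, hd1, hch, hD, hdD, hΓ, hb⟩ := geom_bound hq (conn_dart G hG o)
    (fun x => by rw [dg_dart]; exact_mod_cast hd x)
    (fun x F => by rw [nb_dart, dg_dart]; exact srw_step G hd x F) (by linarith) hT
  simp only [dg_dart] at hb
  have hsw : ∑ x, w x ≤ ∑ x, (G.degree x : ℝ) := Finset.sum_le_sum fun x _ =>
    (hw' x).trans (max_le (by exact_mod_cast hd x) le_rfl)
  have hΛ := one_le_totalRate G hμ.le h0.le h1 hw
  refine iSup_le fun z => ?_
  refine (dyn_bridge G (isPV_qm G hμ.le h0.le h1 hw) (by linarith) z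
    (dyn_sum_bound G hμ hμ1 h0 h1 hw hd0 hd1 hch hD hdD hΓ z)).trans ?_
  rw [← ENNReal.ofReal_toReal htop, ← ENNReal.ofReal_mul (by positivity), ← hTdef]
  refine ENNReal.ofReal_le_ofReal ?_
  have e : totalRate G μ p w / (μ * p) * (14 * Fintype.card V +
      24 * (∑ x, w x) * ((7 * D + 2 * Γ) ^ 2 + 10 * D ^ 2)) / totalRate G μ p w
      = (14 * Fintype.card V + 24 * (∑ x, w x) * ((7 * D + 2 * Γ) ^ 2 + 10 * D ^ 2))
        / (μ * p) := by
    field_simp
  rw [e, div_mul_eq_mul_div]
  gcongr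
  have : (∑ x, w x) * ((7 * D + 2 * Γ) ^ 2 + 10 * D ^ 2)
      ≤ (∑ x, (G.degree x : ℝ)) * ((7 * D + 2 * Γ) ^ 2 + 10 * D ^ 2) := by gcongr
  linarith

end Pool.Agent.MP_6504f0_pr
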